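import Mathlib

/-!
# Strict instances: deferred acceptance and uniqueness of the matching without rotations

Men and women are the elements of `Fin n`; `a m w` is the rank of the woman `w` for the man `m`,
`b w m` the rank of the man `m` for the woman `w` (small is good). A matching is a permutation
which maps every man to his wife.
-/

set_option autoImplicit false

namespace Pool.Agent.H688.WSM

open Finset Function

variable {n : ℕ}

/-- no pair blocks (the women are named by their husbands) -/
def Stable (a b : Fin n → Fin n → ℕ) (M : Equiv.Perm (Fin n)) : Prop :=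
  ∀ m j, ¬ (a m (M j) < a m (M m) ∧ b (M j) m < b (M j) j)

/-- the wife of `j` is the first woman after his wife, in the list of `m`, who prefers `m` to her
husband -/
def Nx (a b : Fin n → Fin n → ℕ) (M : Equiv.Perm (Fin n)) (m j : Fin n) : Prop :=
  a m (M m) < a m (M j) ∧ b (M j) m < b (M j) j ∧
    ∀ k, ¬ (a m (M m) < a m (M k) ∧ a m (M k) < a m (M j) ∧ b (M k) m < b (M k) k)

/-- there is a rotation -/
def Bad (a b : Fin n → Fin n → ℕ) (M : Equiv.Perm (Fin n)) : Prop :=
  ∃ S : Finset (Fin n), S.Nonempty ∧ ∀ m ∈ S, ∃ j ∈ S, Nx a b M m j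

theorem exists_nx {a b : Fin n → Fin n → ℕ} {M : Equiv.Perm (Fin n)} {m k : Fin n}
    (h1 : a m (M m) < a m (M k)) (h2 : b (M k) m < b (M k) k) :
    ∃ j, Nx a b M m j ∧ a m (M j) ≤ a m (M k) := by
  classical
  let C := (univ : Finset (Fin n)).filter fun k => a m (M m) < a m (M k) ∧ b (M k) m < b (M k) k
  have hC : C.Nonempty := ⟨k, by simp [C, h1, h2]⟩
  obtain ⟨j, hj, hmin⟩ := C.exists_min_image (fun k => a m (M k)) hC
  simp only [C, mem_filter, mem_univ, true_and] at hj hmin
  refine ⟨j, ⟨hj.1, hj.2, fun k' hk' => ?_⟩, hmin k ⟨h1, h2⟩⟩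
  have := hmin k' ⟨hk'.1, hk'.2.2⟩
  omega

/-- If some man prefers the stable matching `M` to the stable matching `N` then `M` has a
rotation. -/
theorem bad_of_prefers {a b : Fin n → Fin n → ℕ} (ha : ∀ m, Injective (a m))
    (hb : ∀ w, Injective (b w)) {M N : Equiv.Perm (Fin n)} (hM : Stable a b M)
    (hN : Stable a b N) {m₀ : Fin n} (h0 : a m₀ (M m₀) < a m₀ (N m₀)) : Bad a b M := by
  classical
  -- the men who prefer `M`
  let X := (univ : Finset (Fin n)).filter fun m => a m (M m) < a m (N m)
  -- the women who prefer `N`
  let Y := (univ : Finset (Fin n)).filter fun w => b w (N.symm w) < b w (M.symm w)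
  have h1 : X.map M.toEmbedding ⊆ Y := by
    intro w hw
    rw [mem_map_equiv] at hw
    have hw' : a (M.symm w) w < a (M.symm w) (N (M.symm w)) := by
      simpa [X] using hw
    have h := hN (M.symm w) (N.symm w)
    rw [Equiv.apply_symm_apply] at h
    have h2 : ¬ b w (M.symm w) < b w (N.symm w) := fun h3 => h ⟨hw', h3⟩
    have h3 : b w (M.symm w) ≠ b w (N.symm w) := by
      intro h4
      have h5 := hb w h4
      rw [h5, Equiv.apply_symm_apply] at hw'
      exact lt_irrefl _ hw'
    simp only [Y, mem_filter, mem_univ, true_and]
    omega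
  have h2 : Y.map N.symm.toEmbedding ⊆ X := by
    intro m hm
    rw [mem_map_equiv] at hm
    have hm' : b (N m) m < b (N m) (M.symm (N m)) := by
      simpa [Y] using hm
    have h := hM m (M.symm (N m))
    rw [Equiv.apply_symm_apply] at h
    have h3 : ¬ a m (N m) < a m (M m) := fun h3 => h ⟨h3, hm'⟩
    have h4 : a m (N m) ≠ a m (M m) := by
      intro h5
      have h6 := ha m h5
      rw [h6, Equiv.symm_apply_apply] at hm'
      exact lt_irrefl _ hm'
    simp only [X, mem_filter, mem_univ, true_and]
    omega
  have c1 := card_le_card h1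
  have c2 := card_le_card h2
  rw [card_map] at c1 c2
  have e1 : X.map M.toEmbedding = Y := eq_of_subset_of_card_le h1 (by rw [card_map]; exact c2)
  have e2 : Y.map N.symm.toEmbedding = X := eq_of_subset_of_card_le h2 (by rw [card_map]; exact c1)
  refine ⟨X, ⟨m₀, by simp [X, h0]⟩, fun m hm => ?_⟩
  have hm1 : a m (M m) < a m (N m) := by simpa [X] using hm
  have hm2 : N m ∈ Y := by
    have : m ∈ Y.map N.symm.toEmbedding := by rw [e2]; exact hm
    rw [mem_map_equiv] at this
    simpa using this
  have hm3 : b (N m) m < b (N m) (M.symm (N m)) := by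
    simpa [Y] using hm2
  obtain ⟨j, hj, hj2⟩ := exists_nx (a := a) (b := b) (M := M) (m := m) (k := M.symm (N m))
    (by simpa using hm1) (by simpa using hm3)
  rw [Equiv.apply_symm_apply] at hj2
  refine ⟨j, ?_, hj⟩
  have key : M j ∈ Y := by
    rcases hj2.lt_or_eq with h | h
    · -- `m` prefers `M j` to `N m`
      have h3 := hN m (N.symm (M j))
      rw [Equiv.apply_symm_apply] at h3
      have h4 : ¬ b (M j) m < b (M j) (N.symm (M j)) := fun h5 => h3 ⟨h, h5⟩
      have h6 := hj.2.1
      simp only [Y, mem_filter, mem_univ, true_and, Equiv.symm_apply_apply]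
      omega
    · rw [ha m h]; exact hm2
  rw [← e1, mem_map_equiv] at key
  simpa using key

/-- two stable matchings without rotations are equal -/
theorem unique_of_not_bad {a b : Fin n → Fin n → ℕ} (ha : ∀ m, Injective (a m))
    (hb : ∀ w, Injective (b w)) {M N : Equiv.Perm (Fin n)} (hM : Stable a b M)
    (hN : Stable a b N) (hM' : ¬ Bad a b M) (hN' : ¬ Bad a b N) : M = N := by
  refine Equiv.ext fun m => ?_
  by_contra hne
  rcases lt_or_gt_of_ne (fun h => hne (ha m h)) with h | h
  · exact hM' (bad_of_prefers ha hb hM hN h)
  · exact hN' (bad_of_prefers ha hb hN hM h)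

/-! ### deferred acceptance, the women propose -/

/-- `m` is the best man available to `w` -/
def Best (b : Fin n → Fin n → ℕ) (U : Finset (Fin n × Fin n)) (w m : Fin n) : Prop :=
  (m, w) ∈ U ∧ ∀ m', (m', w) ∈ U → b w m ≤ b w m'

/-- some woman whom the man of the pair `x` prefers to the woman of `x` proposes to him -/
def Better (a b : Fin n → Fin n → ℕ) (U : Finset (Fin n × Fin n)) (x : Fin n × Fin n) : Prop :=
  ∃ w', Best b U w' x.1 ∧ a x.1 w' < a x.1 x.2

open Classical in
/-- one round: every woman proposes to the best man available to her; a pair is removed when the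
man has a better proposal -/
noncomputable def stp (a b : Fin n → Fin n → ℕ) (U : Finset (Fin n × Fin n)) :
    Finset (Fin n × Fin n) :=
  U.filter fun x => ¬ Better a b U x

/-- the available pairs after `t` rounds -/
noncomputable def av (a b : Fin n → Fin n → ℕ) (t : ℕ) : Finset (Fin n × Fin n) :=
  (stp a b)^[t] univ

theorem av_succ (a b : Fin n → Fin n → ℕ) (t : ℕ) : av a b (t + 1) = stp a b (av a b t) := by
  unfold av
  rw [iterate_succ_apply']

theorem stp_subset (a b : Fin n → Fin n → ℕ) (U : Finset (Fin n × Fin n)) : stp a b U ⊆ U := by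
  classical
  unfold stp
  exact filter_subset _ _

theorem av_anti (a b : Fin n → Fin n → ℕ) {s t : ℕ} (h : s ≤ t) : av a b t ⊆ av a b s := by
  induction t, h using Nat.le_induction with
  | base => exact Subset.refl _
  | succ t _ ih =>
      rw [av_succ]
      exact (stp_subset _ _ _).trans ih

/-- the process is stationary after `n ^ 2` rounds -/
theorem av_stat (a b : Fin n → Fin n → ℕ) : stp a b (av a b (n * n)) = av a b (n * n) := by
  have key : ∀ t, stp a b (av a b t) = av a b t ∨ (av a b t).card + t ≤ n * n := by
    intro t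
    induction t with
    | zero =>
        right
        have : (av a b 0).card ≤ Fintype.card (Fin n × Fin n) := card_le_univ _
        simpa using this
    | succ t ih =>
        by_cases h : stp a b (av a b t) = av a b t
        · left
          rw [av_succ, h, h]
        · rcases ih with ih | ih
          · exact absurd ih h
          · right
            have h1 : (av a b (t + 1)).card < (av a b t).card := by
              rw [av_succ]
              exact card_lt_card (lt_of_le_of_ne (stp_subset _ _ _) h)
            omega
  rcases key (n * n) with h | h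
  · exact h
  · have h1 : av a b (n * n) = ∅ := card_eq_zero.1 (by omega)
    rw [h1]
    exact subset_empty.1 (stp_subset _ _ _)

theorem best_unique {b : Fin n → Fin n → ℕ} (hb : ∀ w, Injective (b w))
    {U : Finset (Fin n × Fin n)} {w m m' : Fin n} (h : Best b U w m) (h' : Best b U w m') :
    m = m' :=
  hb w (le_antisymm (h.2 _ h'.1) (h'.2 _ h.1))

theorem exists_best {b : Fin n → Fin n → ℕ} {U : Finset (Fin n × Fin n)} {w m : Fin n}
    (h : (m, w) ∈ U) : ∃ m', Best b U w m' ∧ b w m' ≤ b w m := by
  classical
  let C := (univ : Finset (Fin n)).filter fun m => (m, w) ∈ U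
  obtain ⟨m', h1, h2⟩ := C.exists_min_image (fun m => b w m) ⟨m, by simp [C, h]⟩
  simp only [C, mem_filter, mem_univ, true_and] at h1 h2
  exact ⟨m', ⟨h1, fun m'' hm'' => h2 m'' hm''⟩, h2 m h⟩

/-- a pair which is not available any more: the man has a better proposal -/
theorem removed (a b : Fin n → Fin n → ℕ) (t : ℕ) (m w : Fin n) (h : (m, w) ∉ av a b t) :
    ∃ w', Best b (av a b t) w' m ∧ a m w' < a m w := by
  classical
  induction t with
  | zero => exact absurd (by simp [av]) h
  | succ t ih =>
      -- a proposal at time `t` which is better than `w`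
      have h1 : ∃ w', Best b (av a b t) w' m ∧ a m w' < a m w := by
        by_cases hm : (m, w) ∈ av a b t
        · rw [av_succ] at h
          unfold stp at h
          rw [mem_filter, not_and, not_not] at h
          exact h hm
        · exact ih hm
      obtain ⟨w', h2, h3⟩ := h1
      -- the best proposal at time `t`
      let C := (univ : Finset (Fin n)).filter fun w' => Best b (av a b t) w' m
      obtain ⟨v, h4, h5⟩ := C.exists_min_image (fun w => a m w) ⟨w', by simp [C, h2]⟩
      simp only [C, mem_filter, mem_univ, true_and] at h4 h5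
      refine ⟨v, ⟨?_, fun m' hm' => h4.2 m' (av_anti a b (Nat.le_succ t) hm')⟩,
        (h5 w' h2).trans_lt h3⟩
      rw [av_succ]
      unfold stp
      rw [mem_filter]
      refine ⟨h4.1, ?_⟩
      rintro ⟨u, h6, h7⟩
      have := h5 u h6
      simp only at h7
      omega

/-- stable pairs are never removed -/
theorem stable_mem_av {a b : Fin n → Fin n → ℕ} (hb : ∀ w, Injective (b w))
    {N : Equiv.Perm (Fin n)} (hN : Stable a b N) (t : ℕ) (m : Fin n) : (m, N m) ∈ av a b t := by
  classical
  induction t generalizing m with
  | zero => simp [av]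
  | succ t ih =>
      rw [av_succ]
      unfold stp
      rw [mem_filter]
      refine ⟨ih m, ?_⟩
      rintro ⟨w', h1, h2⟩
      simp only at h1 h2
      have h3 := hN m (N.symm w')
      rw [Equiv.apply_symm_apply] at h3
      have h4 : b w' m ≤ b w' (N.symm w') := h1.2 _ (by
        have := ih (N.symm w')
        rwa [Equiv.apply_symm_apply] at this)
      rcases h4.lt_or_eq with h5 | h5
      · exact h3 ⟨h2, h5⟩
      · have h6 := hb w' h5
        rw [h6, Equiv.apply_symm_apply] at h2
        exact lt_irrefl _ h2

/-- deferred acceptance: after `n ^ 2` rounds the proposals form a stable matching, which is the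
best one for the women and has no rotation -/
theorem exists_gs {a b : Fin n → Fin n → ℕ} (ha : ∀ m, Injective (a m))
    (hb : ∀ w, Injective (b w)) : ∃ M : Equiv.Perm (Fin n), Stable a b M ∧ ¬ Bad a b M ∧
      (∀ N, Stable a b N → ∀ w, b w (M.symm w) ≤ b w (N.symm w)) ∧
      ∀ m w, Best b (av a b (n * n)) w m ↔ M m = w := by
  classical
  set U := av a b (n * n) with hU
  have hfix : stp a b U = U := av_stat a b
  -- different women propose to different men
  have hinj : ∀ w w' m, Best b U w m → Best b U w' m → w = w' := by
    have h : ∀ w w' m, Best b U w m → Best b U w' m → ¬ a m w' < a m w := by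
      intro w w' m h1 h2 h3
      have h4 : (m, w) ∈ stp a b U := by rw [hfix]; exact h1.1
      unfold stp at h4
      rw [mem_filter] at h4
      exact h4.2 ⟨w', h2, h3⟩
    intro w w' m h1 h2
    have h3 := h w w' m h1 h2
    have h4 := h w' w m h2 h1
    exact ha m (by omega)
  -- every woman proposes
  have htot : ∀ w, ∃ m, Best b U w m := by
    intro w
    by_contra hno
    have h1 : ∀ m, (m, w) ∉ U := fun m hm => by
      obtain ⟨m', h, _⟩ := exists_best (b := b) hm
      exact hno ⟨m', h⟩
    have h2 : ∀ m, ∃ w', Best b U w' m := fun m => by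
      obtain ⟨w', h, _⟩ := removed a b (n * n) m w (h1 m)
      exact ⟨w', h⟩
    choose g hg using h2
    have g_inj : Injective g := fun m m' h => by
      have e := hg m
      rw [h] at e
      exact best_unique hb e (hg m')
    obtain ⟨m, hm⟩ := (Finite.injective_iff_surjective.1 g_inj) w
    exact hno ⟨m, hm ▸ hg m⟩
  choose β hβ using htot
  have β_inj : Injective β := fun w w' h => hinj w w' (β w) (hβ w) (h ▸ hβ w')
  have β_bij : Bijective β := Finite.injective_iff_bijective.1 β_inj
  let M : Equiv.Perm (Fin n) := (Equiv.ofBijective β β_bij).symm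
  have hMs : ∀ w, M.symm w = β w := fun w => rfl
  have hM : ∀ m w, Best b U w m ↔ M m = w := by
    intro m w
    constructor
    · intro h
      have : β w = m := best_unique hb (hβ w) h
      rw [← this, ← hMs, Equiv.apply_symm_apply]
    · intro h
      have : β w = m := by rw [← hMs, ← h, Equiv.symm_apply_apply]
      rw [← this]
      exact hβ w
  have hbest : ∀ m, Best b U (M m) m := fun m => (hM m (M m)).2 rfl
  have hstab : Stable a b M := by
    rintro m j ⟨h1, h2⟩
    have h3 : (m, M j) ∉ U := fun h => by
      have := (hbest j).2 m h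
      omega
    obtain ⟨w', h4, h5⟩ := removed a b (n * n) m (M j) h3
    rw [(hM m w').1 h4] at *
    omega
  refine ⟨M, hstab, ?_, ?_, hM⟩
  · -- no rotation
    rintro ⟨S, ⟨m₀, hm₀⟩, hS⟩
    -- the time at which the wife of `m` proposes to him
    have htime : ∀ m, ∃ t, Best b (av a b t) (M m) m := fun m => ⟨n * n, hbest m⟩
    let τ : Fin n → ℕ := fun m => Nat.find (htime m)
    have hτ : ∀ m, Best b (av a b (τ m)) (M m) m := fun m => Nat.find_spec (htime m)
    have hτle : ∀ m t, Best b (av a b t) (M m) m → τ m ≤ t := fun m t h => Nat.find_min' _ h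
    have hτn : ∀ m, τ m ≤ n * n := fun m => hτle m _ (hbest m)
    have key : ∀ m j, Nx a b M m j → τ m < τ j := by
      intro m j hj
      obtain ⟨h1, h2, h3⟩ := hj
      -- `(m, M j)` has been removed
      have h4 : (m, M j) ∉ U := fun h => by
        have := (hbest j).2 m h
        omega
      have h5 : ∃ t, (m, M j) ∉ av a b t := ⟨n * n, h4⟩
      let T := Nat.find h5
      have hT : (m, M j) ∉ av a b T := Nat.find_spec h5
      have hTpos : T ≠ 0 := fun h0 => by
        rw [h0] at hT
        exact hT (by simp [av])
      obtain ⟨s, hs⟩ := Nat.exists_eq_succ_of_ne_zero hTpos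
      have hs1 : (m, M j) ∈ av a b s := by
        by_contra hc
        have := Nat.find_min' h5 hc
        change T ≤ s at this
        omega
      have hs2 : (m, M j) ∉ stp a b (av a b s) := by
        rw [← av_succ, ← Nat.succ_eq_add_one, ← hs]; exact hT
      unfold stp at hs2
      rw [mem_filter, not_and, not_not] at hs2
      obtain ⟨w'', h6, h7⟩ := hs2 hs1
      simp only at h6 h7
      have hTn : T ≤ n * n := Nat.find_min' h5 h4
      -- `w''` is the wife of `m`
      have h8 : w'' = M m := by
        by_contra hne
        have h9 : b w'' m < b w'' (M.symm w'') := by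
          have h10 : b w'' m ≤ b w'' (M.symm w'') := by
            refine h6.2 _ (av_anti a b (by omega : s ≤ n * n) ?_)
            have := (hbest (M.symm w'')).1
            rwa [Equiv.apply_symm_apply] at this
          rcases h10.lt_or_eq with h11 | h11
          · exact h11
          · have h12 := hb w'' h11
            exact absurd (by rw [h12, Equiv.apply_symm_apply]) hne
        rcases lt_trichotomy (a m w'') (a m (M m)) with h10 | h10 | h10
        · exact hstab m (M.symm w'') (by simpa using ⟨h10, h9⟩)
        · exact hne (ha m h10)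
        · exact h3 (M.symm w'') (by simpa using ⟨h10, h7, h9⟩)
      have h9 : τ m ≤ s := hτle m s (h8 ▸ h6)
      have h10 : ¬ τ j ≤ s := fun hle => by
        have := (hτ j).2 m (av_anti a b hle hs1)
        omega
      omega
    -- follow the rotation
    have hex : ∃ m ∈ S, ∀ m' ∈ S, τ m' ≤ τ m := S.exists_max_image τ ⟨m₀, hm₀⟩
    obtain ⟨m, hm, hmax⟩ := hex
    obtain ⟨j, hj, hj2⟩ := hS m hm
    have := key m j hj2
    have := hmax j hj
    omega
  · intro N hN w
    have h1 : (N.symm w, w) ∈ U := by
      have := stable_mem_av hb hN (n * n) (N.symm w)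
      rwa [Equiv.apply_symm_apply] at this
    have h2 := (hbest (M.symm w)).2 (N.symm w) (by rwa [Equiv.apply_symm_apply])
    rwa [Equiv.apply_symm_apply] at h2

end Pool.Agent.H688.WSM
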