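import Pool.Graph.R_seed8.H558R2.FL
import Pool.Graph.R_seed8.H670R2.GramPoly

/-!
# Determinants of integer matrices in polynomial time
-/

set_option autoImplicit false

namespace Pool.Agent.H688.WSM

open Matrix Polynomial Finset Pool.Agent.NPC Pool.Agent.H670R2

/-- the coefficients of the adjugate of `X - A` -/
theorem adjc_sum {m : ℕ} (A : Matrix (Fin m) (Fin m) ℝ) (k : ℕ) (hk : k < m) :
    Pool.Agent.H558R2.adjc A (m - 1 - k) =
      ∑ i ∈ Finset.range (k + 1), A.charpoly.coeff (m - (k - i)) • A ^ i := by
  induction k with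
  | zero =>
      rw [Pool.Agent.H558R2.adjc_rec, Pool.Agent.H558R2.adjc_eq_zero A _ (by omega)]
      have h1 : m - 1 - 0 + 1 = m := by omega
      rw [h1]
      simp
  | succ k ih =>
      have e1 : m - 1 - (k + 1) + 1 = m - 1 - k := by omega
      rw [Pool.Agent.H558R2.adjc_rec, e1, ih (by omega), Finset.mul_sum,
        Finset.sum_range_succ' _ (k + 1)]
      congr 1
      · refine Finset.sum_congr rfl fun i _ => ?_
        rw [Matrix.mul_smul, ← pow_succ']
        congr 2
        omega
      · rw [pow_zero]
        congr 2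
        omega

/-- Newton's identities -/
theorem newton_real' {m : ℕ} (A : Matrix (Fin m) (Fin m) ℝ) {k : ℕ} (hk : k + 1 ≤ m) :
    ((k : ℝ) + 1) * A.charpoly.coeff (m - (k + 1)) =
      - ∑ i ∈ Finset.range (k + 1), A.charpoly.coeff (m - (k - i)) * trace (A ^ (i + 1)) := by
  have htop : A.charpoly.coeff m = 1 := by
    have h1 := A.charpoly_monic
    have h2 := A.charpoly_natDegree_eq_dim
    rw [Fintype.card_fin] at h2
    rw [Polynomial.Monic, Polynomial.leadingCoeff, h2] at h1
    exact h1
  rcases Nat.lt_or_ge (k + 1) m with hlt | hge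
  · have h1 := adjc_sum A (k + 1) hlt
    have h2 := Pool.Agent.H558R2.trace_adjc A (m - 1 - (k + 1))
    rw [h1, Finset.sum_range_succ', trace_add, trace_sum] at h2
    have e1 : m - 1 - (k + 1) + 1 = m - (k + 1) := by omega
    have e2 : ((m - 1 - (k + 1) : ℕ) : ℝ) + 1 = (m : ℝ) - ((k : ℝ) + 1) := by
      have : ((m - 1 - (k + 1) : ℕ) : ℝ) + 1 + ((k : ℝ) + 1) = m := by
        have : (m - 1 - (k + 1)) + 1 + (k + 1) = m := by omega
        exact_mod_cast this
      linarith
    rw [e1, e2, pow_zero, trace_smul, trace_one, Fintype.card_fin, Nat.sub_zero, smul_eq_mul] at h2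
    have h3 : ∑ i ∈ Finset.range (k + 1), trace (A.charpoly.coeff (m - (k + 1 - (i + 1))) •
        A ^ (i + 1)) =
        ∑ i ∈ Finset.range (k + 1), A.charpoly.coeff (m - (k - i)) * trace (A ^ (i + 1)) := by
      refine Finset.sum_congr rfl fun i _ => ?_
      rw [trace_smul, smul_eq_mul]
      congr 2
      omega
    rw [h3] at h2
    linarith
  · have hm : k + 1 = m := by omega
    have h0 := Pool.Agent.H558R2.adjc_zero_rec A
    have h1 := adjc_sum A k (by omega)
    rw [show m - 1 - k = 0 by omega] at h1
    rw [h1, Finset.mul_sum] at h0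
    have h2 := congrArg trace h0
    rw [trace_zero, trace_add, trace_sum, trace_smul, trace_one, Fintype.card_fin,
      smul_eq_mul] at h2
    have h3 : ∑ i ∈ Finset.range (k + 1), trace (A * A.charpoly.coeff (m - (k - i)) • A ^ i) =
        ∑ i ∈ Finset.range (k + 1), A.charpoly.coeff (m - (k - i)) * trace (A ^ (i + 1)) := by
      refine Finset.sum_congr rfl fun i _ => ?_
      rw [Matrix.mul_smul, trace_smul, smul_eq_mul, ← pow_succ']
    rw [h3] at h2
    have h4 : m - (k + 1) = 0 := by omega
    have h5 : ((k : ℝ) + 1) = m := by exact_mod_cast hm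
    rw [h4, h5]
    linarith

/-- the same over the integers -/
theorem newton_int' {m : ℕ} (A : Matrix (Fin m) (Fin m) ℤ) {k : ℕ} (hk : k + 1 ≤ m) :
    ((k : ℤ) + 1) * A.charpoly.coeff (m - (k + 1)) =
      - ∑ i ∈ Finset.range (k + 1), A.charpoly.coeff (m - (k - i)) * trace (A ^ (i + 1)) := by
  have h := newton_real' (A.map (Int.castRingHom ℝ)) hk
  rw [Matrix.charpoly_map] at h
  simp only [Polynomial.coeff_map] at h
  have h2 : ∀ i, trace ((A.map (Int.castRingHom ℝ)) ^ i) = ((trace (A ^ i) : ℤ) : ℝ) := by
    intro i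
    have : (A.map (Int.castRingHom ℝ)) ^ i = (A ^ i).map (Int.castRingHom ℝ) := by
      have := map_pow (RingHom.mapMatrix (m := Fin m) (Int.castRingHom ℝ)) A i
      simpa using this.symm
    rw [this]
    simp [Matrix.trace]
  simp only [h2] at h
  have h3 : ((((k : ℤ) + 1) * A.charpoly.coeff (m - (k + 1)) : ℤ) : ℝ) =
      ((- ∑ i ∈ Finset.range (k + 1), A.charpoly.coeff (m - (k - i)) * trace (A ^ (i + 1)) : ℤ)
        : ℝ) := by
    push_cast
    simpa using h
  exact_mod_cast h3

theorem iter_mulG' {m : ℕ} (A : Matrix (Fin m) (Fin m) ℤ) (i : ℕ) :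
    (mulG (toL Aᵀ))^[i] (idL m) = toL (A ^ i) := by
  induction i with
  | zero => simp [idL_eq]
  | succ i ih =>
      rw [Function.iterate_succ_apply', ih, mulG_toL, transpose_transpose, pow_succ]

theorem psL_getD' {m : ℕ} (A : Matrix (Fin m) (Fin m) ℤ) {i : ℕ} (hi : i < m) :
    (psL (toL Aᵀ)).getD i 0 = trace (A ^ (i + 1)) := by
  have hl : (toL Aᵀ).length = m := by simp [toL]
  unfold psL
  rw [List.getD_eq_getElem _ _ (by simpa [hl] using hi)]
  simp only [List.getElem_map, List.getElem_range]
  rw [hl, min_eq_left hi.le, iter_mulG', trG_toL, transpose_transpose, ← pow_succ]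

theorem newton_iter' {m : ℕ} (A : Matrix (Fin m) (Fin m) ℤ) (k : ℕ) (hk : k ≤ m) :
    (newt (psL (toL Aᵀ)))^[k] [1] =
      (List.range (k + 1)).map fun i => A.charpoly.coeff (m - (k - i)) := by
  induction k with
  | zero =>
      have h : A.charpoly.coeff m = 1 := by
        have h1 := A.charpoly_monic
        have h2 := A.charpoly_natDegree_eq_dim
        rw [Fintype.card_fin] at h2
        rw [Polynomial.Monic, Polynomial.leadingCoeff, h2] at h1
        exact h1
      simp [h]
  | succ k ih =>
      rw [Function.iterate_succ_apply', ih (by omega)]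
      unfold newt
      have h1 : dotL ((List.range (k + 1)).map fun i => A.charpoly.coeff (m - (k - i)))
          (psL (toL Aᵀ)) = ∑ i ∈ Finset.range (k + 1),
            A.charpoly.coeff (m - (k - i)) * trace (A ^ (i + 1)) := by
        rw [dotL_eq_sum]
        simp only [List.length_map, List.length_range]
        refine Finset.sum_congr rfl fun i hi => ?_
        rw [Finset.mem_range] at hi
        rw [psL_getD' A (by omega), List.getD_eq_getElem _ _ (by simpa using hi)]
        simp
      have h2 := newton_int' A hk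
      rw [h1, ← h2]
      simp only [List.length_map, List.length_range]
      push_cast
      rw [Int.mul_ediv_cancel_left _ (by omega)]
      rw [List.range_succ_eq_map (n := k + 1), List.map_cons, List.map_map]
      congr 1
      refine List.map_congr_left fun i hi => ?_
      simp only [Function.comp_apply]
      congr 1
      omega

/-- the determinant of the transpose of `-G` -/
def sdetZ (G : List (List ℤ)) : ℤ := ((newt (psL G))^[G.length] [1]).head?.getD 0

/-- the determinant of an integer matrix, given as the list of its rows -/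
def detL (B : List (List ℤ)) : ℤ := sdetZ (B.map fun r => r.map fun x => -x)

theorem sdetZ_toL {m : ℕ} (A : Matrix (Fin m) (Fin m) ℤ) : sdetZ (toL Aᵀ) = (-A).det := by
  have hl : (toL Aᵀ).length = m := by simp [toL]
  unfold sdetZ
  rw [hl, newton_iter' A m le_rfl, List.range_succ_eq_map, List.map_cons]
  simp only [List.head?_cons, Option.getD_some, Nat.sub_zero, Nat.sub_self]
  rw [Matrix.det_neg, Matrix.det_eq_sign_charpoly_coeff, Fintype.card_fin, ← mul_assoc,
    ← mul_pow]
  simp

theorem detL_toL {m : ℕ} (B : Matrix (Fin m) (Fin m) ℤ) : detL (toL B) = B.det := by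
  have h1 : ((toL B).map fun r => r.map fun x => -x) = toL ((-Bᵀ)ᵀ) := by
    unfold toL
    rw [List.map_ofFn]
    congr 1
    funext i
    simp only [Function.comp_apply, List.map_ofFn]
    rfl
  unfold detL
  rw [h1, sdetZ_toL, neg_neg, det_transpose]

end Pool.Agent.H688.WSM

namespace Pool.Agent.NPC.H688

open Pool.Agent.H688.WSM Pool.Agent.H670R2

variable {α : Type} [TEnc α]

theorem poly_sdetZ : Poly sdetZ := by
  have h1 : Poly (fun G : List (List ℤ) => (newt (psL G))^[G.length] [1]) :=
    Pool.Agent.NPC.H670R2.poly_newt (ss := fun G : List (List ℤ) => psL G)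
      (l := fun G => G) Pool.Agent.NPC.H670R2.poly_psL Poly.id
  refine (Poly.head?_getD h1 0).congr fun G => ?_
  unfold sdetZ
  rfl

theorem poly_detL' : Poly detL := by
  have h3 : Poly (fun B : List (List ℤ) => B.map fun r => r.map fun x => -x) := by
    refine Poly.map (F := fun (_ : List (List ℤ)) (r : List ℤ) => r.map fun x => -x) Poly.id ?_
    exact Poly.map (l := fun p : List (List ℤ) × List ℤ => p.2)
      (F := fun (_ : List (List ℤ) × List ℤ) (x : ℤ) => -x)
      (Poly.snd Poly.id) (Poly.ineg (Poly.snd Poly.id))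
  exact Poly.comp (g := sdetZ) poly_sdetZ h3

theorem poly_detL {B : α → List (List ℤ)} (hB : Poly B) : Poly (fun a => detL (B a)) :=
  Poly.comp (g := detL) poly_detL' hB

end Pool.Agent.NPC.H688
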