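import Pool.Agent.H688.WSM.Rand
import Pool.Agent.H688.WSM.Det

/-!
# The algorithm, on lists
-/

set_option autoImplicit false

namespace Pool.Agent.H688.WSM

/-- an entry of a table -/
def at2 (A : List (List ℕ)) (i j : ℕ) : ℕ := (A.getD i []).getD j 0

/-- the input: the ranks given by the men, the ranks given by the women, the random numbers -/
abbrev Inp : Type := List (List ℕ) × List (List ℕ) × List (List ℕ)

/-- the number of men -/
def nI (I : Inp) : ℕ := I.1.length

/-- a key of a man -/
def kaL (n rv v w : ℕ) : ℕ := rv * (n + 1) + (if w = v then 0 else w + 1)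

/-- the refined lists of the men -/
def rSL (I : Inp) (S : List ℕ) (m w : ℕ) : ℕ :=
  match S[m]? with
  | some v => kaL (nI I) (at2 I.1 m w) v w
  | none => at2 I.1 m w

/-- the refined lists of the women -/
def sSL (I : Inp) (S : List ℕ) (w m : ℕ) : ℕ :=
  at2 I.2.1 w m * (nI I + 1) + (blk (nI I) S (w + 1)).idxOf m

/-- the random numbers -/
def xL (I : Inp) (w b : ℕ) : ℤ := (at2 I.2.2 w b : ℤ)

def ddL (I : Inp) (w m : ℕ) : ℤ :=
  ((List.range (nI I)).map fun b => if b = m then 1 else xL I w m - xL I w b).prod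

def ffL (I : Inp) (w m j : ℕ) : ℤ :=
  ((List.range (nI I)).map fun b => if b = m ∨ b = j then 1 else xL I w m - xL I w b).prod

def qnL (I : Inp) (S : List ℕ) (w j m : ℕ) : ℤ :=
  if sSL I S w m < sSL I S w j then ddL I w m
  else if sSL I S w m = sSL I S w j ∧ ¬ m = j then xL I w m * ffL I w m j else 0

/-- the key number `v` of the man `m` -/
def kv (I : Inp) (S : List ℕ) (v m w : ℕ) : ℕ := kaL (nI I) (rSL I S m w) v w

/-- the entry of a list -/
def gt (K : List ℕ) (k : ℕ) : ℕ := K.getD k 0

def entAL (I : Inp) (S K : List ℕ) (v m j : ℕ) : ℤ :=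
  (if j = m then ((List.range (nI I)).map fun k =>
    if kv I S v m (gt K k) < kv I S v m (gt K m) then
      ddL I (gt K k) m - qnL I S (gt K k) k m else ddL I (gt K k) m).prod else 0) -
  (if kv I S v m (gt K m) < kv I S v m (gt K j) then ((List.range (nI I)).map fun k =>
    if kv I S v m (gt K k) < kv I S v m (gt K j) then
      ddL I (gt K k) m - qnL I S (gt K k) k m else
        if k = j then qnL I S (gt K k) k m else ddL I (gt K k) m).prod else 0)

def entL (I : Inp) (S K : List ℕ) (m j : ℕ) : ℤ :=
  ((List.range (nI I)).map fun v => entAL I S K v m j).sum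

def matL (I : Inp) (S K : List ℕ) : List (List ℤ) :=
  (List.range (nI I)).map fun m => (List.range (nI I)).map fun j => entL I S K m j

def DZL (I : Inp) : ℤ :=
  ((List.range (nI I)).map fun m => ((List.range (nI I)).map fun w => ddL I w m).prod).prod

def FZL (I : Inp) (L : List (List ℕ)) (S : List ℕ) : ℤ :=
  (L.map fun K => detL (matL I S K)).sum -
    ((List.range (nI I)).map fun _ => (nI I : ℤ)).prod * DZL I

/-- the first test -/
def T1R (I : Inp) (L : List (List ℕ)) (S : List ℕ) : Bool :=
  Val (nI I) (nI I * (nI I + 1)) S && !(decide (FZL I L S = 0))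

/-- the allowed pairs -/
def alwL (I : Inp) (K : List ℕ) (b w : ℕ) : Bool :=
  decide (w = gt K b) || ((decide (at2 I.2.1 w (K.idxOf w) ≤ at2 I.2.1 w b) &&
    decide (at2 I.1 b w ≤ at2 I.1 b (gt K b))) &&
    (List.range (nI I)).all fun m => !(decide (at2 I.2.1 w m < at2 I.2.1 w b) &&
      decide (at2 I.1 m w < at2 I.1 m (gt K m))))

def alL (I : Inp) (K C : List ℕ) (b w : ℕ) : Bool :=
  alwL I K b w && (C[b]?).toList.all fun v => decide (v = w)

def mat2 (I : Inp) (K C : List ℕ) : List (List ℤ) :=
  (List.range (nI I)).map fun b => (List.range (nI I)).map fun w =>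
    if alL I K C b w = true then xL I b w else 0

def mat3 (I : Inp) (K C M : List ℕ) : List (List ℤ) :=
  (List.range (nI I)).map fun b => (List.range (nI I)).map fun w =>
    if alL I K C b w = true ∧ gt M b = w then xL I b w else 0

def F2L (I : Inp) (L : List (List ℕ)) (K C : List ℕ) : ℤ :=
  detL (mat2 I K C) - (L.map fun M => detL (mat3 I K C M)).sum

/-- the second test -/
def T2R (I : Inp) (L : List (List ℕ)) (K C : List ℕ) : Bool :=
  Val (nI I) (nI I * (nI I + 1)) C && !(decide (F2L I L K C = 0))

/-! ### deferred acceptance -/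

def aL (I : Inp) (S : List ℕ) (m w : ℕ) : ℕ := kaL (nI I) (rSL I S m w) 0 w

def bL (I : Inp) (S : List ℕ) (w m : ℕ) : ℕ := sSL I S w m * (nI I + 1) + m

/-- `m` is the best available man for `w` -/
def bestL (I : Inp) (S : List ℕ) (U : List (ℕ × ℕ)) (w m : ℕ) : Bool :=
  decide ((m, w) ∈ U) && (List.range (nI I)).all fun m' =>
    !(decide ((m', w) ∈ U)) || decide (bL I S w m ≤ bL I S w m')

/-- `w'` is a better proposal for the man `m` than `w` -/
def betL (I : Inp) (S : List ℕ) (U : List (ℕ × ℕ)) (m w w' : ℕ) : Bool :=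
  bestL I S U w' m && decide (aL I S m w' < aL I S m w)

/-- some proposal for the man `m` is better than `w` -/
def abet (I : Inp) (S : List ℕ) (U : List (ℕ × ℕ)) (m w : ℕ) : Bool :=
  (List.range (nI I)).any fun w' => betL I S U m w w'

/-- one round -/
def stpL (I : Inp) (S : List ℕ) (U : List (ℕ × ℕ)) : List (ℕ × ℕ) :=
  U.filter fun x => !(abet I S U x.1 x.2)

/-- all pairs -/
def U0 (n : ℕ) : List (ℕ × ℕ) := (List.range n).flatMap fun m => (List.range n).map fun w => (m, w)

/-- the available pairs in the end -/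
def avL (I : Inp) (S : List ℕ) : List (ℕ × ℕ) := (stpL I S)^[nI I * nI I] (U0 (nI I))

/-- the matching of the refined instance `S` -/
def gsL (I : Inp) (S : List ℕ) : List ℕ :=
  (List.range (nI I)).map fun m =>
    (((List.range (nI I)).filter fun w => bestL I S (avL I S) w m).head?).getD 0

/-- the algorithm: it lists at most `K` matchings, where `K` is the length of the second part of
the input -/
def alg (x : Inp × List Unit) : List (List ℕ) :=
  (ext (nI x.1) (gsL x.1) (T1R x.1) (T2R x.1))^[x.2.length] []

end Pool.Agent.H688.WSM
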