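import Pool.Graph.R_seed8.H687R2.IntPoly

/-!
# More polynomial-time functions
-/

set_option autoImplicit false
set_option linter.unusedSectionVars false

namespace Pool.Agent.NPC.H688

open Pool.Agent.NPC

variable {α β γ : Type} [TEnc α] [TEnc β] [TEnc γ]

theorem natAbs_prod_lt (l : List ℤ) : (l.foldr (fun x s => x * s) 1).natAbs < 2 ^ sz l := by
  induction l with
  | nil => simp
  | cons x l ih =>
    rw [List.foldr_cons, sz_list_cons, Int.natAbs_mul]
    have h1 := size_natAbs_le_sz x
    have h2 := Nat.lt_size_self x.natAbs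
    have h3 : x.natAbs < 2 ^ sz x := lt_of_lt_of_le h2 (Nat.pow_le_pow_right (by norm_num)
      (by omega))
    calc _ < 2 ^ sz x * 2 ^ sz l := Nat.mul_lt_mul'' h3 ih
      _ = 2 ^ (sz x + sz l) := by rw [pow_add]
      _ ≤ _ := Nat.pow_le_pow_right (by norm_num) (by omega)

/-- Products of lists of integers. -/
theorem iprod {l : α → List ℤ} (hl : Poly l) : Poly (fun a => (l a).prod) := by
  obtain ⟨r, hr⟩ := hl.sz_le
  refine (Poly.foldr (s := fun _ => (1 : ℤ)) (F := fun _ x s => x * s) hl (Poly.const 1)
    (Poly.imul (Poly.fst (Poly.snd Poly.id)) (Poly.snd (Poly.snd Poly.id)))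
    (Polynomial.C 4 * r + Polynomial.C 5) ?_).congr fun a => ?_
  · intro a k hk
    have h1 := sz_int_le (((l a).drop k).foldr (fun x s => x * s) 1)
    have h2 := Nat.size_le.2 (natAbs_prod_lt ((l a).drop k))
    have h3 := Poly.sz_drop_le (l a) k
    have h4 := hr a
    simp only [Polynomial.eval_add, Polynomial.eval_mul, Polynomial.eval_C]
    omega
  · rfl

theorem toList {o : α → Option β} (ho : Poly o) : Poly (fun a => (o a).toList) :=
  (Poly.optCases (g := fun _ => []) (h := fun _ b => [b]) ho (Poly.const [])
    (Poly.cons (Poly.snd Poly.id) (Poly.const []))).congr fun a => by cases o a <;> rfl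

theorem take_drop_eq (l : List β) (k n : ℕ) :
    (l.drop k).take n = (List.range n).flatMap fun t => (l[k + t]?).toList := by
  induction n with
  | zero => simp
  | succ n ih =>
      rw [List.take_add_one, ih, List.range_succ, List.flatMap_append, List.getElem?_drop]
      simp

/-- segments of lists -/
theorem takeDrop {l : α → List β} {k n : α → ℕ} (hl : Poly l) (hk : Poly k) (hn : UPoly n) :
    Poly (fun a => ((l a).drop (k a)).take (n a)) := by
  refine (Poly.flatMap (F := fun a t => ((l a)[k a + t]?).toList) hn.range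
    (toList (Poly.getElem? (hl.comp (Poly.fst Poly.id))
      (Poly.add (hk.comp (Poly.fst Poly.id)) (Poly.snd Poly.id))))).congr fun a => ?_
  rw [take_drop_eq]

theorem drop {l : α → List β} {k : α → ℕ} (hl : Poly l) (hk : Poly k) :
    Poly (fun a => (l a).drop (k a)) := by
  refine (takeDrop hl hk (UPoly.length hl)).congr fun a => ?_
  rw [List.take_of_length_le]
  rw [List.length_drop]
  omega

theorem idxOf_eq (x : ℕ) (l : List ℕ) (k : ℕ) :
    (((l.zipIdx k).filter fun p => decide (p.1 = x)).head?.map fun p => p.2).getD (k + l.length) =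
      k + l.idxOf x := by
  induction l generalizing k with
  | nil => simp
  | cons a l ih =>
      rw [List.zipIdx_cons, List.filter_cons]
      by_cases h : a = x
      · subst h
        simp
      · have h2 := ih (k + 1)
        rw [if_neg (by simpa using h), List.idxOf_cons_ne _ h]
        have h3 : k + (a :: l).length = k + 1 + l.length := by simp; omega
        rw [h3, h2]
        omega

/-- the first position of a number in a list -/
theorem idxOf {l : α → List ℕ} {x : α → ℕ} (hl : Poly l) (hx : Poly x) :
    Poly (fun a => (l a).idxOf (x a)) := by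
  have h1 : Poly (fun a => ((l a).zipIdx.filter (fun p => decide (p.1 = x a))).head?) :=
    Poly.head? (Poly.filter (p := fun a (p : ℕ × ℕ) => decide (p.1 = x a)) (Poly.zipIdx hl)
      (Poly.decide_eq (Poly.fst (Poly.snd Poly.id)) (hx.comp (Poly.fst Poly.id))))
  refine (Poly.optCases (g := fun a => (l a).length) (h := fun _ (b : ℕ × ℕ) => b.2) h1
    (Poly.length hl) (Poly.snd (Poly.snd Poly.id))).congr fun a => ?_
  have h2 := idxOf_eq (x a) (l a) 0
  rw [Nat.zero_add, Nat.zero_add] at h2
  rw [← h2]
  cases ((l a).zipIdx.filter (fun p => decide (p.1 = x a))).head? <;> rfl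

/-- products over ranges -/
theorem prodRange {n : α → ℕ} {F : α → ℕ → ℤ} (hn : UPoly n)
    (hF : Poly (fun p : α × ℕ => F p.1 p.2)) :
    Poly (fun a => ((List.range (n a)).map (F a)).prod) :=
  iprod (Poly.map hn.range hF)

/-- sums over ranges -/
theorem sumRange {n : α → ℕ} {F : α → ℕ → ℤ} (hn : UPoly n)
    (hF : Poly (fun p : α × ℕ => F p.1 p.2)) :
    Poly (fun a => ((List.range (n a)).map (F a)).sum) :=
  Poly.isum (Poly.map hn.range hF)

end Pool.Agent.NPC.H688
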