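import Pool.Agent.H688.WSM.Alg
import Pool.Agent.H688.WSM.Kit

/-!
# The algorithm runs in polynomial time
-/

set_option autoImplicit false
set_option linter.unusedSectionVars false

namespace Pool.Agent.NPC.H688

open Pool.Agent.NPC Pool.Agent.H688.WSM

variable {α : Type} [TEnc α]

section

variable {I : α → Inp} {S K C : α → List ℕ} {m w j b v k : α → ℕ}

theorem u_nI (hI : Poly I) : UPoly (fun a => nI (I a)) := UPoly.length (Poly.fst hI)

theorem p_nI (hI : Poly I) : Poly (fun a => nI (I a)) := (u_nI hI).toPoly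

theorem p_at2 {A : α → List (List ℕ)} (hA : Poly A) (hm : Poly m) (hw : Poly w) :
    Poly (fun a => at2 (A a) (m a) (w a)) :=
  Poly.getD (Poly.getD hA hm (Poly.const [])) hw (Poly.const 0)

theorem p_gt (hK : Poly K) (hk : Poly k) : Poly (fun a => gt (K a) (k a)) :=
  Poly.getD hK hk (Poly.const 0)

theorem p_kaL {n rv : α → ℕ} (hn : Poly n) (hrv : Poly rv) (hv : Poly v) (hw : Poly w) :
    Poly (fun a => kaL (n a) (rv a) (v a) (w a)) := by
  unfold kaL
  exact Poly.add (Poly.mul hrv (Poly.succ hn))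
    (Poly.ite (Poly.decide_eq hw hv) (Poly.const 0) (Poly.succ hw))

theorem p_blk {n i : α → ℕ} (hn : UPoly n) (hS : Poly S) (hi : Poly i) :
    Poly (fun a => blk (n a) (S a) (i a)) := takeDrop hS (Poly.mul hi hn.toPoly) hn

theorem p_rSL (hI : Poly I) (hS : Poly S) (hm : Poly m) (hw : Poly w) :
    Poly (fun a => rSL (I a) (S a) (m a) (w a)) := by
  have hr : Poly (fun a => at2 (I a).1 (m a) (w a)) := p_at2 (Poly.fst hI) hm hw
  refine (Poly.optCases (g := fun a => at2 (I a).1 (m a) (w a))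
    (h := fun a v => kaL (nI (I a)) (at2 (I a).1 (m a) (w a)) v (w a))
    (Poly.getElem? hS hm) hr ?_).congr fun a => ?_
  · exact p_kaL ((p_nI hI).comp (Poly.fst Poly.id)) (hr.comp (Poly.fst Poly.id))
      (Poly.snd Poly.id) (hw.comp (Poly.fst Poly.id))
  · unfold rSL
    cases (S a)[m a]? <;> rfl

theorem p_sSL (hI : Poly I) (hS : Poly S) (hw : Poly w) (hm : Poly m) :
    Poly (fun a => sSL (I a) (S a) (w a) (m a)) := by
  unfold sSL
  exact Poly.add (Poly.mul (p_at2 (Poly.fst (Poly.snd hI)) hw hm) (Poly.succ (p_nI hI)))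
    (idxOf (p_blk (u_nI hI) hS (Poly.succ hw)) hm)

theorem p_xL (hI : Poly I) (hw : Poly w) (hb : Poly b) :
    Poly (fun a => xL (I a) (w a) (b a)) :=
  Poly.natCast (p_at2 (Poly.snd (Poly.snd hI)) hw hb)

theorem p_ddL (hI : Poly I) (hw : Poly w) (hm : Poly m) :
    Poly (fun a => ddL (I a) (w a) (m a)) := by
  unfold ddL
  refine prodRange (F := fun a b => if b = m a then 1 else xL (I a) (w a) (m a) - xL (I a) (w a) b)
    (u_nI hI) ?_
  refine Poly.ite (p := fun q : α × ℕ => q.2 = m q.1) (Poly.decide_eq (Poly.snd Poly.id)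
    (hm.comp (Poly.fst Poly.id))) (Poly.const _) ?_
  exact Poly.isub (p_xL (hI.comp (Poly.fst Poly.id)) (hw.comp (Poly.fst Poly.id))
    (hm.comp (Poly.fst Poly.id)))
    (p_xL (hI.comp (Poly.fst Poly.id)) (hw.comp (Poly.fst Poly.id)) (Poly.snd Poly.id))

theorem p_ffL (hI : Poly I) (hw : Poly w) (hm : Poly m) (hj : Poly j) :
    Poly (fun a => ffL (I a) (w a) (m a) (j a)) := by
  unfold ffL
  refine prodRange (F := fun a b => if b = m a ∨ b = j a then 1 else
    xL (I a) (w a) (m a) - xL (I a) (w a) b) (u_nI hI) ?_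
  refine Poly.ite (p := fun q : α × ℕ => q.2 = m q.1 ∨ q.2 = j q.1)
    (Poly.decide_or (Poly.decide_eq (Poly.snd Poly.id)
    (hm.comp (Poly.fst Poly.id))) (Poly.decide_eq (Poly.snd Poly.id)
    (hj.comp (Poly.fst Poly.id)))) (Poly.const _) ?_
  exact Poly.isub (p_xL (hI.comp (Poly.fst Poly.id)) (hw.comp (Poly.fst Poly.id))
    (hm.comp (Poly.fst Poly.id)))
    (p_xL (hI.comp (Poly.fst Poly.id)) (hw.comp (Poly.fst Poly.id)) (Poly.snd Poly.id))

theorem p_qnL (hI : Poly I) (hS : Poly S) (hw : Poly w) (hj : Poly j) (hm : Poly m) :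
    Poly (fun a => qnL (I a) (S a) (w a) (j a) (m a)) := by
  unfold qnL
  have h1 := p_sSL hI hS hw hm
  have h2 := p_sSL hI hS hw hj
  refine Poly.ite (Poly.decide_lt h1 h2) (p_ddL hI hw hm) ?_
  refine Poly.ite (Poly.decide_and (Poly.decide_eq h1 h2) (Poly.decide_not (Poly.decide_eq hm hj)))
    ?_ (Poly.const _)
  exact Poly.imul (p_xL hI hw hm) (p_ffL hI hw hm hj)

theorem p_kv (hI : Poly I) (hS : Poly S) (hv : Poly v) (hm : Poly m) (hw : Poly w) :
    Poly (fun a => kv (I a) (S a) (v a) (m a) (w a)) := by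
  unfold kv
  exact p_kaL (p_nI hI) (p_rSL hI hS hm hw) hv hw

theorem p_entAL (hI : Poly I) (hS : Poly S) (hK : Poly K) (hv : Poly v) (hm : Poly m)
    (hj : Poly j) : Poly (fun a => entAL (I a) (S a) (K a) (v a) (m a) (j a)) := by
  have f1 : ∀ {β : Type} [TEnc β] {f : α → β}, Poly f → Poly (fun q : α × ℕ => f q.1) :=
    fun hf => hf.comp (Poly.fst Poly.id)
  have f2 : Poly (fun q : α × ℕ => q.2) := Poly.snd Poly.id
  have hgk : Poly (fun q : α × ℕ => gt (K q.1) q.2) := p_gt (f1 hK) f2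
  have hdd : Poly (fun q : α × ℕ => ddL (I q.1) (gt (K q.1) q.2) (m q.1)) :=
    p_ddL (f1 hI) hgk (f1 hm)
  have hqn : Poly (fun q : α × ℕ => qnL (I q.1) (S q.1) (gt (K q.1) q.2) q.2 (m q.1)) :=
    p_qnL (f1 hI) (f1 hS) hgk f2 (f1 hm)
  have hk1 : Poly (fun q : α × ℕ => kv (I q.1) (S q.1) (v q.1) (m q.1) (gt (K q.1) q.2)) :=
    p_kv (f1 hI) (f1 hS) (f1 hv) (f1 hm) hgk
  have hkm : Poly (fun a => kv (I a) (S a) (v a) (m a) (gt (K a) (m a))) :=
    p_kv hI hS hv hm (p_gt hK hm)
  have hkj : Poly (fun a => kv (I a) (S a) (v a) (m a) (gt (K a) (j a))) :=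
    p_kv hI hS hv hm (p_gt hK hj)
  unfold entAL
  refine Poly.isub (Poly.ite (Poly.decide_eq hj hm) ?_ (Poly.const _))
    (Poly.ite (Poly.decide_lt hkm hkj) ?_ (Poly.const _))
  · refine prodRange (F := fun a k => if kv (I a) (S a) (v a) (m a) (gt (K a) k) <
      kv (I a) (S a) (v a) (m a) (gt (K a) (m a)) then ddL (I a) (gt (K a) k) (m a) -
        qnL (I a) (S a) (gt (K a) k) k (m a) else ddL (I a) (gt (K a) k) (m a)) (u_nI hI) ?_
    exact Poly.ite (p := fun q : α × ℕ => kv (I q.1) (S q.1) (v q.1) (m q.1) (gt (K q.1) q.2) <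
      kv (I q.1) (S q.1) (v q.1) (m q.1) (gt (K q.1) (m q.1)))
      (Poly.decide_lt hk1 (f1 hkm)) (Poly.isub hdd hqn) hdd
  · refine prodRange (F := fun a k => if kv (I a) (S a) (v a) (m a) (gt (K a) k) <
      kv (I a) (S a) (v a) (m a) (gt (K a) (j a)) then ddL (I a) (gt (K a) k) (m a) -
        qnL (I a) (S a) (gt (K a) k) k (m a) else
          if k = j a then qnL (I a) (S a) (gt (K a) k) k (m a) else
            ddL (I a) (gt (K a) k) (m a)) (u_nI hI) ?_
    exact Poly.ite (p := fun q : α × ℕ => kv (I q.1) (S q.1) (v q.1) (m q.1) (gt (K q.1) q.2) <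
      kv (I q.1) (S q.1) (v q.1) (m q.1) (gt (K q.1) (j q.1)))
      (Poly.decide_lt hk1 (f1 hkj)) (Poly.isub hdd hqn)
      (Poly.ite (p := fun q : α × ℕ => q.2 = j q.1) (Poly.decide_eq f2 (f1 hj)) hqn hdd)

theorem p_entL (hI : Poly I) (hS : Poly S) (hK : Poly K) (hm : Poly m) (hj : Poly j) :
    Poly (fun a => entL (I a) (S a) (K a) (m a) (j a)) := by
  unfold entL
  refine sumRange (F := fun a v => entAL (I a) (S a) (K a) v (m a) (j a)) (u_nI hI) ?_
  exact p_entAL (hI.comp (Poly.fst Poly.id)) (hS.comp (Poly.fst Poly.id))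
    (hK.comp (Poly.fst Poly.id)) (Poly.snd Poly.id) (hm.comp (Poly.fst Poly.id))
    (hj.comp (Poly.fst Poly.id))

theorem p_matL (hI : Poly I) (hS : Poly S) (hK : Poly K) :
    Poly (fun a => matL (I a) (S a) (K a)) := by
  unfold matL
  refine Poly.map (F := fun a m => (List.range (nI (I a))).map fun j =>
    entL (I a) (S a) (K a) m j) (u_nI hI).range ?_
  refine Poly.map (l := fun q : α × ℕ => List.range (nI (I q.1)))
    (F := fun (q : α × ℕ) j => entL (I q.1) (S q.1) (K q.1) q.2 j)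
    ((u_nI hI).comp (Poly.fst Poly.id)).range ?_
  have g : Poly (fun p : (α × ℕ) × ℕ => p.1.1) := Poly.fst (Poly.fst Poly.id)
  exact p_entL (hI.comp g) (hS.comp g) (hK.comp g) (Poly.snd (Poly.fst Poly.id))
    (Poly.snd Poly.id)

theorem p_DZL (hI : Poly I) : Poly (fun a => DZL (I a)) := by
  unfold DZL
  refine prodRange (F := fun a m => ((List.range (nI (I a))).map fun w => ddL (I a) w m).prod)
    (u_nI hI) ?_
  refine prodRange (n := fun q : α × ℕ => nI (I q.1)) (F := fun (q : α × ℕ) w => ddL (I q.1) w q.2)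
    ((u_nI hI).comp (Poly.fst Poly.id)) ?_
  have g : Poly (fun p : (α × ℕ) × ℕ => p.1.1) := Poly.fst (Poly.fst Poly.id)
  exact p_ddL (hI.comp g) (Poly.snd Poly.id) (Poly.snd (Poly.fst Poly.id))

theorem p_FZL {L : α → List (List ℕ)} (hI : Poly I) (hL : Poly L) (hS : Poly S) :
    Poly (fun a => FZL (I a) (L a) (S a)) := by
  unfold FZL
  refine Poly.isub (Poly.isum (Poly.map (F := fun a K => detL (matL (I a) (S a) K)) hL ?_))
    (Poly.imul ?_ (p_DZL hI))
  · exact poly_detL (B := fun q : α × List ℕ => matL (I q.1) (S q.1) q.2)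
      (p_matL (hI.comp (Poly.fst Poly.id)) (hS.comp (Poly.fst Poly.id)) (Poly.snd Poly.id))
  · exact prodRange (F := fun a _ => (nI (I a) : ℤ)) (u_nI hI)
      (Poly.natCast ((p_nI hI).comp (Poly.fst Poly.id)))

theorem p_Val {n D : α → ℕ} (hn : Poly n) (hD : Poly D) (hS : Poly S) :
    Poly (fun a => Val (n a) (D a) (S a)) := by
  unfold Val
  exact Poly.and (Poly.decide_le (Poly.length hS) hD)
    (Poly.all (p := fun a c => decide (c < n a)) hS
      (Poly.decide_lt (Poly.snd Poly.id) (hn.comp (Poly.fst Poly.id))))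

theorem p_T1R {L : α → List (List ℕ)} (hI : Poly I) (hL : Poly L) (hS : Poly S) :
    Poly (fun a => T1R (I a) (L a) (S a)) := by
  unfold T1R
  exact Poly.and (p_Val (p_nI hI) (Poly.mul (p_nI hI) (Poly.succ (p_nI hI))) hS)
    (Poly.not (Poly.decide_eq (p_FZL hI hL hS) (Poly.const 0)))

theorem p_alwL (hI : Poly I) (hK : Poly K) (hb : Poly b) (hw : Poly w) :
    Poly (fun a => alwL (I a) (K a) (b a) (w a)) := by
  have f1 : ∀ {β : Type} [TEnc β] {f : α → β}, Poly f → Poly (fun q : α × ℕ => f q.1) :=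
    fun hf => hf.comp (Poly.fst Poly.id)
  have f2 : Poly (fun q : α × ℕ => q.2) := Poly.snd Poly.id
  unfold alwL
  refine Poly.or (Poly.decide_eq hw (p_gt hK hb)) (Poly.and (Poly.and
    (Poly.decide_le (p_at2 (Poly.fst (Poly.snd hI)) hw (idxOf hK hw))
      (p_at2 (Poly.fst (Poly.snd hI)) hw hb))
    (Poly.decide_le (p_at2 (Poly.fst hI) hb hw) (p_at2 (Poly.fst hI) hb (p_gt hK hb))))
    (Poly.all (p := fun a m => !(decide (at2 (I a).2.1 (w a) m < at2 (I a).2.1 (w a) (b a)) &&
      decide (at2 (I a).1 m (w a) < at2 (I a).1 m (gt (K a) m)))) (u_nI hI).range ?_))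
  have g1 : Poly (fun q : α × ℕ => (I q.1).2.1) := Poly.fst (Poly.snd (f1 hI))
  have g2 : Poly (fun q : α × ℕ => (I q.1).1) := Poly.fst (f1 hI)
  exact Poly.not (Poly.and (Poly.decide_lt (p_at2 g1 (f1 hw) f2) (p_at2 g1 (f1 hw) (f1 hb)))
    (Poly.decide_lt (p_at2 g2 f2 (f1 hw)) (p_at2 g2 f2 (p_gt (f1 hK) f2))))

theorem p_alL (hI : Poly I) (hK : Poly K) (hC : Poly C) (hb : Poly b) (hw : Poly w) :
    Poly (fun a => alL (I a) (K a) (C a) (b a) (w a)) := by
  unfold alL
  exact Poly.and (p_alwL hI hK hb hw) (Poly.all (p := fun a v => decide (v = w a))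
    (toList (Poly.getElem? hC hb)) (Poly.decide_eq (Poly.snd Poly.id)
      (hw.comp (Poly.fst Poly.id))))

theorem p_mat2 (hI : Poly I) (hK : Poly K) (hC : Poly C) :
    Poly (fun a => mat2 (I a) (K a) (C a)) := by
  unfold mat2
  refine Poly.map (F := fun a b => (List.range (nI (I a))).map fun w =>
    if alL (I a) (K a) (C a) b w = true then xL (I a) b w else 0) (u_nI hI).range ?_
  refine Poly.map (l := fun q : α × ℕ => List.range (nI (I q.1)))
    (F := fun (q : α × ℕ) w => if alL (I q.1) (K q.1) (C q.1) q.2 w = true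
      then xL (I q.1) q.2 w else 0) ((u_nI hI).comp (Poly.fst Poly.id)).range ?_
  have g : Poly (fun p : (α × ℕ) × ℕ => p.1.1) := Poly.fst (Poly.fst Poly.id)
  have g1 : Poly (fun p : (α × ℕ) × ℕ => p.1.2) := Poly.snd (Poly.fst Poly.id)
  have g2 : Poly (fun p : (α × ℕ) × ℕ => p.2) := Poly.snd Poly.id
  exact Poly.ite (p := fun p : (α × ℕ) × ℕ => alL (I p.1.1) (K p.1.1) (C p.1.1) p.1.2 p.2 = true)
    (Poly.decide_bool (p_alL (hI.comp g) (hK.comp g) (hC.comp g) g1 g2))
    (p_xL (hI.comp g) g1 g2) (Poly.const _)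

theorem p_mat3 {M : α → List ℕ} (hI : Poly I) (hK : Poly K) (hC : Poly C) (hM : Poly M) :
    Poly (fun a => mat3 (I a) (K a) (C a) (M a)) := by
  unfold mat3
  refine Poly.map (F := fun a b => (List.range (nI (I a))).map fun w =>
    if alL (I a) (K a) (C a) b w = true ∧ gt (M a) b = w then xL (I a) b w else 0)
    (u_nI hI).range ?_
  refine Poly.map (l := fun q : α × ℕ => List.range (nI (I q.1)))
    (F := fun (q : α × ℕ) w => if alL (I q.1) (K q.1) (C q.1) q.2 w = true ∧ gt (M q.1) q.2 = w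
      then xL (I q.1) q.2 w else 0) ((u_nI hI).comp (Poly.fst Poly.id)).range ?_
  have g : Poly (fun p : (α × ℕ) × ℕ => p.1.1) := Poly.fst (Poly.fst Poly.id)
  have g1 : Poly (fun p : (α × ℕ) × ℕ => p.1.2) := Poly.snd (Poly.fst Poly.id)
  have g2 : Poly (fun p : (α × ℕ) × ℕ => p.2) := Poly.snd Poly.id
  exact Poly.ite (p := fun p : (α × ℕ) × ℕ => alL (I p.1.1) (K p.1.1) (C p.1.1) p.1.2 p.2 = true ∧
      gt (M p.1.1) p.1.2 = p.2)
    (Poly.decide_and (Poly.decide_bool (p_alL (hI.comp g) (hK.comp g) (hC.comp g) g1 g2))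
      (Poly.decide_eq (p_gt (hM.comp g) g1) g2))
    (p_xL (hI.comp g) g1 g2) (Poly.const _)

theorem p_F2L {L : α → List (List ℕ)} (hI : Poly I) (hL : Poly L) (hK : Poly K) (hC : Poly C) :
    Poly (fun a => F2L (I a) (L a) (K a) (C a)) := by
  unfold F2L
  refine Poly.isub (poly_detL (p_mat2 hI hK hC)) (Poly.isum
    (Poly.map (F := fun a M => detL (mat3 (I a) (K a) (C a) M)) hL ?_))
  exact poly_detL (B := fun q : α × List ℕ => mat3 (I q.1) (K q.1) (C q.1) q.2)
    (p_mat3 (hI.comp (Poly.fst Poly.id)) (hK.comp (Poly.fst Poly.id))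
      (hC.comp (Poly.fst Poly.id)) (Poly.snd Poly.id))

theorem p_T2R {L : α → List (List ℕ)} (hI : Poly I) (hL : Poly L) (hK : Poly K) (hC : Poly C) :
    Poly (fun a => T2R (I a) (L a) (K a) (C a)) := by
  unfold T2R
  exact Poly.and (p_Val (p_nI hI) (Poly.mul (p_nI hI) (Poly.succ (p_nI hI))) hC)
    (Poly.not (Poly.decide_eq (p_F2L hI hL hK hC) (Poly.const 0)))

/-! ### deferred acceptance -/

theorem p_aL (hI : Poly I) (hS : Poly S) (hm : Poly m) (hw : Poly w) :
    Poly (fun a => aL (I a) (S a) (m a) (w a)) := by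
  unfold aL
  exact p_kaL (p_nI hI) (p_rSL hI hS hm hw) (Poly.const 0) hw

theorem p_bL (hI : Poly I) (hS : Poly S) (hw : Poly w) (hm : Poly m) :
    Poly (fun a => bL (I a) (S a) (w a) (m a)) := by
  unfold bL
  exact Poly.add (Poly.mul (p_sSL hI hS hw hm) (Poly.succ (p_nI hI))) hm

theorem p_mem {U : α → List (ℕ × ℕ)} (hU : Poly U) (hm : Poly m) (hw : Poly w) :
    Poly (fun a => decide ((m a, w a) ∈ U a)) :=
  (Poly.decide_mem (Poly.pair hm hw) hU).congr fun _ => decide_eq_decide.2 Iff.rfl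

theorem p_bestL {U : α → List (ℕ × ℕ)} (hI : Poly I) (hS : Poly S) (hU : Poly U) (hw : Poly w)
    (hm : Poly m) : Poly (fun a => bestL (I a) (S a) (U a) (w a) (m a)) := by
  have f1 : ∀ {β : Type} [TEnc β] {f : α → β}, Poly f → Poly (fun q : α × ℕ => f q.1) :=
    fun hf => hf.comp (Poly.fst Poly.id)
  have f2 : Poly (fun q : α × ℕ => q.2) := Poly.snd Poly.id
  unfold bestL
  refine Poly.and (p_mem hU hm hw) (Poly.all (p := fun a m' =>
    !(decide ((m', w a) ∈ U a)) || decide (bL (I a) (S a) (w a) (m a) ≤ bL (I a) (S a) (w a) m'))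
    (u_nI hI).range ?_)
  exact Poly.or (Poly.not (p_mem (f1 hU) f2 (f1 hw)))
    (Poly.decide_le (f1 (p_bL hI hS hw hm)) (p_bL (f1 hI) (f1 hS) (f1 hw) f2))

theorem p_betL {U : α → List (ℕ × ℕ)} (hI : Poly I) (hS : Poly S) (hU : Poly U) (hm : Poly m)
    (hw : Poly w) (hj : Poly j) : Poly (fun a => betL (I a) (S a) (U a) (m a) (w a) (j a)) := by
  unfold betL
  exact Poly.and (p_bestL hI hS hU hj hm) (Poly.decide_lt (p_aL hI hS hm hj) (p_aL hI hS hm hw))

theorem p_abet {U : α → List (ℕ × ℕ)} (hI : Poly I) (hS : Poly S) (hU : Poly U) (hm : Poly m)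
    (hw : Poly w) : Poly (fun a => abet (I a) (S a) (U a) (m a) (w a)) := by
  have f1 : ∀ {β : Type} [TEnc β] {f : α → β}, Poly f → Poly (fun q : α × ℕ => f q.1) :=
    fun hf => hf.comp (Poly.fst Poly.id)
  unfold abet
  exact Poly.any (p := fun a w' => betL (I a) (S a) (U a) (m a) (w a) w') (u_nI hI).range
    (p_betL (f1 hI) (f1 hS) (f1 hU) (f1 hm) (f1 hw) (Poly.snd Poly.id))

theorem p_abet' {U : α → List (ℕ × ℕ)} (hI : Poly I) (hS : Poly S) (hU : Poly U) :
    Poly (fun q : α × (ℕ × ℕ) => !(abet (I q.1) (S q.1) (U q.1) q.2.1 q.2.2)) := by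
  have g : Poly (fun q : α × (ℕ × ℕ) => q.1) := Poly.fst Poly.id
  have g1 : Poly (fun q : α × (ℕ × ℕ) => q.2.1) := Poly.fst (Poly.snd Poly.id)
  have g2 : Poly (fun q : α × (ℕ × ℕ) => q.2.2) := Poly.snd (Poly.snd Poly.id)
  have h1 := p_abet (I := fun q : α × (ℕ × ℕ) => I q.1) (S := fun q : α × (ℕ × ℕ) => S q.1)
    (U := fun q : α × (ℕ × ℕ) => U q.1) (hI.comp g) (hS.comp g) (hU.comp g) g1 g2
  exact Poly.not h1

theorem p_stpL {U : α → List (ℕ × ℕ)} (hI : Poly I) (hS : Poly S) (hU : Poly U) :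
    Poly (fun a => stpL (I a) (S a) (U a)) := by
  have h := Poly.filter (l := U) (p := fun a (x : ℕ × ℕ) => !(abet (I a) (S a) (U a) x.1 x.2)) hU
    (p_abet' hI hS hU)
  exact h

theorem p_U0 {n : α → ℕ} (hn : UPoly n) : Poly (fun a => U0 (n a)) := by
  unfold U0
  refine Poly.flatMap (F := fun a m => (List.range (n a)).map fun w => (m, w)) hn.range ?_
  exact Poly.map (l := fun q : α × ℕ => List.range (n q.1)) (F := fun (q : α × ℕ) w => (q.2, w))
    (hn.comp (Poly.fst Poly.id)).range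
    (Poly.pair (Poly.snd (Poly.fst Poly.id)) (Poly.snd Poly.id))

theorem sz_filter_le {β : Type} [TEnc β] (p : β → Bool) (l : List β) : sz (l.filter p) ≤ sz l := by
  induction l with
  | nil => simp
  | cons b l ih =>
      rw [List.filter_cons]
      split_ifs
      · simp only [sz_list_cons]; omega
      · simp only [sz_list_cons]; omega

theorem p_avL (hI : Poly I) (hS : Poly S) : Poly (fun a => avL (I a) (S a)) := by
  unfold avL
  have h0 : Poly (fun a => U0 (nI (I a))) := p_U0 (u_nI hI)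
  obtain ⟨q, hq⟩ := h0.sz_le
  refine (Poly.iterLen (l := fun a => List.replicate (nI (I a) * nI (I a)) ())
    (s := fun a => U0 (nI (I a))) (F := fun a U => stpL (I a) (S a) U)
    (UPoly.mul (u_nI hI) (u_nI hI)) h0
    (p_stpL (hI.comp (Poly.fst Poly.id)) (hS.comp (Poly.fst Poly.id)) (Poly.snd Poly.id)) q
    ?_).congr fun a => by simp
  intro a k hk
  refine le_trans ?_ (hq a)
  clear hk
  induction k with
  | zero => exact le_rfl
  | succ k ih =>
      rw [Function.iterate_succ_apply']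
      exact (sz_filter_le _ _).trans ih

theorem p_gsL (hI : Poly I) (hS : Poly S) : Poly (fun a => gsL (I a) (S a)) := by
  unfold gsL
  refine Poly.map (F := fun a m => (((List.range (nI (I a))).filter fun w =>
    bestL (I a) (S a) (avL (I a) (S a)) w m).head?).getD 0) (u_nI hI).range ?_
  refine Poly.head?_getD (Poly.filter (l := fun q : α × ℕ => List.range (nI (I q.1)))
    (p := fun (q : α × ℕ) w => bestL (I q.1) (S q.1) (avL (I q.1) (S q.1)) w q.2)
    ((u_nI hI).comp (Poly.fst Poly.id)).range ?_) 0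
  have g : Poly (fun p : (α × ℕ) × ℕ => p.1.1) := Poly.fst (Poly.fst Poly.id)
  exact p_bestL (hI.comp g) (hS.comp g) ((p_avL hI hS).comp g) (Poly.snd Poly.id)
    (Poly.snd (Poly.fst Poly.id))

/-! ### the searches -/

theorem sz_short {S : List ℕ} {n D : ℕ} (h1 : S.length ≤ D) (h2 : ∀ c ∈ S, c ≤ n) :
    sz S ≤ D * (2 * sz n + 1) + 1 := by
  have h3 := sz_le_length_mul S (2 * sz n) fun c hc => sz_nat_mono_le (h2 c hc)
  have h4 : S.length * (2 * sz n + 1) ≤ D * (2 * sz n + 1) := Nat.mul_le_mul_right _ h1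
  omega

theorem p_cand {n : α → ℕ} (hn : UPoly n) (hS : Poly S) : Poly (fun a => cand (n a) (S a)) := by
  have f1 : ∀ {β : Type} [TEnc β] {f : α → β}, Poly f → Poly (fun q : α × ℕ => f q.1) :=
    fun hf => hf.comp (Poly.fst Poly.id)
  have hcur : Poly (fun a => cur (n a) (S a)) := by
    unfold cur
    exact drop hS (Poly.mul (Poly.div (Poly.length hS) hn.toPoly) hn.toPoly)
  unfold cand
  exact Poly.filter (p := fun a c => decide ((S a).length < n a) ||
    !(decide (c ∈ cur (n a) (S a)))) hn.range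
    (Poly.or (f1 (Poly.decide_lt (Poly.length hS) hn.toPoly))
      (Poly.not (Poly.decide_mem (Poly.snd Poly.id) (f1 hcur))))

theorem p_dstep {cd : α → List ℕ → List ℕ} {test : α → List ℕ → Bool}
    {o : α → Option (List ℕ)} (hcd : Poly (fun p : α × List ℕ => cd p.1 p.2))
    (htest : Poly (fun p : α × List ℕ => test p.1 p.2)) (ho : Poly o) :
    Poly (fun a => dstep (cd a) (test a) (o a)) := by
  have h1 : Poly (fun q : (α × List ℕ) × ℕ => q.1.2 ++ [q.2]) :=
    Poly.append (Poly.snd (Poly.fst Poly.id)) (Poly.cons (Poly.snd Poly.id) (Poly.const []))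
  have h2 : Poly (fun q : α × List ℕ => (cd q.1 q.2).map fun c => q.2 ++ [c]) :=
    Poly.map (F := fun (q : α × List ℕ) c => q.2 ++ [c]) hcd h1
  have h3 : Poly (fun q : (α × List ℕ) × List ℕ => test q.1.1 q.2) :=
    htest.comp (f := fun q : (α × List ℕ) × List ℕ => (q.1.1, q.2))
      (Poly.pair (Poly.fst (Poly.fst Poly.id)) (Poly.snd Poly.id))
  have h4 : Poly (fun q : α × List ℕ =>
      (((cd q.1 q.2).map fun c => q.2 ++ [c]).filter (test q.1)).head?) :=
    Poly.head? (Poly.filter (p := fun (q : α × List ℕ) S => test q.1 S) h2 h3)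
  refine (Poly.optCases (g := fun _ => none) (h := fun a S =>
    (((cd a S).map fun c => S ++ [c]).filter (test a)).head?) ho (Poly.const _) h4).congr
    fun a => ?_
  cases h : o a <;> rfl

theorem dstep_short {cd : List ℕ → List ℕ} {test : List ℕ → Bool} {n : ℕ}
    (hlt : ∀ S c, c ∈ cd S → c < n) (k : ℕ) {o : Option (List ℕ)}
    (ho : ∀ S, o = some S → S = []) : ∀ S, (dstep cd test)^[k] o = some S →
      S.length ≤ k ∧ ∀ c ∈ S, c ≤ n := by
  induction k with
  | zero =>
      intro S hS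
      have := ho S hS
      subst this
      simp
  | succ k ih =>
      intro S hS
      rw [Function.iterate_succ_apply'] at hS
      cases h1 : (dstep cd test)^[k] o with
      | none => rw [h1] at hS; simp [dstep] at hS
      | some T =>
          rw [h1] at hS
          obtain ⟨c, h2, rfl, -⟩ := dstep_some hS
          obtain ⟨h3, h4⟩ := ih T h1
          refine ⟨by simp; omega, fun x hx => ?_⟩
          rcases List.mem_append.1 hx with hx | hx
          · exact h4 x hx
          · rw [List.mem_singleton.1 hx]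
            exact (hlt T c h2).le

theorem sz_some_le (S : List ℕ) : sz (some S) ≤ sz S + 2 := by
  simp

theorem p_desc {cd : α → List ℕ → List ℕ} {test : α → List ℕ → Bool} {n D : α → ℕ}
    (hn : Poly n) (hD : UPoly D) (hcd : Poly (fun p : α × List ℕ => cd p.1 p.2))
    (htest : Poly (fun p : α × List ℕ => test p.1 p.2))
    (hlt : ∀ a S c, c ∈ cd a S → c < n a) :
    Poly (fun a => (dstep (cd a) (test a))^[D a] (if test a [] = true then some [] else none)) := by
  have g : Poly (fun p : (α × Option (List ℕ)) × List ℕ => p.1.1) := Poly.fst (Poly.fst Poly.id)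
  have g2 : Poly (fun p : (α × Option (List ℕ)) × List ℕ => p.2) := Poly.snd Poly.id
  have hF : Poly (fun p : α × Option (List ℕ) => dstep (cd p.1) (test p.1) p.2) :=
    p_dstep (cd := fun p : α × Option (List ℕ) => cd p.1)
      (test := fun p : α × Option (List ℕ) => test p.1)
      (hcd.comp (f := fun p : (α × Option (List ℕ)) × List ℕ => (p.1.1, p.2)) (Poly.pair g g2))
      (htest.comp (f := fun p : (α × Option (List ℕ)) × List ℕ => (p.1.1, p.2)) (Poly.pair g g2))
      (Poly.snd Poly.id)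
  have hs : Poly (fun a => if test a [] = true then some ([] : List ℕ) else none) :=
    Poly.ite (Poly.decide_bool (htest.comp (f := fun a => (a, ([] : List ℕ)))
      (Poly.pair Poly.id (Poly.const [])))) (Poly.const _) (Poly.const _)
  obtain ⟨q1, hq1⟩ := hn.sz_le
  obtain ⟨q2, hq2⟩ := Poly.sz_le hD
  refine (Poly.iterLen (l := fun a => List.replicate (D a) ())
    (s := fun a => if test a [] = true then some ([] : List ℕ) else none)
    (F := fun a o => dstep (cd a) (test a) o) hD hs hF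
    (q2 * (Polynomial.C 2 * q1 + Polynomial.C 1) + Polynomial.C 3) ?_).congr fun a => by simp
  intro a k hk
  rw [List.length_replicate] at hk
  have h3 : D a < sz (List.replicate (D a) ()) := by
    have := length_lt_sz (List.replicate (D a) ())
    rwa [List.length_replicate] at this
  have h4 := hq1 a
  have h5 := hq2 a
  simp only [Polynomial.eval_add, Polynomial.eval_mul, Polynomial.eval_C]
  cases h : (dstep (cd a) (test a))^[k] (if test a [] = true then some ([] : List ℕ) else none) with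
  | none => simp
  | some S =>
      obtain ⟨h1, h2⟩ := dstep_short (hlt a) k (fun S hS => by
        split_ifs at hS
        simpa using hS.symm) S h
      have h6 := sz_short (D := D a) (h1.trans hk) h2
      have h7 := sz_some_le S
      have h8 : D a * (2 * sz (n a) + 1) ≤
          q2.eval (sz a) * (2 * q1.eval (sz a) + 1) :=
        Nat.mul_le_mul (by omega) (by omega)
      omega

theorem p_d1 {L : α → List (List ℕ)} (hI : Poly I) (hL : Poly L) :
    Poly (fun a => (dstep (cand (nI (I a))) (T1R (I a) (L a)))^[nI (I a) * (nI (I a) + 1)]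
      (if T1R (I a) (L a) [] = true then some [] else none)) := by
  have g : Poly (fun p : α × List ℕ => p.1) := Poly.fst Poly.id
  refine p_desc (cd := fun a => cand (nI (I a))) (test := fun a => T1R (I a) (L a))
    (n := fun a => nI (I a)) (D := fun a => nI (I a) * (nI (I a) + 1)) (p_nI hI)
    (UPoly.mul (u_nI hI) (UPoly.add (u_nI hI) (UPoly.const 1)))
    (p_cand ((u_nI hI).comp g) (Poly.snd Poly.id))
    (p_T1R (hI.comp g) (hL.comp g) (Poly.snd Poly.id)) fun a S c hc => ?_
  unfold cand at hc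
  exact List.mem_range.1 (List.mem_filter.1 hc).1

theorem p_d2 {L : α → List (List ℕ)} (hI : Poly I) (hL : Poly L) (hK : Poly K) :
    Poly (fun a => (dstep (fun _ => List.range (nI (I a))) (T2R (I a) (L a) (K a)))^[nI (I a)]
      (if T2R (I a) (L a) (K a) [] = true then some [] else none)) := by
  have g : Poly (fun p : α × List ℕ => p.1) := Poly.fst Poly.id
  exact p_desc (cd := fun a _ => List.range (nI (I a))) (test := fun a => T2R (I a) (L a) (K a))
    (n := fun a => nI (I a)) (D := fun a => nI (I a)) (p_nI hI) (u_nI hI)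
    ((u_nI hI).comp g).range (p_T2R (hI.comp g) (hL.comp g) (hK.comp g) (Poly.snd Poly.id))
    fun a S c hc => List.mem_range.1 hc

theorem p_next {L : α → List (List ℕ)} (hI : Poly I) (hL : Poly L) :
    Poly (fun a => nextG (nI (I a)) (gsL (I a)) (T1R (I a) (L a)) (T2R (I a) (L a)) (L a)) := by
  have g : Poly (fun p : α × List ℕ => p.1) := Poly.fst Poly.id
  have g2 : Poly (fun p : α × List ℕ => p.2) := Poly.snd Poly.id
  unfold nextG
  refine Poly.head? (Poly.append ?_ ?_)
  · refine Poly.filter (p := fun a M => !(decide (M ∈ L a)))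
      (Poly.map (F := fun a S => gsL (I a) S) (toList (p_d1 hI hL)) (p_gsL (hI.comp g) g2)) ?_
    exact Poly.not ((Poly.decide_mem g2 (hL.comp g)).congr fun _ => decide_eq_decide.2 Iff.rfl)
  · refine Poly.flatMap (F := fun a K => ((dstep (fun _ => List.range (nI (I a)))
      (T2R (I a) (L a) K))^[nI (I a)]
      (if T2R (I a) (L a) K [] = true then some [] else none)).toList) hL ?_
    exact toList (p_d2 (hI.comp g) (hL.comp g) g2)

theorem p_ext {L : α → List (List ℕ)} (hI : Poly I) (hL : Poly L) :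
    Poly (fun a => ext (nI (I a)) (gsL (I a)) (T1R (I a)) (T2R (I a)) (L a)) := by
  unfold ext
  exact Poly.append hL (toList (p_next hI hL))

theorem next_short {I : Inp} {L : List (List ℕ)} {M : List ℕ}
    (h : nextG (nI I) (gsL I) (T1R I L) (T2R I L) L = some M) :
    M.length ≤ nI I ∧ ∀ c ∈ M, c ≤ nI I := by
  unfold nextG at h
  have h1 := List.mem_of_mem_head? h
  rw [List.mem_append, List.mem_filter, List.mem_map, List.mem_flatMap] at h1
  rcases h1 with ⟨⟨S, -, h2⟩, -⟩ | ⟨K, -, h3⟩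
  · subst h2
    unfold gsL
    refine ⟨by simp, fun c hc => ?_⟩
    rw [List.mem_map] at hc
    obtain ⟨m, -, rfl⟩ := hc
    cases h4 : ((List.range (nI I)).filter fun w => bestL I S (avL I S) w m).head? with
    | none => simp
    | some x =>
        have h5 := List.mem_of_mem_head? h4
        rw [List.mem_filter, List.mem_range] at h5
        simpa using h5.1.le
  · obtain ⟨h4, h5⟩ := dstep_short (n := nI I) (fun S c hc => List.mem_range.1 hc) (nI I)
      (fun S hS => by
        split_ifs at hS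
        simpa using hS.symm) M (Option.mem_toList.1 h3)
    exact ⟨h4, h5⟩

theorem run_short (I : Inp) (k : ℕ) :
    ((ext (nI I) (gsL I) (T1R I) (T2R I))^[k] []).length ≤ k ∧
    ∀ M ∈ (ext (nI I) (gsL I) (T1R I) (T2R I))^[k] [], M.length ≤ nI I ∧ ∀ c ∈ M, c ≤ nI I := by
  induction k with
  | zero => simp
  | succ k ih =>
      rw [Function.iterate_succ_apply']
      obtain ⟨h1, h2⟩ := ih
      set L := (ext (nI I) (gsL I) (T1R I) (T2R I))^[k] [] with hL
      have he : ext (nI I) (gsL I) (T1R I) (T2R I) L =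
        L ++ (nextG (nI I) (gsL I) (T1R I L) (T2R I L) L).toList := rfl
      rw [he]
      cases h : nextG (nI I) (gsL I) (T1R I L) (T2R I L) L with
      | none =>
          simp only [Option.toList_none, List.append_nil]
          exact ⟨by omega, h2⟩
      | some M =>
          simp only [Option.toList_some]
          refine ⟨by simp; omega, fun M' hM' => ?_⟩
          rcases List.mem_append.1 hM' with h3 | h3
          · exact h2 M' h3
          · rw [List.mem_singleton.1 h3]
            exact next_short h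

/-- the algorithm runs in polynomial time -/
theorem poly_alg : Poly alg := by
  have hI : Poly (fun x : Inp × List Unit => x.1) := Poly.fst Poly.id
  have hK : Poly (fun x : Inp × List Unit => x.2) := Poly.snd Poly.id
  have hF : Poly (fun p : (Inp × List Unit) × List (List ℕ) =>
      ext (nI p.1.1) (gsL p.1.1) (T1R p.1.1) (T2R p.1.1) p.2) :=
    p_ext (I := fun p : (Inp × List Unit) × List (List ℕ) => p.1.1)
      (Poly.fst (Poly.fst Poly.id)) (Poly.snd Poly.id)
  obtain ⟨q1, hq1⟩ := (p_nI hI).sz_le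
  obtain ⟨q2, hq2⟩ := Poly.sz_le (u_nI hI)
  refine (Poly.iterLen (l := fun x : Inp × List Unit => x.2) (s := fun _ => ([] : List (List ℕ)))
    (F := fun x L => ext (nI x.1) (gsL x.1) (T1R x.1) (T2R x.1) L) hK (Poly.const []) hF
    (Polynomial.X * (q2 * (Polynomial.C 2 * q1 + Polynomial.C 1) + Polynomial.C 2) +
      Polynomial.C 1) ?_).congr fun x => rfl
  intro x k hk
  change sz ((ext (nI x.1) (gsL x.1) (T1R x.1) (T2R x.1))^[k] []) ≤ _
  obtain ⟨h1, h2⟩ := run_short x.1 k
  have h3 := length_lt_sz x.2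
  have h4 : sz x.2 ≤ sz x := by
    obtain ⟨I, K⟩ := x
    simp only [sz_pair]
    omega
  have h5 : nI x.1 < sz (List.replicate (nI x.1) ()) := by
    have := length_lt_sz (List.replicate (nI x.1) ())
    rwa [List.length_replicate] at this
  have h6 : sz (nI x.1) ≤ q1.eval (sz x) := hq1 x
  have h7 : sz (List.replicate (nI x.1) ()) ≤ q2.eval (sz x) := hq2 x
  have h8 := sz_le_length_mul ((ext (nI x.1) (gsL x.1) (T1R x.1) (T2R x.1))^[k] [])
    (q2.eval (sz x) * (2 * q1.eval (sz x) + 1) + 1) (fun M hM => by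
      obtain ⟨h9, h10⟩ := h2 M hM
      have h11 := sz_short h9 h10
      have h12 : nI x.1 * (2 * sz (nI x.1) + 1) ≤ q2.eval (sz x) * (2 * q1.eval (sz x) + 1) :=
        Nat.mul_le_mul (by omega) (by omega)
      omega)
  simp only [Polynomial.eval_add, Polynomial.eval_mul, Polynomial.eval_C, Polynomial.eval_X]
  have h9 : ((ext (nI x.1) (gsL x.1) (T1R x.1) (T2R x.1))^[k] []).length *
      (q2.eval (sz x) * (2 * q1.eval (sz x) + 1) + 1 + 1) ≤
      sz x * (q2.eval (sz x) * (2 * q1.eval (sz x) + 1) + 2) :=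
    Nat.mul_le_mul (by omega) (by omega)
  omega

end

end Pool.Agent.NPC.H688
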