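import Mathlib

/-!
# The determinant of a functional graph
-/

set_option autoImplicit false

namespace Pool.Agent.H688.WSM

open Finset Function Matrix

variable {n : ℕ}

/-- a nonempty set of vertices in which everybody has a successor -/
def HasCl (F : Fin n → Fin n → Prop) : Prop :=
  ∃ S : Finset (Fin n), S.Nonempty ∧ ∀ m ∈ S, ∃ j ∈ S, F m j

/-- the matrix of the functional graph -/
def fm (F : Fin n → Fin n → Prop) [∀ m j, Decidable (F m j)] : Matrix (Fin n) (Fin n) ℤ :=
  of fun m j => (if j = m then 1 else 0) - (if F m j then 1 else 0)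

theorem det_fm_zero {F : Fin n → Fin n → Prop} [∀ m j, Decidable (F m j)]
    (hF : ∀ m j j', F m j → F m j' → j = j') (h : HasCl F) : (fm F).det = 0 := by
  classical
  obtain ⟨S, ⟨m₀, hm₀⟩, hS⟩ := h
  let T : Fin n → Prop := fun m => ∃ S : Finset (Fin n), m ∈ S ∧ ∀ m ∈ S, ∃ j ∈ S, F m j
  have hT1 : ∀ m, T m → ∃ j, F m j ∧ T j := by
    rintro m ⟨S', h1, h2⟩
    obtain ⟨j, h3, h4⟩ := h2 m h1
    exact ⟨j, h4, S', h3, h2⟩
  have hT2 : ∀ m j, F m j → T j → T m := by
    rintro m j h1 ⟨S', h2, h3⟩
    refine ⟨insert m S', mem_insert_self _ _, fun k hk => ?_⟩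
    rcases mem_insert.1 hk with rfl | hk
    · exact ⟨j, mem_insert_of_mem h2, h1⟩
    · obtain ⟨l, h4, h5⟩ := h3 k hk
      exact ⟨l, mem_insert_of_mem h4, h5⟩
  rw [← Matrix.exists_mulVec_eq_zero_iff]
  refine ⟨fun m => if T m then 1 else 0, ?_, ?_⟩
  · intro h0
    have := congrFun h0 m₀
    have hT : T m₀ := ⟨S, hm₀, hS⟩
    simp [hT] at this
  · funext m
    simp only [mulVec, dotProduct, fm, of_apply, Pi.zero_apply, sub_mul, sum_sub_distrib,
      ite_mul, one_mul, zero_mul, sum_ite_eq', mem_univ, if_true]
    by_cases hm : ∃ j, F m j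
    · obtain ⟨j, hj⟩ := hm
      have h1 : ∀ k, (if F m k then (if T k then (1 : ℤ) else 0) else 0) =
          if k = j then (if T j then 1 else 0) else 0 := by
        intro k
        by_cases hk : k = j
        · subst hk; simp [hj]
        · have : ¬ F m k := fun h => hk (hF m k j h hj)
          simp [hk, this]
      rw [sum_congr rfl fun k _ => h1 k, sum_ite_eq']
      have h2 : T m ↔ T j := by
        constructor
        · intro h
          obtain ⟨k, hk1, hk2⟩ := hT1 m h
          rwa [hF m k j hk1 hj] at hk2
        · exact hT2 m j hj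
      simp [h2]
    · push Not at hm
      have h1 : ¬ T m := fun h => by
        obtain ⟨j, hj, _⟩ := hT1 m h
        exact hm j hj
      simp [hm, h1]

theorem det_fm_one {F : Fin n → Fin n → Prop} [∀ m j, Decidable (F m j)]
    (h : ¬ HasCl F) : (fm F).det = 1 := by
  classical
  have hwf : WellFounded (fun j m => F m j) := by
    rw [WellFounded.wellFounded_iff_has_min]
    intro s hs
    by_contra hno
    push Not at hno
    refine h ⟨s.toFinset, by simpa using hs, fun m hm => ?_⟩
    obtain ⟨j, hj1, hj2⟩ := hno m (by simpa using hm)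
    exact ⟨j, by simpa using hj1, hj2⟩
  have hirr : ∀ m, ¬ Relation.TransGen F m m := by
    intro m hm
    have h1 : Relation.TransGen (fun j m => F m j) m m := by
      rw [← Relation.transGen_swap] at hm
      exact hm
    exact (WellFounded.transGen hwf).irrefl.irrefl m h1
  let r : Fin n → ℕ := fun m => ((univ : Finset (Fin n)).filter fun j => Relation.TransGen F m j).card
  have hr : ∀ m j, F m j → r j < r m := by
    intro m j hmj
    refine card_lt_card ⟨?_, ?_⟩
    · intro k hk
      simp only [mem_filter, mem_univ, true_and] at hk ⊢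
      exact Relation.TransGen.head hmj hk
    · intro hsub
      have h1 : j ∈ (univ : Finset (Fin n)).filter fun k => Relation.TransGen F m k := by
        simp [Relation.TransGen.single hmj]
      have h2 := hsub h1
      simp only [mem_filter, mem_univ, true_and] at h2
      exact hirr j h2
  have htri : BlockTriangular (fm F) (OrderDual.toDual ∘ r) := by
    intro i j hij
    have hij' : r i < r j := hij
    have h1 : ¬ F i j := fun h => by
      have := hr i j h
      omega
    have h2 : j ≠ i := fun h => by subst h; exact lt_irrefl _ hij'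
    simp [fm, h1, h2]
  rw [htri.det]
  refine prod_eq_one fun k _ => ?_
  have : (fm F).toSquareBlock (OrderDual.toDual ∘ r) k = 1 := by
    ext ⟨i, hi⟩ ⟨j, hj⟩
    have hij : r i = r j := by
      have h1 : OrderDual.toDual (r i) = OrderDual.toDual (r j) := by
        simpa using hi.trans hj.symm
      simpa using h1
    have h1 : ¬ F i j := fun h => by
      have := hr i j h
      omega
    simp [toSquareBlock, toSquareBlockProp, fm, h1, Matrix.one_apply, Subtype.ext_iff, eq_comm]
  rw [this, det_one]

end Pool.Agent.H688.WSM
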