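import Pool.Agent.H688.WSM.Alg

/-!
# The algorithm on lists computes what it should
-/

set_option autoImplicit false
set_option linter.unusedSectionVars false

namespace Pool.Agent.H688.WSM

open Finset Function Matrix Pool.Agent.H670R2

variable {n : ℕ}

/-- a table as a list of lists -/
def tab (A : Fin n → Fin n → ℕ) : List (List ℕ) := List.ofFn fun i => List.ofFn (A i)

theorem at2_tab (A : Fin n → Fin n → ℕ) (i j : Fin n) : at2 (tab A) i j = A i j := by
  unfold at2 tab
  simp

theorem sum_range_list {R : Type*} [AddCommMonoid R] (f : ℕ → R) :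
    ((List.range n).map f).sum = ∑ i : Fin n, f i := by
  rw [← Finset.sum_range]
  rfl

theorem prod_range_list {R : Type*} [CommMonoid R] (f : ℕ → R) :
    ((List.range n).map f).prod = ∏ i : Fin n, f i := by
  rw [← Finset.prod_range]
  rfl

section

variable (r s X : Fin n → Fin n → ℕ)

/-- the input -/
def inp : Inp := (tab r, tab s, tab X)

/-- the table of integers -/
def xz (w b : Fin n) : ℤ := (X w b : ℤ)

theorem nI_inp : nI (inp r s X) = n := by simp [nI, inp, tab]

theorem xL_inp (w b : Fin n) : xL (inp r s X) w b = xz X w b := by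
  unfold xL xz inp
  rw [at2_tab]

theorem rSL_inp (S : List ℕ) (m w : Fin n) : rSL (inp r s X) S m w = rS r S m w := by
  unfold rSL rS
  rw [nI_inp]
  have h : at2 (inp r s X).1 m w = r m w := at2_tab r m w
  rw [h]
  rfl

theorem sSL_inp (S : List ℕ) (w m : Fin n) : sSL (inp r s X) S w m = sS s S w m := by
  unfold sSL sS
  rw [nI_inp]
  have h : at2 (inp r s X).2.1 w m = s w m := at2_tab s w m
  rw [h]

theorem ddL_inp (w m : Fin n) : ddL (inp r s X) w m = dd (xz X w) m := by
  unfold ddL dd
  rw [nI_inp, prod_range_list]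
  refine prod_congr rfl fun b _ => ?_
  simp only [xL_inp, Fin.ext_iff]

theorem ffL_inp (w m j : Fin n) : ffL (inp r s X) w m j = ff (xz X w) m j := by
  unfold ffL ff
  rw [nI_inp, prod_range_list]
  refine prod_congr rfl fun b _ => ?_
  simp only [xL_inp, Fin.ext_iff]

theorem qnL_inp (S : List ℕ) (w j m : Fin n) :
    qnL (inp r s X) S w j m = qn (xz X w) (sS s S w) j m := by
  unfold qnL qn
  simp only [sSL_inp, ddL_inp, ffL_inp, xL_inp, Fin.ext_iff, ne_eq]

theorem kv_inp (S : List ℕ) (v m w : Fin n) :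
    kv (inp r s X) S v m w = ka (rS r S) v m w := by
  unfold kv kaL ka
  rw [nI_inp, rSL_inp]

theorem gt_pl (M : Equiv.Perm (Fin n)) (k : Fin n) : gt (pl M) k = M k := by
  unfold gt
  rw [List.getD_eq_getElem?_getD, pl_getElem?]
  rfl

theorem entAL_inp (S : List ℕ) (M : Equiv.Perm (Fin n)) (v m j : Fin n) :
    entAL (inp r s X) S (pl M) v m j = entA (ka (rS r S) v m) (sS s S) (xz X) M m j := by
  have e1 : (∏ w, (if ka (rS r S) v m w < ka (rS r S) v m (M m) then
      dd (xz X w) m - qn (xz X w) (sS s S w) (M.symm w) m else dd (xz X w) m)) =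
      ∏ k, (if ka (rS r S) v m (M k) < ka (rS r S) v m (M m) then
      dd (xz X (M k)) m - qn (xz X (M k)) (sS s S (M k)) k m else dd (xz X (M k)) m) := by
    rw [← Equiv.prod_comp M]
    simp only [Equiv.symm_apply_apply]
  have e2 : (∏ w, (if ka (rS r S) v m w < ka (rS r S) v m (M j) then
      dd (xz X w) m - qn (xz X w) (sS s S w) (M.symm w) m else
        if w = M j then qn (xz X w) (sS s S w) (M.symm w) m else dd (xz X w) m)) =
      ∏ k, (if ka (rS r S) v m (M k) < ka (rS r S) v m (M j) then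
      dd (xz X (M k)) m - qn (xz X (M k)) (sS s S (M k)) k m else
        if k = j then qn (xz X (M k)) (sS s S (M k)) k m else dd (xz X (M k)) m) := by
    rw [← Equiv.prod_comp M]
    simp only [Equiv.symm_apply_apply, M.injective.eq_iff]
  unfold entAL entA
  rw [nI_inp, prod_range_list, prod_range_list, e1, e2]
  simp only [gt_pl, kv_inp, ddL_inp, qnL_inp, Fin.ext_iff]

theorem entL_inp (S : List ℕ) (M : Equiv.Perm (Fin n)) (m j : Fin n) :
    entL (inp r s X) S (pl M) m j = entZ (rS r S) (sS s S) (xz X) M m j := by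
  unfold entL entZ
  rw [nI_inp, sum_range_list]
  exact sum_congr rfl fun v _ => entAL_inp r s X S M v m j

theorem range_toL (f : ℕ → ℕ → ℤ) (g : Matrix (Fin n) (Fin n) ℤ)
    (h : ∀ i j : Fin n, f i j = g i j) :
    ((List.range n).map fun i => (List.range n).map fun j => f i j) = toL g := by
  unfold toL
  refine List.ext_getElem (by simp) fun i h1 h2 => ?_
  simp only [List.getElem_map, List.getElem_range, List.getElem_ofFn]
  refine List.ext_getElem (by simp) fun j h3 h4 => ?_
  simp only [List.getElem_map, List.getElem_range, List.getElem_ofFn]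
  have h5 : i < n := by simpa using h1
  have h6 : j < n := by simpa using h3
  exact h ⟨i, h5⟩ ⟨j, h6⟩

theorem matL_inp (S : List ℕ) (M : Equiv.Perm (Fin n)) :
    matL (inp r s X) S (pl M) = toL (of (entZ (rS r S) (sS s S) (xz X) M)) := by
  unfold matL
  rw [nI_inp]
  exact range_toL _ _ fun i j => entL_inp r s X S M i j

theorem DZL_inp : DZL (inp r s X) = DZ (xz X) := by
  unfold DZL DZ
  rw [nI_inp, prod_range_list]
  refine prod_congr rfl fun m _ => ?_
  rw [prod_range_list]
  exact prod_congr rfl fun w _ => ddL_inp r s X w m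

theorem FZL_inp (S : List ℕ) (L : List (Equiv.Perm (Fin n))) :
    FZL (inp r s X) (L.map pl) S = FZ (rS r S) (sS s S) L (xz X) := by
  unfold FZL FZ
  rw [DZL_inp, nI_inp, prod_range_list, List.map_map, prod_const, card_univ, Fintype.card_fin]
  congr 2
  refine List.map_congr_left fun M _ => ?_
  simp only [Function.comp_apply]
  rw [matL_inp, detL_toL]

theorem idxOf_pl (K : Equiv.Perm (Fin n)) (w : Fin n) : (pl K).idxOf (w : ℕ) = K.symm w := by
  have hnd : (pl K).Nodup := by
    unfold pl
    rw [List.nodup_ofFn]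
    intro i j hij
    exact K.injective (Fin.ext hij)
  have hlt : ((K.symm w : Fin n) : ℕ) < (pl K).length := by rw [length_pl]; exact (K.symm w).2
  have h1 : (pl K)[((K.symm w : Fin n) : ℕ)] = (w : ℕ) := by
    have h2 := pl_getElem? K (K.symm w)
    rw [List.getElem?_eq_getElem hlt, Equiv.apply_symm_apply] at h2
    exact Option.some.inj h2
  have h3 := hnd.idxOf_getElem _ hlt
  rw [h1] at h3
  exact h3

theorem alwL_inp (K : Equiv.Perm (Fin n)) (b w : Fin n) :
    alwL (inp r s X) (pl K) b w = true ↔ Alw r s K b w := by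
  unfold alwL Alw
  rw [nI_inp, idxOf_pl, gt_pl]
  have h1 : ∀ i j : Fin n, at2 (inp r s X).1 i j = r i j := at2_tab r
  have h2 : ∀ i j : Fin n, at2 (inp r s X).2.1 i j = s i j := at2_tab s
  simp only [h1, h2, Bool.or_eq_true, decide_eq_true_eq, Bool.and_eq_true, List.all_eq_true,
    List.mem_range, Bool.not_eq_true', Bool.and_eq_false_iff, decide_eq_false_iff_not,
    Fin.ext_iff]
  refine or_congr Iff.rfl ?_
  rw [and_assoc]
  refine and_congr Iff.rfl (and_congr Iff.rfl ?_)
  constructor
  · intro h m hm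
    have h3 := h m m.2
    rw [gt_pl, h1, h1, h2] at h3
    rcases h3 with h3 | h3
    · exact h3 hm.1
    · exact h3 hm.2
  · intro h m hm
    have h3 := h ⟨m, hm⟩
    have h4 := gt_pl K ⟨m, hm⟩
    have h5 := h1 ⟨m, hm⟩ w
    have h6 := h1 ⟨m, hm⟩ (K ⟨m, hm⟩)
    have h7 := h2 w ⟨m, hm⟩
    simp only at h4 h5 h6 h7
    rw [h4, h5, h6, h7]
    tauto

theorem alL_inp (K : Equiv.Perm (Fin n)) (C : List ℕ) (b w : Fin n) :
    alL (inp r s X) (pl K) C b w = true ↔ al r s K C b w := by
  unfold alL al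
  rw [Bool.and_eq_true, alwL_inp]
  refine and_congr Iff.rfl ?_
  simp

open Classical in
theorem F2L_inp (K : Equiv.Perm (Fin n)) (C : List ℕ) (L : List (Equiv.Perm (Fin n))) :
    F2L (inp r s X) (L.map pl) (pl K) C = F2 (al r s K C) L (xz X) := by
  unfold F2L F2
  congr 1
  · rw [← detL_toL]
    congr 1
    unfold mat2
    rw [nI_inp]
    refine range_toL _ _ fun b w => ?_
    simp only [A2, of_apply, xL_inp]
    exact if_congr (alL_inp r s X K C b w) rfl rfl
  · rw [List.map_map]
    congr 1
    refine List.map_congr_left fun M _ => ?_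
    simp only [Function.comp_apply]
    rw [← detL_toL]
    congr 1
    unfold mat3
    rw [nI_inp]
    refine range_toL _ _ fun b w => ?_
    simp only [A2, of_apply, xL_inp, gt_pl]
    refine if_congr (and_congr (alL_inp r s X K C b w) ?_) rfl rfl
    rw [Fin.ext_iff]

theorem T1R_inp {L : List (Equiv.Perm (Fin n))} (hL : L.Nodup) (hG : GoodX r s L (xz X))
    (S : List ℕ) : T1R (inp r s X) (L.map pl) S = T1I r s L S := by
  unfold T1R T1I
  rw [nI_inp, FZL_inp]
  cases hv : Val n (n * (n + 1)) S with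
  | false => simp
  | true =>
      by_cases hm : Miss1 r s L S
      · have h1 := hG.h1 S hv hm
        simp [hm, h1]
      · have h1 := FZ_eq_zero_int hG.hD hL hm
        simp [hm, h1]

theorem T2R_sound {L : List (Equiv.Perm (Fin n))} (hL : L.Nodup)
    (K : Equiv.Perm (Fin n)) (C : List ℕ)
    (h : T2R (inp r s X) (L.map pl) (pl K) C = true) : T2I r s L K C = true := by
  classical
  unfold T2R at h
  rw [nI_inp, F2L_inp, Bool.and_eq_true] at h
  simp only [Bool.not_eq_true', decide_eq_false_iff_not] at h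
  unfold T2I
  rw [decide_eq_true_eq]
  refine ⟨h.1, ?_⟩
  by_contra hc
  exact h.2 (F2_eq_zero hL hc _)

theorem T2R_inp {L : List (Equiv.Perm (Fin n))} (hL : L.Nodup) (hG : GoodX r s L (xz X))
    {K : Equiv.Perm (Fin n)} (hK : K ∈ L) (C : List ℕ) :
    T2R (inp r s X) (L.map pl) (pl K) C = T2I r s L K C := by
  classical
  rw [Bool.eq_iff_iff]
  constructor
  · exact T2R_sound r s X hL K C
  · intro h
    unfold T2I at h
    rw [decide_eq_true_eq] at h
    unfold T2R
    rw [nI_inp, F2L_inp, Bool.and_eq_true]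
    refine ⟨h.1, ?_⟩
    simp only [Bool.not_eq_true', decide_eq_false_iff_not]
    exact hG.h2 K hK C h.1 h.2

/-! ### deferred acceptance -/

theorem aL_inp (S : List ℕ) (m w : Fin n) : aL (inp r s X) S m w = a0 r S m w := by
  unfold aL a0 KA ka kaL
  rw [nI_inp, rSL_inp]

theorem bL_inp (S : List ℕ) (w m : Fin n) : bL (inp r s X) S w m = b0 s S w m := by
  unfold bL b0
  rw [nI_inp, sSL_inp]

/-- the list represents the set -/
def Repr (U : List (ℕ × ℕ)) (V : Finset (Fin n × Fin n)) : Prop :=
  ∀ m w : Fin n, ((m : ℕ), (w : ℕ)) ∈ U ↔ (m, w) ∈ V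

theorem bestL_inp {S : List ℕ} {U : List (ℕ × ℕ)} {V : Finset (Fin n × Fin n)} (h : Repr U V)
    (w m : Fin n) : bestL (inp r s X) S U w m = true ↔ Best (b0 s S) V w m := by
  unfold bestL Best
  rw [nI_inp]
  simp only [Bool.and_eq_true, decide_eq_true_eq, List.all_eq_true, List.mem_range,
    Bool.or_eq_true, Bool.not_eq_true', decide_eq_false_iff_not]
  refine and_congr (h m w) ?_
  constructor
  · intro h1 m' hm'
    have h2 := h1 m' m'.2
    rw [bL_inp, bL_inp] at h2
    rcases h2 with h2 | h2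
    · exact absurd ((h m' w).2 hm') h2
    · exact h2
  · intro h1 m' hm'
    have h2 := h1 ⟨m', hm'⟩
    have h3 := bL_inp r s X S w ⟨m', hm'⟩
    have h4 := h ⟨m', hm'⟩ w
    simp only at h3 h4
    rw [bL_inp, h3, h4]
    tauto

theorem stpL_inp {S : List ℕ} {U : List (ℕ × ℕ)} {V : Finset (Fin n × Fin n)} (h : Repr U V) :
    Repr (stpL (inp r s X) S U) (stp (a0 r S) (b0 s S) V) := by
  classical
  intro m w
  unfold stpL stp
  rw [List.mem_filter, mem_filter, h m w]
  refine and_congr Iff.rfl ?_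
  unfold Better abet betL
  rw [nI_inp]
  simp only [Bool.not_eq_true', List.any_eq_false, List.mem_range, Bool.and_eq_true,
    decide_eq_true_eq]
  constructor
  · rintro h1 ⟨w', h2, h3⟩
    refine h1 w' w'.2 ⟨(bestL_inp r s X h w' m).2 h2, ?_⟩
    rw [aL_inp, aL_inp]
    exact h3
  · rintro h1 w' hw' ⟨h2, h3⟩
    refine h1 ⟨⟨w', hw'⟩, (bestL_inp r s X h ⟨w', hw'⟩ m).1 h2, ?_⟩
    have h4 := aL_inp r s X S m ⟨w', hw'⟩
    simp only at h4
    rw [h4, aL_inp] at h3
    exact h3

theorem avL_inp (S : List ℕ) : Repr (avL (inp r s X) S) (av (a0 r S) (b0 s S) (n * n)) := by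
  have h0 : Repr (U0 n) (univ : Finset (Fin n × Fin n)) := by
    intro m w
    simp [U0]
  have key : ∀ t, Repr ((stpL (inp r s X) S)^[t] (U0 n)) (av (a0 r S) (b0 s S) t) := by
    intro t
    induction t with
    | zero => exact h0
    | succ t ih =>
        rw [iterate_succ_apply', av_succ]
        exact stpL_inp r s X ih
  unfold avL
  rw [nI_inp]
  exact key _

theorem gsL_inp (S : List ℕ) : ∃ M : Equiv.Perm (Fin n), gsL (inp r s X) S = pl M ∧
    Gd (a0 r S) (b0 s S) M := by
  obtain ⟨M, h1, h2, -, h4⟩ := exists_gs (a0_inj r S) (b0_inj s S)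
  refine ⟨M, ?_, h1, h2⟩
  unfold gsL pl
  rw [nI_inp]
  refine List.ext_getElem (by simp) fun i h5 h6 => ?_
  simp only [List.getElem_map, List.getElem_range, List.getElem_ofFn]
  have hi : i < n := by simpa using h5
  have h7 : ∀ w < n, (bestL (inp r s X) S (avL (inp r s X) S) w i = true ↔ w = M ⟨i, hi⟩) := by
    intro w hw
    have h8 := bestL_inp r s X (S := S) (avL_inp r s X S) ⟨w, hw⟩ ⟨i, hi⟩
    simp only at h8
    rw [h8, h4]
    rw [Fin.ext_iff]
    simp only
    exact eq_comm
  have h8 : ((List.range n).filter fun w => bestL (inp r s X) S (avL (inp r s X) S) w i) =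
      (List.range n).filter fun w => decide (w = (M ⟨i, hi⟩ : ℕ)) := by
    refine List.filter_congr fun w hw => ?_
    rw [List.mem_range] at hw
    rw [Bool.eq_iff_iff, h7 w hw, decide_eq_true_eq]
  rw [h8]
  have h9 : (M ⟨i, hi⟩ : ℕ) ∈ (List.range n).filter fun w => decide (w = (M ⟨i, hi⟩ : ℕ)) := by
    rw [List.mem_filter, List.mem_range]
    exact ⟨(M _).2, by simp⟩
  cases h10 : (List.range n).filter fun w => decide (w = (M ⟨i, hi⟩ : ℕ)) with
  | nil => rw [h10] at h9; simp at h9
  | cons a l =>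
      have h11 : a ∈ (List.range n).filter fun w => decide (w = (M ⟨i, hi⟩ : ℕ)) := by
        rw [h10]; simp
      rw [List.mem_filter] at h11
      simpa using h11.2

/-! ### the run -/

theorem alg_sound (K : ℕ) : ∃ L, alg (inp r s X, List.replicate K ()) = L.map pl ∧ Lst r s L ∧
    L.length ≤ K := by
  unfold alg
  rw [nI_inp]
  simp only [List.length_replicate]
  exact run_sound (gsL_inp r s X) (fun L hL K _ C h => T2R_sound r s X hL.1 K C h) K

theorem alg_ideal (hgood : ∀ j < n.factorial, GoodX r s (seqI r s (gsL (inp r s X)) j) (xz X))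
    (K : ℕ) : alg (inp r s X, List.replicate K ()) =
      (seqI r s (gsL (inp r s X)) K).map pl := by
  unfold alg
  rw [nI_inp]
  simp only [List.length_replicate]
  refine run_ideal (gsL_inp r s X) (fun L hL K _ C h => T2R_sound r s X hL.1 K C h) ?_ K
  intro j hj
  have h1 := (seqI_spec (gsL_inp r s X) j).1
  exact ⟨fun S => T1R_inp r s X h1.1 (hgood j hj) S,
    fun K hK C => T2R_inp r s X h1.1 (hgood j hj) hK C⟩

end

/-- the refined matchings do not depend on the random numbers -/
theorem gsL_indep (r s X Y : Fin n → Fin n → ℕ) : gsL (inp r s X) = gsL (inp r s Y) := by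
  funext S
  obtain ⟨M, h1, h2⟩ := gsL_inp r s X S
  obtain ⟨N, h3, h4⟩ := gsL_inp r s Y S
  rw [h1, h3, Gd.unique (a0_inj r S) (b0_inj s S) h2 h4]

open Classical in
/-- correctness of the algorithm -/
theorem alg_correct (r s : Fin n → Fin n → ℕ) {N t : ℕ} (hN : 2 ^ ((n + 1) ^ 3 + 3 + t) ≤ N)
    (K : ℕ) :
    2 ^ t * ((univ : Finset (Fin n → Fin n → Fin N)).filter fun X =>
      ¬ ∃ L, alg (inp r s (fun i j => (X i j : ℕ)), List.replicate K ()) = L.map pl ∧
        (Cpl r s L ∨ L.length = K)).card ≤ N ^ (n * n) := by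
  let Y : Fin n → Fin n → ℕ := fun _ _ => 0
  refine le_trans (Nat.mul_le_mul_left _ (card_le_card fun X hX => ?_))
    (bad_total r s (gsL_inp r s Y) hN)
  rw [mem_filter] at hX ⊢
  refine ⟨mem_univ _, ?_⟩
  by_contra hc
  push Not at hc
  apply hX.2
  have h1 : ∀ j < n.factorial,
      GoodX r s (seqI r s (gsL (inp r s (fun i j => (X i j : ℕ)))) j)
        (xz (fun i j => (X i j : ℕ))) := by
    intro j hj
    rw [gsL_indep r s _ Y]
    exact hc j hj
  refine ⟨_, alg_ideal r s _ h1 K, ?_⟩
  exact (seqI_spec (gsL_inp r s _) K).2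

end Pool.Agent.H688.WSM
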