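import Pool.Agent.H688.WSM.A
import Pool.Agent.H688.WSM.B

/-!
# The determinant identity
-/

set_option autoImplicit false

namespace Pool.Agent.H688.WSM

open Finset Function Matrix

variable {n : ℕ}

/-- the conditions of stability in which the man `m` takes part -/
def Ok (a b : Fin n → Fin n → ℕ) (M : Equiv.Perm (Fin n)) (m : Fin n) : Prop :=
  ∀ j, ¬ (a m (M j) < a m (M m) ∧ b (M j) m < b (M j) j)

theorem stable_iff {a b : Fin n → Fin n → ℕ} {M : Equiv.Perm (Fin n)} :
    Stable a b M ↔ ∀ m, Ok a b M m := Iff.rfl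

open Classical in
/-- the row of `m` -/
noncomputable def rw1 (a b : Fin n → Fin n → ℕ) (M : Equiv.Perm (Fin n)) (m j : Fin n) : ℤ :=
  if Ok a b M m then (if j = m then 1 else 0) - (if Nx a b M m j then 1 else 0) else 0

theorem nx_unique {a b : Fin n → Fin n → ℕ} {M : Equiv.Perm (Fin n)} (ha : ∀ m, Injective (a m))
    {m j j' : Fin n} (h : Nx a b M m j) (h' : Nx a b M m j') : j = j' := by
  have h1 := h.2.2 j'
  have h2 := h'.2.2 j
  have h3 := h.1
  have h4 := h'.1
  have h5 := h.2.1
  have h6 := h'.2.1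
  have h7 : ¬ a m (M j') < a m (M j) := fun h8 => h1 ⟨h4, h8, h6⟩
  have h8 : ¬ a m (M j) < a m (M j') := fun h8 => h2 ⟨h3, h8, h5⟩
  exact M.injective (ha m (by omega))

open Classical in
theorem det_rw1 {a b : Fin n → Fin n → ℕ} (ha : ∀ m, Injective (a m)) (M : Equiv.Perm (Fin n)) :
    (of (rw1 a b M)).det = if Stable a b M ∧ ¬ Bad a b M then 1 else 0 := by
  by_cases hS : Stable a b M
  · have h1 : of (rw1 a b M) = fm (Nx a b M) := by
      ext m j
      have : Ok a b M m := hS m
      simp [rw1, fm, this]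
    rw [h1]
    by_cases hB : Bad a b M
    · rw [det_fm_zero (F := Nx a b M) (fun m j j' => nx_unique ha) hB]
      simp [hB]
    · rw [det_fm_one (F := Nx a b M) hB]
      simp [hS, hB]
  · have h1 : ∃ m, ¬ Ok a b M m := by
      by_contra hc
      push Not at hc
      exact hS hc
    obtain ⟨m, hm⟩ := h1
    rw [Matrix.det_eq_zero_of_row_eq_zero m]
    · simp [hS]
    · intro j
      simp [rw1, hm]

/-! ### breaking the ties -/

/-- the list of the man `m`: the woman number `v` first in her tie, then the others by number -/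
def ka (r : Fin n → Fin n → ℕ) (v : ℕ) (m w : Fin n) : ℕ :=
  r m w * (n + 1) + (if (w : ℕ) = v then 0 else (w : ℕ) + 1)

/-- the list of the woman `w`: ties are broken by number, or reversely -/
def kb (s : Fin n → Fin n → ℕ) (β : ℕ) (w m : Fin n) : ℕ :=
  s w m * n + (if β = 0 then (m : ℕ) else n - 1 - m)

theorem ka_lt {r : Fin n → Fin n → ℕ} {v : ℕ} {m w w' : Fin n} (h : r m w < r m w') :
    ka r v m w < ka r v m w' := by
  unfold ka
  have h1 : r m w * (n + 1) + (n + 1) ≤ r m w' * (n + 1) := by nlinarith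
  have h2 : (if (w : ℕ) = v then 0 else (w : ℕ) + 1) < n + 1 := by
    have := w.2
    split_ifs <;> omega
  omega

theorem ka_inj (r : Fin n → Fin n → ℕ) (v : ℕ) (m : Fin n) : Injective (ka r v m) := by
  intro w w' h
  rcases lt_trichotomy (r m w) (r m w') with h1 | h1 | h1
  · exact absurd h (ka_lt h1).ne
  · unfold ka at h
    rw [h1] at h
    have h2 : (if (w : ℕ) = v then 0 else (w : ℕ) + 1) = if (w' : ℕ) = v then 0 else (w' : ℕ) + 1 := by
      omega
    refine Fin.ext ?_
    split_ifs at h2 <;> omega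
  · exact absurd h (ka_lt h1).ne'

theorem ka_le {r : Fin n → Fin n → ℕ} {v : ℕ} {m w w' : Fin n} (h : ka r v m w ≤ ka r v m w') :
    r m w ≤ r m w' := by
  by_contra hc
  exact absurd h (not_le.2 (ka_lt (not_le.1 hc)))

/-- the promoted woman is the first one in her tie -/
theorem ka_promoted {r : Fin n → Fin n → ℕ} {m w w' : Fin n} (h : ka r w m w' < ka r w m w) :
    r m w' < r m w := by
  by_contra hc
  have h1 : r m w ≤ r m w' := not_lt.1 hc
  have h2 : r m w * (n + 1) ≤ r m w' * (n + 1) := Nat.mul_le_mul_right _ h1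
  unfold ka at h
  rw [if_pos rfl] at h
  omega

theorem kb_lt {s : Fin n → Fin n → ℕ} {β : ℕ} {w m m' : Fin n} (h : s w m < s w m') :
    kb s β w m < kb s β w m' := by
  unfold kb
  have h1 : s w m * n + n ≤ s w m' * n := by nlinarith
  have h2 : (if β = 0 then (m : ℕ) else n - 1 - m) < n := by
    have := m.2
    split_ifs <;> omega
  omega

theorem kb_inj (s : Fin n → Fin n → ℕ) (β : ℕ) (w : Fin n) : Injective (kb s β w) := by
  intro m m' h
  rcases lt_trichotomy (s w m) (s w m') with h1 | h1 | h1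
  · exact absurd h (kb_lt h1).ne
  · unfold kb at h
    rw [h1] at h
    refine Fin.ext ?_
    have h2 := m.2
    have h3 := m'.2
    split_ifs at h <;> omega
  · exact absurd h (kb_lt h1).ne'

theorem kb_le {s : Fin n → Fin n → ℕ} {β : ℕ} {w m m' : Fin n} (h : kb s β w m ≤ kb s β w m') :
    s w m ≤ s w m' := by
  by_contra hc
  exact absurd h (not_le.2 (kb_lt (not_le.1 hc)))

/-- the lists of all men -/
def KA (r : Fin n → Fin n → ℕ) (ν : Fin n → ℕ) (m w : Fin n) : ℕ := ka r (ν m) m w

/-- the lists of all women -/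
def KB (s : Fin n → Fin n → ℕ) (π : Fin n → ℕ) (w m : Fin n) : ℕ := kb s (π w) w m

theorem KA_inj (r : Fin n → Fin n → ℕ) (ν : Fin n → ℕ) (m : Fin n) : Injective (KA r ν m) :=
  ka_inj r _ m

theorem KB_inj (s : Fin n → Fin n → ℕ) (π : Fin n → ℕ) (w : Fin n) : Injective (KB s π w) :=
  kb_inj s _ w

theorem stable_of_keys {r s : Fin n → Fin n → ℕ} {ν π : Fin n → ℕ} {M : Equiv.Perm (Fin n)}
    (h : Stable (KA r ν) (KB s π) M) : Stable r s M := by
  rintro m j ⟨h1, h2⟩
  exact h m j ⟨ka_lt h1, kb_lt h2⟩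

/-- ties in the lists of the women have length at most two -/
def Ties2 (s : Fin n → Fin n → ℕ) : Prop :=
  ∀ w m₁ m₂ m₃, s w m₁ = s w m₂ → s w m₂ = s w m₃ → m₁ = m₂ ∨ m₂ = m₃ ∨ m₁ = m₃

/-- a weakly stable matching is stable for suitable lists in which its pairs are promoted -/
theorem exists_keys {r s : Fin n → Fin n → ℕ} (hs : Ties2 s) {M : Equiv.Perm (Fin n)}
    (hM : Stable r s M) : ∃ π : Fin n → ℕ, (∀ w, π w = 0 ∨ π w = 1) ∧
      Stable (KA r fun m => (M m : ℕ)) (KB s π) M := by
  classical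
  refine ⟨fun w => if ∃ m, s w m = s w (M.symm w) ∧ m < M.symm w then 1 else 0, fun w => ?_, ?_⟩
  · by_cases h : ∃ m, s w m = s w (M.symm w) ∧ m < M.symm w
    · right; simp [h]
    · left; simp [h]
  · rintro m j ⟨h1, h2⟩
    have h3 : r m (M j) < r m (M m) := ka_promoted h1
    have h4 : ¬ s (M j) m < s (M j) j := fun h4 => hM m j ⟨h3, h4⟩
    have h5 : s (M j) m = s (M j) j := le_antisymm (kb_le (by exact h2.le)) (not_lt.1 h4)
    have h6 : m ≠ j := fun h => by subst h; exact lt_irrefl _ h2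
    have h7 := m.2
    have h8 := j.2
    have h9 : (m : ℕ) ≠ j := fun h => h6 (Fin.ext h)
    by_cases h : ∃ k, s (M j) k = s (M j) (M.symm (M j)) ∧ k < M.symm (M j)
    · simp only [KB, kb, h, if_true, one_ne_zero, if_false, h5] at h2
      rw [Equiv.symm_apply_apply] at h
      obtain ⟨k, hk1, hk2⟩ := h
      have hk3 : (k : ℕ) < j := hk2
      rcases hs (M j) m j k h5 hk1.symm with h | h | h
      · exact h6 h
      · rw [h] at hk3; exact lt_irrefl _ hk3
      · subst h
        omega
    · simp only [KB, kb, h, if_false, if_true, h5] at h2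
      apply h
      refine ⟨m, by rw [Equiv.symm_apply_apply]; exact h5, ?_⟩
      rw [Equiv.symm_apply_apply]
      exact Fin.lt_def.2 (by omega)

/-! ### sums over product sets -/

/-- a sum over families in which every function reads only its own coordinates -/
theorem sum_diag {P : Type} [AddCommMonoid P] (A B : Fin n → Finset ℕ) (μ : Fin n → Fin n)
    (H : (Fin n → ℕ) → (Fin n → ℕ) → P) :
    ∑ x ∈ Fintype.piFinset (fun m => A m ×ˢ Fintype.piFinset B),
        H (fun m => (x m).1) (fun w => (x (μ w)).2 w) =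
      (∏ w, (B w).card ^ (n - 1)) •
        ∑ y ∈ Fintype.piFinset A ×ˢ Fintype.piFinset B, H y.1 y.2 := by
  classical
  let Φ : (Fin n → ℕ × (Fin n → ℕ)) → (Fin n → ℕ) × (Fin n → ℕ) :=
    fun x => (fun m => (x m).1, fun w => (x (μ w)).2 w)
  have hmaps : ∀ x ∈ Fintype.piFinset (fun m => A m ×ˢ Fintype.piFinset B),
      Φ x ∈ Fintype.piFinset A ×ˢ Fintype.piFinset B := by
    intro x hx
    rw [Fintype.mem_piFinset] at hx
    rw [mem_product, Fintype.mem_piFinset, Fintype.mem_piFinset]
    refine ⟨fun m => (mem_product.1 (hx m)).1, fun w => ?_⟩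
    exact Fintype.mem_piFinset.1 (mem_product.1 (hx (μ w))).2 w
  rw [← sum_fiberwise_of_maps_to hmaps, smul_sum]
  refine sum_congr rfl fun y hy => ?_
  rw [mem_product, Fintype.mem_piFinset, Fintype.mem_piFinset] at hy
  have h1 : ∀ x ∈ (Fintype.piFinset (fun m => A m ×ˢ Fintype.piFinset B)).filter
      (fun x => Φ x = y), H (fun m => (x m).1) (fun w => (x (μ w)).2 w) = H y.1 y.2 := by
    intro x hx
    have h2 := (mem_filter.1 hx).2
    rw [← h2]
  rw [sum_congr rfl h1, sum_const]
  congr 1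
  have h2 : (Fintype.piFinset (fun m => A m ×ˢ Fintype.piFinset B)).filter (fun x => Φ x = y) =
      Fintype.piFinset (fun m => {y.1 m} ×ˢ
        Fintype.piFinset (fun w => if m = μ w then {y.2 w} else B w)) := by
    ext x
    simp only [mem_filter, Fintype.mem_piFinset, mem_product, mem_singleton, Prod.ext_iff, Φ,
      funext_iff]
    constructor
    · rintro ⟨h3, h4, h5⟩ m
      refine ⟨h4 m, fun w => ?_⟩
      split_ifs with h6
      · rw [mem_singleton, ← h5 w, h6]
      · exact (h3 m).2 w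
    · intro h3
      refine ⟨fun m => ⟨?_, fun w => ?_⟩, fun m => (h3 m).1, fun w => ?_⟩
      · rw [(h3 m).1]; exact hy.1 m
      · have h4 := (h3 m).2 w
        split_ifs at h4 with h6
        · rw [mem_singleton] at h4
          rw [h4]; exact hy.2 w
        · exact h4
      · have h4 := (h3 (μ w)).2 w
        rw [if_pos rfl, mem_singleton] at h4
        exact h4
  rw [h2, Fintype.card_piFinset]
  have h3 : ∀ m, (({y.1 m} : Finset ℕ) ×ˢ
        Fintype.piFinset (fun w => if m = μ w then {y.2 w} else B w)).card =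
      ∏ w, if m = μ w then 1 else (B w).card := by
    intro m
    rw [card_product, card_singleton, one_mul, Fintype.card_piFinset]
    refine prod_congr rfl fun w _ => ?_
    split_ifs <;> simp
  rw [prod_congr rfl fun m _ => h3 m, prod_comm]
  refine prod_congr rfl fun w _ => ?_
  rw [← mul_prod_erase univ _ (mem_univ (μ w)), if_pos rfl, one_mul,
    prod_congr rfl (g := fun _ => (B w).card) (fun m hm => if_neg (ne_of_mem_erase hm)),
    prod_const, card_erase_of_mem (mem_univ _), card_univ, Fintype.card_fin]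

/-- the row of `m`, summed over the choices -/
noncomputable def Rw (r s : Fin n → Fin n → ℕ) (A B : Fin n → Finset ℕ) (M : Equiv.Perm (Fin n))
    (m j : Fin n) : ℤ :=
  ∑ x ∈ A m ×ˢ Fintype.piFinset B, rw1 (fun _ => ka r x.1 m) (KB s x.2) M m j

open Classical in
/-- the number of choices for which `M` is the matching without rotations -/
noncomputable def cnt (r s : Fin n → Fin n → ℕ) (A B : Fin n → Finset ℕ)
    (M : Equiv.Perm (Fin n)) : ℕ :=
  ((Fintype.piFinset A ×ˢ Fintype.piFinset B).filter fun y =>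
    Stable (KA r y.1) (KB s y.2) M ∧ ¬ Bad (KA r y.1) (KB s y.2) M).card

/-- preferences of a woman between two men who are not tied do not depend on the choice -/
theorem kb_lt_iff {s : Fin n → Fin n → ℕ} {w m j : Fin n} (h : s w m ≠ s w j) (β β' : ℕ) :
    kb s β w m < kb s β w j ↔ kb s β' w m < kb s β' w j := by
  rcases lt_or_gt_of_ne h with h | h
  · exact ⟨fun _ => kb_lt h, fun _ => kb_lt h⟩
  · exact ⟨fun h' => absurd h' (kb_lt h).not_gt, fun h' => absurd h' (kb_lt h).not_gt⟩

theorem det_Rw {r s : Fin n → Fin n → ℕ} (hs : Ties2 s) (A B : Fin n → Finset ℕ)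
    (M : Equiv.Perm (Fin n)) :
    (of (Rw r s A B M)).det = ((∏ w, (B w).card ^ (n - 1)) * cnt r s A B M : ℕ) := by
  classical
  -- the man who is tied with the husband of `w`
  let μ : Fin n → Fin n := fun w =>
    if h : ∃ m, m ≠ M.symm w ∧ s w m = s w (M.symm w) then h.choose else M.symm w
  have hμ : ∀ w m, m ≠ M.symm w → s w m = s w (M.symm w) → μ w = m := by
    intro w m h1 h2
    have h : ∃ m, m ≠ M.symm w ∧ s w m = s w (M.symm w) := ⟨m, h1, h2⟩
    have h3 : μ w = h.choose := dif_pos h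
    have h4 := h.choose_spec
    rw [← h3] at h4
    rcases hs w (μ w) (M.symm w) m h4.2 h2.symm with h5 | h5 | h5
    · exact absurd h5 h4.1
    · exact absurd h5.symm h1
    · exact h5
  have h1 : (of (Rw r s A B M)).det = ∑ x ∈ Fintype.piFinset (fun m => A m ×ˢ Fintype.piFinset B),
      (of fun m => rw1 (fun _ => ka r (x m).1 m) (KB s (x m).2) M m).det := by
    have h2 := (Matrix.detRowAlternating (n := Fin n) (R := ℤ)).toMultilinearMap.map_sum_finset
      (fun (m : Fin n) (x : ℕ × (Fin n → ℕ)) => rw1 (fun _ => ka r x.1 m) (KB s x.2) M m)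
      (fun m => A m ×ˢ Fintype.piFinset B)
    have h3 : (fun m => ∑ x ∈ A m ×ˢ Fintype.piFinset B,
        rw1 (fun _ => ka r x.1 m) (KB s x.2) M m) = Rw r s A B M := by
      funext m j
      simp [Rw, Finset.sum_apply]
    rw [h3] at h2
    exact h2
  rw [h1]
  have h4 : ∀ x : Fin n → ℕ × (Fin n → ℕ),
      (of fun m => rw1 (fun _ => ka r (x m).1 m) (KB s (x m).2) M m).det =
      (fun (ν π : Fin n → ℕ) => if Stable (KA r ν) (KB s π) M ∧ ¬ Bad (KA r ν) (KB s π) M
        then (1 : ℤ) else 0) (fun m => (x m).1) (fun w => (x (μ w)).2 w) := by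
    intro x
    simp only
    rw [← det_rw1 (KA_inj r _) M]
    congr 1
    ext m j
    simp only [of_apply]
    have h5 : ∀ j, KB s (x m).2 (M j) m < KB s (x m).2 (M j) j ↔
        KB s (fun w => (x (μ w)).2 w) (M j) m < KB s (fun w => (x (μ w)).2 w) (M j) j := by
      intro j
      by_cases h6 : s (M j) m = s (M j) j
      · by_cases h7 : m = j
        · subst h7; simp
        · have h8 := hμ (M j) m (by rwa [Equiv.symm_apply_apply])
            (by rwa [Equiv.symm_apply_apply])
          simp only [KB, h8]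
      · exact kb_lt_iff h6 _ _
    have h6 : Ok (fun _ => ka r (x m).1 m) (KB s (x m).2) M m ↔
        Ok (KA r fun m => (x m).1) (KB s fun w => (x (μ w)).2 w) M m := by
      unfold Ok
      simp only [h5]
      rfl
    have h7 : Nx (fun _ => ka r (x m).1 m) (KB s (x m).2) M m j ↔
        Nx (KA r fun m => (x m).1) (KB s fun w => (x (μ w)).2 w) M m j := by
      unfold Nx
      simp only [h5]
      rfl
    unfold rw1
    simp only [h6, h7]
  rw [sum_congr rfl fun x _ => h4 x, sum_diag A B μ (fun (ν π : Fin n → ℕ) =>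
    if Stable (KA r ν) (KB s π) M ∧ ¬ Bad (KA r ν) (KB s π) M then (1 : ℤ) else 0)]
  rw [sum_ite, sum_const_zero, add_zero, sum_const]
  unfold cnt
  simp only [smul_eq_mul, nsmul_eq_mul, mul_one]
  push_cast
  rfl

/-- every choice of the ties belongs to exactly one matching -/
theorem sum_cnt (r s : Fin n → Fin n → ℕ) (A B : Fin n → Finset ℕ) :
    ∑ M : Equiv.Perm (Fin n), cnt r s A B M = (∏ m, (A m).card) * ∏ w, (B w).card := by
  classical
  unfold cnt
  simp only [card_filter]
  rw [sum_comm]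
  have h1 : ∀ y : (Fin n → ℕ) × (Fin n → ℕ), (∑ M : Equiv.Perm (Fin n),
      if Stable (KA r y.1) (KB s y.2) M ∧ ¬ Bad (KA r y.1) (KB s y.2) M then 1 else 0) = 1 := by
    intro y
    obtain ⟨M, h1, h2, -⟩ := exists_gs (KA_inj r y.1) (KB_inj s y.2)
    rw [sum_eq_single M]
    · simp [h1, h2]
    · intro N _ hne
      rw [if_neg]
      rintro ⟨h3, h4⟩
      exact hne (unique_of_not_bad (KA_inj r y.1) (KB_inj s y.2) h3 h1 h4 h2)
    · intro h
      exact absurd (mem_univ _) h
  rw [sum_congr rfl fun y _ => h1 y, sum_const, smul_eq_mul, mul_one, card_product,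
    Fintype.card_piFinset, Fintype.card_piFinset]

/-- some choice belongs to a matching which is not in `L` -/
def Missing (r s : Fin n → Fin n → ℕ) (A B : Fin n → Finset ℕ)
    (L : List (Equiv.Perm (Fin n))) : Prop :=
  ∃ ν ∈ Fintype.piFinset A, ∃ π ∈ Fintype.piFinset B, ∀ M : Equiv.Perm (Fin n),
    Stable (KA r ν) (KB s π) M → ¬ Bad (KA r ν) (KB s π) M → M ∉ L

theorem missing_iff {r s : Fin n → Fin n → ℕ} (hs : Ties2 s) (A B : Fin n → Finset ℕ)
    (hB : ∀ w, (B w).Nonempty) (L : List (Equiv.Perm (Fin n))) (hL : L.Nodup) :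
    Missing r s A B L ↔ (L.map fun M => (of (Rw r s A B M)).det).sum ≠
      ((∏ m, (A m).card) * ∏ w, (B w).card ^ n : ℕ) := by
  classical
  have h1 : (L.map fun M => (of (Rw r s A B M)).det).sum =
      ((∏ w, (B w).card ^ (n - 1)) * ∑ M ∈ L.toFinset, cnt r s A B M : ℕ) := by
    rw [List.sum_toFinset _ hL]
    have h0 : ∀ l : List (Equiv.Perm (Fin n)), (l.map fun M => (of (Rw r s A B M)).det).sum =
        ((∏ w, (B w).card ^ (n - 1)) * (l.map fun M => cnt r s A B M).sum : ℕ) := by
      intro l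
      induction l with
      | nil => simp
      | cons M l ih =>
          simp only [List.map_cons, List.sum_cons]
          rw [ih, det_Rw hs]
          push_cast
          ring
    exact h0 L
  rw [h1]
  have hpos : 0 < ∏ w, (B w).card ^ (n - 1) := prod_pos fun w _ => pow_pos (card_pos.2 (hB w)) _
  have h2 : ((∏ m, (A m).card) * ∏ w, (B w).card ^ n) =
      (∏ w, (B w).card ^ (n - 1)) * ((∏ m, (A m).card) * ∏ w, (B w).card) := by
    have h3 : ∏ w, (B w).card ^ n = (∏ w, (B w).card ^ (n - 1)) * ∏ w, (B w).card := by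
      rw [← prod_mul_distrib]
      refine prod_congr rfl fun w _ => ?_
      have := w.2
      rw [← pow_succ]
      congr 1
      omega
    rw [h3]
    ring
  rw [h2]
  have h3 : (((∏ w, (B w).card ^ (n - 1)) * ∑ M ∈ L.toFinset, cnt r s A B M : ℕ) : ℤ) ≠
      ((∏ w, (B w).card ^ (n - 1)) * ((∏ m, (A m).card) * ∏ w, (B w).card) : ℕ) ↔
      ∑ M ∈ L.toFinset, cnt r s A B M ≠ (∏ m, (A m).card) * ∏ w, (B w).card := by
    rw [Ne, Ne, Nat.cast_inj, Nat.mul_left_cancel_iff hpos]
  rw [h3, ← sum_cnt r s A B, ← sum_add_sum_compl L.toFinset]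
  have h4 : (∑ M ∈ L.toFinset, cnt r s A B M ≠ ∑ M ∈ L.toFinset, cnt r s A B M +
      ∑ M ∈ L.toFinsetᶜ, cnt r s A B M) ↔ ∑ M ∈ L.toFinsetᶜ, cnt r s A B M ≠ 0 := by
    omega
  rw [h4, Ne, sum_eq_zero_iff]
  push Not
  constructor
  · rintro ⟨ν, hν, π, hπ, h5⟩
    obtain ⟨M, h6, h7, -⟩ := exists_gs (KA_inj r ν) (KB_inj s π)
    refine ⟨M, by simpa using h5 M h6 h7, ?_⟩
    unfold cnt
    rw [card_ne_zero]
    exact ⟨(ν, π), by simp only [mem_filter, mem_product]; exact ⟨⟨hν, hπ⟩, h6, h7⟩⟩
  · rintro ⟨M, hM, h5⟩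
    unfold cnt at h5
    rw [card_ne_zero] at h5
    obtain ⟨⟨ν, π⟩, h6⟩ := h5
    simp only [mem_filter, mem_product] at h6
    refine ⟨ν, h6.1.1, π, h6.1.2, fun N h7 h8 hN => ?_⟩
    have h9 := unique_of_not_bad (KA_inj r ν) (KB_inj s π) h7 h6.2.1 h8 h6.2.2
    subst h9
    simp only [mem_compl, List.mem_toFinset] at hM
    exact hM hN

end Pool.Agent.H688.WSM
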