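import Mathlib

/-!
# A signed measure on the linear orders with independent local laws

For distinct numbers `x a` the order `a₁ < a₂ < ... < aₙ` gets the weight
`∏ p (a i) (a (i + 1))` where `p a b = x a / (x a - x b)`. For every `j` the events that `m` comes
before `j` are independent with the probabilities `p m j`.
-/

set_option autoImplicit false
set_option linter.unusedSectionVars false

namespace Pool.Agent.H688.WSM

open List

section

variable {ι F : Type*} [DecidableEq ι] [Field F]

/-- the weight with which `a` comes before `b` -/
def pr (x : ι → F) (a b : ι) : F := x a / (x a - x b)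

theorem pr_add {x : ι → F} {a b : ι} (h : x a ≠ x b) : pr x a b + pr x b a = 1 := by
  have h1 : x a - x b ≠ 0 := sub_ne_zero.2 h
  have h2 : x b - x a ≠ 0 := sub_ne_zero.2 h.symm
  unfold pr
  field_simp
  ring

theorem pr_mul {x : ι → F} {a b z : ι} (hab : x a ≠ x b) (haz : x a ≠ x z) (hzb : x z ≠ x b) :
    pr x a z * pr x z b = pr x a b * (pr x a z - pr x b z) := by
  have h1 : x a - x b ≠ 0 := sub_ne_zero.2 hab
  have h2 : x a - x z ≠ 0 := sub_ne_zero.2 haz
  have h3 : x z - x b ≠ 0 := sub_ne_zero.2 hzb
  have h4 : x b - x z ≠ 0 := sub_ne_zero.2 hzb.symm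
  unfold pr
  field_simp
  ring

/-- the weight of an order -/
def mu (x : ι → F) : List ι → F
  | [] => 1
  | [_] => 1
  | a :: b :: l => pr x a b * mu x (b :: l)

@[simp] theorem mu_nil (x : ι → F) : mu x [] = 1 := rfl

@[simp] theorem mu_singleton (x : ι → F) (a : ι) : mu x [a] = 1 := rfl

theorem mu_cons_cons (x : ι → F) (a b : ι) (l : List ι) :
    mu x (a :: b :: l) = pr x a b * mu x (b :: l) := rfl

/-- does `m` come before `j`? -/
def bef (σ : List ι) (m j : ι) : Bool := decide (σ.idxOf m < σ.idxOf j)

/-- insertions behind a fixed element -/
theorem sum_ins_tail {x : ι → F} (hx : Function.Injective x) (z a : ι) (l : List ι)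
    (ha : z ≠ a) (hz : z ∉ l) (hnd : (a :: l).Nodup) :
    ((permutations'Aux z l).map fun τ => mu x (a :: τ)).sum = pr x a z * mu x (a :: l) := by
  induction l generalizing a with
  | nil => simp [permutations'Aux, mu_cons_cons]
  | cons b l ih =>
      have hzb : z ≠ b := fun h => hz (by simp [h])
      have hab : a ≠ b := by
        intro h
        rw [h] at hnd
        simp at hnd
      have h1 := ih b hzb (fun h => hz (by simp [h])) (List.nodup_cons.1 hnd).2
      rw [permutations'Aux, map_cons, sum_cons, map_map]
      have h2 : ((permutations'Aux z l).map ((fun τ => mu x (a :: τ)) ∘ cons b)).sum =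
          pr x a b * ((permutations'Aux z l).map fun τ => mu x (b :: τ)).sum := by
        rw [← List.sum_map_mul_left]
        rfl
      rw [h2, h1, mu_cons_cons, mu_cons_cons, mu_cons_cons]
      have h3 := pr_mul (x := x) (a := a) (b := b) (z := z) (hx.ne hab) (hx.ne (Ne.symm ha))
        (hx.ne hzb)
      linear_combination (mu x (b :: l)) * h3

theorem bef_cons_self {a z : ι} (h : z ≠ a) (l : List ι) : bef (a :: l) z a = false := by
  unfold bef
  simp [List.idxOf_cons_ne _ (Ne.symm h)]

theorem bef_head {z j : ι} (h : z ≠ j) (l : List ι) : bef (z :: l) z j = true := by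
  unfold bef
  simp [List.idxOf_cons_ne _ h]

theorem bef_cons {a m j : ι} (hm : a ≠ m) (hj : a ≠ j) (l : List ι) :
    bef (a :: l) m j = bef l m j := by
  unfold bef
  simp [List.idxOf_cons_ne _ hm, List.idxOf_cons_ne _ hj]

/-- insertions of `z`, according to the position relative to `j` -/
theorem sum_ins {x : ι → F} (hx : Function.Injective x) (z j : ι) (hzj : z ≠ j) (g : Bool → F)
    (σ : List ι) (hz : z ∉ σ) (hj : j ∈ σ) (hnd : σ.Nodup) :
    ((permutations'Aux z σ).map fun τ => mu x τ * g (bef τ z j)).sum =
      (g true * pr x z j + g false * pr x j z) * mu x σ := by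
  induction σ with
  | nil => simp at hj
  | cons a σ ih =>
      have hza : z ≠ a := fun h => hz (by simp [h])
      have hzσ : z ∉ σ := fun h => hz (by simp [h])
      rw [permutations'Aux, map_cons, sum_cons, map_map]
      by_cases haj : a = j
      · subst haj
        have h2 : ((permutations'Aux z σ).map ((fun τ => mu x τ * g (bef τ z a)) ∘ cons a)).sum =
            g false * ((permutations'Aux z σ).map fun τ => mu x (a :: τ)).sum := by
          rw [← List.sum_map_mul_left]
          congr 1
          refine map_congr_left fun τ _ => ?_
          simp only [Function.comp_apply]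
          rw [bef_cons_self hza, mul_comm]
        rw [h2, sum_ins_tail hx z a σ hza hzσ hnd, bef_head hza, mu_cons_cons]
        ring
      · have hjσ : j ∈ σ := by
          rcases List.mem_cons.1 hj with h | h
          · exact absurd h.symm haj
          · exact h
        obtain ⟨b, σ', rfl⟩ : ∃ b σ', σ = b :: σ' := by
          cases σ with
          | nil => simp at hjσ
          | cons b σ' => exact ⟨b, σ', rfl⟩
        have hzb : z ≠ b := fun h => hzσ (by simp [h])
        have hab : a ≠ b := by
          intro h
          rw [h] at hnd
          simp at hnd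
        have hnd' := (List.nodup_cons.1 hnd).2
        have h1 := ih hzσ hjσ hnd'
        rw [permutations'Aux, map_cons, sum_cons, map_map] at h1
        rw [permutations'Aux, map_cons, sum_cons, map_map]
        have hb : ∀ l : List ι, bef (a :: l) z j = bef l z j := fun l =>
          bef_cons (Ne.symm hza) haj l
        have h2 : ((permutations'Aux z σ').map
            (((fun τ => mu x τ * g (bef τ z j)) ∘ cons a) ∘ cons b)).sum =
            pr x a b * ((permutations'Aux z σ').map
              ((fun τ => mu x τ * g (bef τ z j)) ∘ cons b)).sum := by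
          rw [← List.sum_map_mul_left]
          congr 1
          refine map_congr_left fun τ _ => ?_
          simp only [Function.comp_apply]
          rw [hb, mu_cons_cons, mul_assoc]
        rw [h2]
        simp only [Function.comp_apply]
        rw [hb, bef_head hzj, bef_head hzj, mu_cons_cons, mu_cons_cons, mu_cons_cons,
          mu_cons_cons]
        rw [bef_head hzj, mu_cons_cons] at h1
        have h3 := pr_mul (x := x) (a := a) (b := b) (z := z) (hx.ne hab) (hx.ne (Ne.symm hza))
          (hx.ne hzb)
        have h4 := pr_add (x := x) (a := a) (b := z) (hx.ne (Ne.symm hza))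
        have h5 := pr_add (x := x) (a := b) (b := z) (hx.ne (Ne.symm hzb))
        linear_combination (pr x a b) * h1 + (mu x (b :: σ') * g true) * h3 +
          (pr x a b * mu x (b :: σ') * g true) * h4 - (pr x a b * mu x (b :: σ') * g true) * h5

/-- the insertion of `z` does not change the order of the others -/
theorem bef_of_mem_ins {z m j : ι} (hm : m ≠ z) (hj : j ≠ z) {σ τ : List ι}
    (h : τ ∈ permutations'Aux z σ) : bef τ m j = bef σ m j := by
  induction σ generalizing τ with
  | nil =>
      simp only [permutations'Aux, mem_singleton] at h
      subst h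
      unfold bef
      simp [List.idxOf_cons_ne _ (Ne.symm hm), List.idxOf_cons_ne _ (Ne.symm hj)]
  | cons a σ ih =>
      rw [permutations'Aux, mem_cons, mem_map] at h
      rcases h with rfl | ⟨τ', h, rfl⟩
      · exact bef_cons (Ne.symm hm) (Ne.symm hj) _
      · have h1 := ih h
        unfold bef at h1 ⊢
        rw [decide_eq_decide] at h1 ⊢
        by_cases h2 : a = m
        · subst h2
          by_cases h3 : a = j
          · subst h3; simp
          · simp [List.idxOf_cons_ne _ h3]
        · by_cases h3 : a = j
          · subst h3; simp
          · rw [List.idxOf_cons_ne _ h2, List.idxOf_cons_ne _ h3, List.idxOf_cons_ne _ h2,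
              List.idxOf_cons_ne _ h3]
            omega

/-- the local law -/
theorem sum_law {x : ι → F} (hx : Function.Injective x) (j : ι) (f : ι → Bool → F)
    (S : List ι) (hnd : (S ++ [j]).Nodup) :
    ((permutations' (S ++ [j])).map fun σ => mu x σ * (S.map fun m => f m (bef σ m j)).prod).sum =
      (S.map fun m => f m true * pr x m j + f m false * pr x j m).prod := by
  induction S with
  | nil => simp [permutations', permutations'Aux]
  | cons z S ih =>
      have hnd' : (S ++ [j]).Nodup := (List.nodup_cons.1 hnd).2
      have hz : z ∉ S ++ [j] := (List.nodup_cons.1 hnd).1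
      have hzj : z ≠ j := fun h => hz (by simp [h])
      rw [cons_append, permutations', map_flatMap, List.flatMap_def, sum_flatten, map_map]
      rw [map_cons, prod_cons, ← ih hnd', ← List.sum_map_mul_left]
      congr 1
      refine map_congr_left fun σ hσ => ?_
      have hσ' : σ ~ S ++ [j] := List.mem_permutations'.1 hσ
      simp only [Function.comp_apply]
      have h1 := sum_ins hx z j hzj (f z) σ (fun h => hz (hσ'.subset h))
        (hσ'.symm.subset (by simp)) (hσ'.nodup_iff.2 hnd')
      have h2 : ((permutations'Aux z σ).map fun τ =>
          mu x τ * ((z :: S).map fun m => f m (bef τ m j)).prod).sum =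
          (S.map fun m => f m (bef σ m j)).prod *
            ((permutations'Aux z σ).map fun τ => mu x τ * f z (bef τ z j)).sum := by
        rw [← List.sum_map_mul_left]
        congr 1
        refine map_congr_left fun τ hτ => ?_
        rw [map_cons, prod_cons]
        have h3 : (S.map fun m => f m (bef τ m j)) = S.map fun m => f m (bef σ m j) := by
          refine map_congr_left fun m hm => ?_
          rw [bef_of_mem_ins (fun h => hz (by simp [← h, hm])) (Ne.symm hzj) hτ]
        rw [h3]
        ring
      rw [h2, h1]
      ring

end

/-! ### the orders of `Fin n` -/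

/-- the linear orders of `Fin n`, as lists -/
def ordF (n : ℕ) : Finset (List (Fin n)) := (permutations' (finRange n)).toFinset

theorem mem_ordF {n : ℕ} {σ : List (Fin n)} : σ ∈ ordF n ↔ σ ~ finRange n := by
  unfold ordF
  rw [mem_toFinset, mem_permutations']

theorem mem_of_ordF {n : ℕ} {σ : List (Fin n)} (h : σ ∈ ordF n) (m : Fin n) : m ∈ σ :=
  (mem_ordF.1 h).symm.subset (mem_finRange m)

theorem nodup_of_ordF {n : ℕ} {σ : List (Fin n)} (h : σ ∈ ordF n) : σ.Nodup :=
  (mem_ordF.1 h).nodup_iff.2 (nodup_finRange n)

theorem sum_ordF {n : ℕ} {F : Type*} [AddCommMonoid F] (G : List (Fin n) → F) {l : List (Fin n)}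
    (hl : l ~ finRange n) : ∑ σ ∈ ordF n, G σ = ((permutations' l).map G).sum := by
  have h1 : (permutations' (finRange n)) ~ permutations' l := hl.symm.permutations'
  have h2 : (permutations' (finRange n)).Nodup := by
    rw [← (permutations_perm_permutations' _).nodup_iff]
    exact nodup_permutations _ (nodup_finRange n)
  unfold ordF
  rw [List.sum_toFinset _ h2]
  exact (h1.map G).sum_eq

open Finset in
/-- the local law for `Fin n` -/
theorem sum_law_fin {n : ℕ} {F : Type*} [Field F] {x : Fin n → F} (hx : Function.Injective x)
    (j : Fin n) (f : Fin n → Bool → F) :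
    ∑ σ ∈ ordF n, mu x σ * ∏ m, f m (bef σ m j) =
      ∏ m, if m = j then f m false else f m true * pr x m j + f m false * pr x j m := by
  have hp : ((finRange n).erase j ++ [j]) ~ finRange n :=
    (List.perm_append_comm).trans (List.perm_cons_erase (mem_finRange j)).symm
  have hnd : ((finRange n).erase j ++ [j]).Nodup := hp.nodup_iff.2 (nodup_finRange n)
  have hprod : ∀ g : Fin n → F, ∏ m, g m = (((finRange n).erase j).map g).prod * g j := by
    intro g
    have h1 : ∏ m, g m = ((finRange n).map g).prod := by
      rw [← List.prod_toFinset g (nodup_finRange n)]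
      congr 1
      ext m
      simp
    rw [h1, ← (hp.map g).prod_eq, map_append, prod_append]
    simp
  rw [sum_ordF _ hp]
  have h1 := sum_law hx j f ((finRange n).erase j) hnd
  rw [hprod (fun m => if m = j then f m false else f m true * pr x m j + f m false * pr x j m)]
  rw [if_pos rfl]
  have h2 : (((finRange n).erase j).map fun m =>
      if m = j then f m false else f m true * pr x m j + f m false * pr x j m) =
      ((finRange n).erase j).map fun m => f m true * pr x m j + f m false * pr x j m := by
    refine map_congr_left fun m hm => ?_
    rw [if_neg]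
    rintro rfl
    exact (nodup_finRange n).not_mem_erase hm
  rw [h2, ← h1, ← List.sum_map_mul_right]
  congr 1
  refine map_congr_left fun σ _ => ?_
  rw [hprod (fun m => f m (bef σ m j))]
  have h3 : bef σ j j = false := by unfold bef; simp
  rw [h3, mul_assoc]

end Pool.Agent.H688.WSM
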