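import Pool.Agent.H688.WSM.A
import Pool.Agent.H688.WSM.Ord

/-!
# Keys from promoted women and from orders; the closure lemma
-/

set_option autoImplicit false

namespace Pool.Agent.H688.WSM

open Finset Function

variable {n : ℕ}

/-! ### order-equivalent keys -/

/-- the matching is stable and has no rotation -/
def Gd (a b : Fin n → Fin n → ℕ) (M : Equiv.Perm (Fin n)) : Prop := Stable a b M ∧ ¬ Bad a b M

theorem Gd.congr {a b a' b' : Fin n → Fin n → ℕ} (ha : ∀ m w w', a m w < a m w' ↔ a' m w < a' m w')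
    (hb : ∀ w m m', b w m < b w m' ↔ b' w m < b' w m') (M : Equiv.Perm (Fin n)) :
    Gd a b M ↔ Gd a' b' M := by
  unfold Gd Stable Bad Nx
  simp only [ha, hb]

theorem Gd.unique {a b : Fin n → Fin n → ℕ} (ha : ∀ m, Injective (a m))
    (hb : ∀ w, Injective (b w)) {M N : Equiv.Perm (Fin n)} (hM : Gd a b M) (hN : Gd a b N) :
    M = N := unique_of_not_bad ha hb hM.1 hN.1 hM.2 hN.2

theorem Gd.exists {a b : Fin n → Fin n → ℕ} (ha : ∀ m, Injective (a m))
    (hb : ∀ w, Injective (b w)) : ∃ M : Equiv.Perm (Fin n), Gd a b M := by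
  obtain ⟨M, h1, h2, -⟩ := exists_gs ha hb
  exact ⟨M, h1, h2⟩

/-! ### the keys -/

/-- the list of the man `m`: the woman number `v` first in her tie, then the others by number -/
def ka (r : Fin n → Fin n → ℕ) (v : ℕ) (m w : Fin n) : ℕ :=
  r m w * (n + 1) + (if (w : ℕ) = v then 0 else (w : ℕ) + 1)

/-- the list of the woman `w`: ties are broken by the position in the list `σ` -/
def kb (s : Fin n → Fin n → ℕ) (σ : List (Fin n)) (w m : Fin n) : ℕ :=
  s w m * (n + 1) + σ.idxOf m

theorem ka_lt {r : Fin n → Fin n → ℕ} {v : ℕ} {m w w' : Fin n} (h : r m w < r m w') :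
    ka r v m w < ka r v m w' := by
  unfold ka
  have h1 : r m w * (n + 1) + (n + 1) ≤ r m w' * (n + 1) := by nlinarith
  have h2 : (if (w : ℕ) = v then 0 else (w : ℕ) + 1) < n + 1 := by
    have := w.2
    split_ifs <;> omega
  omega

theorem ka_inj (r : Fin n → Fin n → ℕ) (v : ℕ) (m : Fin n) : Injective (ka r v m) := by
  intro w w' h
  rcases lt_trichotomy (r m w) (r m w') with h1 | h1 | h1
  · exact absurd h (ka_lt h1).ne
  · unfold ka at h
    rw [h1] at h
    have h2 : (if (w : ℕ) = v then 0 else (w : ℕ) + 1) = if (w' : ℕ) = v then 0 else (w' : ℕ) + 1 := by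
      omega
    refine Fin.ext ?_
    split_ifs at h2 <;> omega
  · exact absurd h (ka_lt h1).ne'

/-- the promoted woman is the first one in her tie -/
theorem ka_promoted {r : Fin n → Fin n → ℕ} {m w w' : Fin n} (h : ka r w m w' < ka r w m w) :
    r m w' < r m w := by
  by_contra hc
  have h1 : r m w ≤ r m w' := not_lt.1 hc
  have h2 : r m w * (n + 1) ≤ r m w' * (n + 1) := Nat.mul_le_mul_right _ h1
  unfold ka at h
  rw [if_pos rfl] at h
  omega

theorem idxOf_lt {σ : List (Fin n)} (h : σ ∈ ordF n) (m : Fin n) : σ.idxOf m < n := by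
  have h1 := List.idxOf_lt_length_of_mem (mem_of_ordF h m)
  have h2 := (mem_ordF.1 h).length_eq
  rw [List.length_finRange] at h2
  omega

theorem kb_lt {s : Fin n → Fin n → ℕ} {σ : List (Fin n)} (hσ : σ.length ≤ n) {w m m' : Fin n}
    (h : s w m < s w m') : kb s σ w m < kb s σ w m' := by
  unfold kb
  have h1 : s w m * (n + 1) + (n + 1) ≤ s w m' * (n + 1) := by nlinarith
  have h2 := List.idxOf_le_length (a := m) (l := σ)
  omega

theorem length_of_ordF {σ : List (Fin n)} (h : σ ∈ ordF n) : σ.length = n := by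
  have h2 := (mem_ordF.1 h).length_eq
  rwa [List.length_finRange] at h2

theorem kb_inj (s : Fin n → Fin n → ℕ) {σ : List (Fin n)} (hσ : σ ∈ ordF n) (w : Fin n) :
    Injective (kb s σ w) := by
  intro m m' h
  have hl := (length_of_ordF hσ).le
  rcases lt_trichotomy (s w m) (s w m') with h1 | h1 | h1
  · exact absurd h (kb_lt hl h1).ne
  · unfold kb at h
    rw [h1] at h
    have h2 : σ.idxOf m = σ.idxOf m' := by omega
    exact (List.idxOf_inj (mem_of_ordF hσ m)).1 h2
  · exact absurd h (kb_lt hl h1).ne'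

/-- the comparison of two men in the list of a woman -/
theorem kb_lt_iff {s : Fin n → Fin n → ℕ} {σ : List (Fin n)} (hσ : σ.length ≤ n) {w m m' : Fin n} :
    kb s σ w m < kb s σ w m' ↔ s w m < s w m' ∨ (s w m = s w m' ∧ bef σ m m' = true) := by
  constructor
  · intro h
    rcases lt_trichotomy (s w m) (s w m') with h1 | h1 | h1
    · exact Or.inl h1
    · right
      refine ⟨h1, ?_⟩
      unfold kb at h
      rw [h1] at h
      unfold bef
      simp only [decide_eq_true_eq]
      omega
    · exact absurd h (kb_lt hσ h1).not_gt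
  · rintro (h | ⟨h1, h2⟩)
    · exact kb_lt hσ h
    · unfold bef at h2
      simp only [decide_eq_true_eq] at h2
      unfold kb
      rw [h1]
      omega

/-- the lists of all men -/
def KA (r : Fin n → Fin n → ℕ) (ν : Fin n → ℕ) (m w : Fin n) : ℕ := ka r (ν m) m w

/-- the lists of all women -/
def KB (s : Fin n → Fin n → ℕ) (π : Fin n → List (Fin n)) (w m : Fin n) : ℕ := kb s (π w) w m

theorem KA_inj (r : Fin n → Fin n → ℕ) (ν : Fin n → ℕ) (m : Fin n) : Injective (KA r ν m) :=
  ka_inj r _ m

theorem KB_inj (s : Fin n → Fin n → ℕ) {π : Fin n → List (Fin n)} (hπ : ∀ w, π w ∈ ordF n)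
    (w : Fin n) : Injective (KB s π w) := kb_inj s (hπ w) w

theorem stable_of_keys {r s : Fin n → Fin n → ℕ} {ν : Fin n → ℕ} {π : Fin n → List (Fin n)}
    (hπ : ∀ w, (π w).length ≤ n) {M : Equiv.Perm (Fin n)}
    (h : Stable (KA r ν) (KB s π) M) : Stable r s M := by
  rintro m j ⟨h1, h2⟩
  exact h m j ⟨ka_lt h1, kb_lt (hπ _) h2⟩

/-- some choice of the promoted women and of the orders belongs to a matching not in `L` -/
def Miss (r s : Fin n → Fin n → ℕ) (L : List (Equiv.Perm (Fin n))) : Prop :=
  ∃ (ν : Fin n → Fin n) (π : Fin n → List (Fin n)), (∀ w, π w ∈ ordF n) ∧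
    ∀ M ∈ L, ¬ Gd (KA r fun m => (ν m : ℕ)) (KB s π) M

/-! ### moves -/

/-- in the matching `K` the man `b` can take the woman `w`: he is not worse off, she is not better
off, and no pair containing her can block -/
def Alw (r s : Fin n → Fin n → ℕ) (K : Equiv.Perm (Fin n)) (b w : Fin n) : Prop :=
  w = K b ∨ (s w (K.symm w) ≤ s w b ∧ r b w ≤ r b (K b) ∧
    ∀ m, ¬ (s w m < s w b ∧ r m w < r m (K m)))

/-- allowed moves preserve weak stability -/
theorem Alw.stable {r s : Fin n → Fin n → ℕ} {K N : Equiv.Perm (Fin n)} (hK : Stable r s K)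
    (h : ∀ b, Alw r s K b (N b)) : Stable r s N := by
  have hle : ∀ m, r m (N m) ≤ r m (K m) := by
    intro m
    rcases h m with h1 | h1
    · rw [h1]
    · exact h1.2.1
  rintro m j ⟨h1, h2⟩
  rcases h j with h3 | h3
  · rw [h3] at h1 h2
    exact hK m j ⟨h1.trans_le (hle m), h2⟩
  · exact h3.2.2 m ⟨h2, h1.trans_le (hle m)⟩

/-- some allowed move leads out of `L` -/
def Miss2 (r s : Fin n → Fin n → ℕ) (K : Equiv.Perm (Fin n)) (L : List (Equiv.Perm (Fin n))) :
    Prop := ∃ N : Equiv.Perm (Fin n), (∀ b, Alw r s K b (N b)) ∧ N ∉ L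

/-- `N` is at least as good as `K` for all men and at most as good as `K` for all women -/
def Up (r s : Fin n → Fin n → ℕ) (K N : Equiv.Perm (Fin n)) : Prop :=
  (∀ m, r m (N m) ≤ r m (K m)) ∧ ∀ w, s w (K.symm w) ≤ s w (N.symm w)

/-- the distance from `K` to `N` -/
def pot (r : Fin n → Fin n → ℕ) (K N : Equiv.Perm (Fin n)) : ℕ :=
  ∑ m, (2 * r m (K m) + if K m = N m then 0 else 1)

/-- the main lemma: a move towards `N` -/
theorem exists_move {r s : Fin n → Fin n → ℕ} {K N : Equiv.Perm (Fin n)} (hK : Stable r s K)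
    (hN : Stable r s N) (hup : Up r s K N) (hne : K ≠ N) :
    ∃ K' : Equiv.Perm (Fin n), (∀ b, Alw r s K b (K' b)) ∧ Up r s K' N ∧
      pot r K' N < pot r K N := by
  classical
  obtain ⟨hup1, hup2⟩ := hup
  -- the new husband of the woman `w`
  have hh : ∀ w : Fin n, ∃ b : Fin n,
      (b = N.symm w ∨ (r b w < r b (K b) ∧ s w b < s w (N.symm w))) ∧
      ∀ m, ¬ (s w m < s w b ∧ r m w < r m (K m)) := by
    intro w
    let C := (univ : Finset (Fin n)).filter fun m => r m w < r m (K m) ∧ s w m < s w (N.symm w)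
    by_cases hC : C.Nonempty
    · obtain ⟨b, hb, hmin⟩ := C.exists_min_image (fun m => s w m) hC
      simp only [C, mem_filter, mem_univ, true_and] at hb hmin
      refine ⟨b, Or.inr hb, fun m hm => ?_⟩
      have := hmin m ⟨hm.2, hm.1.trans hb.2⟩
      omega
    · refine ⟨N.symm w, Or.inl rfl, fun m hm => hC ⟨m, ?_⟩⟩
      simp [C, hm.1, hm.2]
  choose h hh1 hh2 using hh
  -- facts
  have hge : ∀ w, r (h w) (N (h w)) ≤ r (h w) w := by
    intro w
    rcases hh1 w with e | ⟨e1, e2⟩
    · rw [e, Equiv.apply_symm_apply]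
    · by_contra hc
      exact hN (h w) (N.symm w) ⟨by rw [Equiv.apply_symm_apply]; omega,
        by rw [Equiv.apply_symm_apply]; exact e2⟩
  let g : Fin n → Fin n := fun w => if K.symm w = N.symm w then w else K (h w)
  have hg1 : ∀ w, K.symm w = N.symm w → g w = w := fun w e => if_pos e
  have hg2 : ∀ w, K.symm w ≠ N.symm w → g w = K (h w) := fun w e => if_neg e
  have hKN : ∀ w, K.symm w ≠ N.symm w → K (h w) ≠ N (h w) := by
    intro w hw he
    rcases hh1 w with e | ⟨e1, e2⟩
    · rw [e, Equiv.apply_symm_apply] at he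
      apply hw
      rw [← he, Equiv.symm_apply_apply, he]
    · have := hge w
      rw [← he] at this
      omega
  have hg3 : ∀ w, K.symm w ≠ N.symm w → K.symm (g w) ≠ N.symm (g w) := by
    intro w hw he
    rw [hg2 w hw, Equiv.symm_apply_apply] at he
    apply hKN w hw
    have := congrArg N he
    rw [Equiv.apply_symm_apply] at this
    exact this.symm
  -- the periodic points
  let Z : Set (Fin n) := periodicPts g
  have hbij : Set.BijOn g Z Z := bijOn_periodicPts g
  let gh : Fin n → Fin n := fun w => if w ∈ Z then g w else w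
  have gh_inj : Injective gh := by
    intro w w' hww
    by_cases h1 : w ∈ Z <;> by_cases h2 : w' ∈ Z
    · simp only [gh, if_pos h1, if_pos h2] at hww
      exact hbij.injOn h1 h2 hww
    · simp only [gh, if_pos h1, if_neg h2] at hww
      exact absurd (hww ▸ hbij.mapsTo h1) h2
    · simp only [gh, if_neg h1, if_pos h2] at hww
      exact absurd (hww ▸ hbij.mapsTo h2) h1
    · simpa only [gh, if_neg h1, if_neg h2] using hww
  let e : Equiv.Perm (Fin n) := Equiv.ofBijective gh (Finite.injective_iff_bijective.1 gh_inj)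
  have he : ∀ w, e w = gh w := fun w => rfl
  -- the new matching: `w` marries the `K`-husband of `e w`
  let K' : Equiv.Perm (Fin n) := (e.trans K.symm).symm
  have hK' : ∀ w, K'.symm w = K.symm (gh w) := fun w => rfl
  have hmv : ∀ w, (K.symm w ≠ N.symm w ∧ w ∈ Z ∧ K'.symm w = h w) ∨ K'.symm w = K.symm w := by
    intro w
    by_cases h1 : w ∈ Z
    · by_cases h2 : K.symm w = N.symm w
      · right
        rw [hK']
        simp only [gh, if_pos h1, hg1 w h2]
      · left
        refine ⟨h2, h1, ?_⟩
        rw [hK']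
        simp only [gh, if_pos h1, hg2 w h2, Equiv.symm_apply_apply]
    · right
      rw [hK']
      simp only [gh, if_neg h1]
  have hmv' : ∀ b, (K.symm (K' b) ≠ N.symm (K' b) ∧ K' b ∈ Z ∧ b = h (K' b)) ∨ K' b = K b := by
    intro b
    rcases hmv (K' b) with h1 | h1
    · rw [Equiv.symm_apply_apply] at h1
      exact Or.inl h1
    · right
      rw [Equiv.symm_apply_apply] at h1
      have := congrArg K h1
      rw [Equiv.apply_symm_apply] at this
      exact this.symm
  -- a moved man
  have hcase : ∀ b w, b = h w → K.symm w ≠ N.symm w →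
      s w (K.symm w) ≤ s w b ∧ s w b ≤ s w (N.symm w) ∧ r b (N b) ≤ r b w ∧
      2 * r b w + (if w = N b then 0 else 1) < 2 * r b (K b) + (if K b = N b then 0 else 1) := by
    rintro b w rfl hw
    have h1 := hge w
    have h2 := hKN w hw
    rcases hh1 w with e1 | ⟨e1, e2⟩
    · have e3 : N (h w) = w := by rw [e1, Equiv.apply_symm_apply]
      have e4 := hup1 (h w)
      have e5 := hup2 w
      rw [e3] at e4
      refine ⟨by rw [e1]; exact e5, by rw [e1], h1, ?_⟩
      rw [if_pos e3.symm, if_neg h2]
      omega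
    · refine ⟨?_, e2.le, h1, ?_⟩
      · by_contra hc
        exact hK (h w) (K.symm w) ⟨by rw [Equiv.apply_symm_apply]; exact e1,
          by rw [Equiv.apply_symm_apply]; omega⟩
      · rw [if_neg h2]
        split_ifs <;> omega
  have hle : ∀ b, 2 * r b (K' b) + (if K' b = N b then 0 else 1) ≤
      2 * r b (K b) + (if K b = N b then 0 else 1) := by
    intro b
    rcases hmv' b with ⟨h1, -, h3⟩ | h1
    · exact (hcase b (K' b) h3 h1).2.2.2.le
    · rw [h1]
  refine ⟨K', fun b => ?_, ⟨fun b => ?_, fun w => ?_⟩, ?_⟩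
  · rcases hmv' b with ⟨h1, h2, h3⟩ | h1
    · right
      obtain ⟨c1, c2, c3, c4⟩ := hcase b (K' b) h3 h1
      refine ⟨c1, ?_, ?_⟩
      · rcases hh1 (K' b) with e1 | ⟨e1, -⟩
        · rw [← h3] at e1
          have e2 : N b = K' b := by
            have := congrArg N e1
            rwa [Equiv.apply_symm_apply] at this
          rw [← e2]
          exact hup1 b
        · rw [← h3] at e1
          exact e1.le
      · have := hh2 (K' b)
        rw [← h3] at this
        exact this
    · exact Or.inl h1
  · rcases hmv' b with ⟨h1, h2, h3⟩ | h1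
    · exact (hcase b (K' b) h3 h1).2.2.1
    · rw [h1]; exact hup1 b
  · rcases hmv w with ⟨h1, h2, h3⟩ | h1
    · rw [h3]
      exact (hcase (h w) w rfl h1).2.1
    · rw [h1]; exact hup2 w
  · -- somebody moves
    have hex : ∃ w, K.symm w ≠ N.symm w := by
      by_contra hc
      push Not at hc
      apply hne
      refine Equiv.ext fun m => ?_
      have := hc (K m)
      rw [Equiv.symm_apply_apply] at this
      rw [this, Equiv.apply_symm_apply, ← this]
    obtain ⟨w₀, hw₀⟩ := hex
    have hit : ∀ k, K.symm (g^[k] w₀) ≠ N.symm (g^[k] w₀) := by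
      intro k
      induction k with
      | zero => exact hw₀
      | succ k ih =>
          rw [iterate_succ_apply']
          exact hg3 _ ih
    obtain ⟨i, j, hij, heq⟩ : ∃ i j, i ≠ j ∧ g^[i] w₀ = g^[j] w₀ := by
      have := Finite.exists_ne_map_eq_of_infinite fun k : ℕ => g^[k] w₀
      exact this
    have hper : ∃ w, K.symm w ≠ N.symm w ∧ w ∈ Z := by
      wlog hlt : i < j generalizing i j
      · exact this j i (Ne.symm hij) heq.symm (by omega)
      refine ⟨g^[i] w₀, hit i, ?_⟩
      refine mk_mem_periodicPts (n := j - i) (by omega) ?_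
      change g^[j - i] (g^[i] w₀) = g^[i] w₀
      rw [← iterate_add_apply, show j - i + i = j by omega, heq]
    obtain ⟨w, hw1, hw2⟩ := hper
    have hmoved : K'.symm w = h w := by
      rw [hK']
      simp only [gh, if_pos hw2, hg2 w hw1, Equiv.symm_apply_apply]
    have hw3 : K' (h w) = w := by rw [← hmoved, Equiv.apply_symm_apply]
    unfold pot
    refine sum_lt_sum (fun b _ => hle b) ⟨h w, mem_univ _, ?_⟩
    rw [hw3]
    exact (hcase (h w) w rfl hw1).2.2.2

/-- If nothing is missing then the list contains all weakly stable matchings. -/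
theorem complete {r s : Fin n → Fin n → ℕ} {L : List (Equiv.Perm (Fin n))}
    (h1 : ¬ Miss r s L) (h2 : ∀ K ∈ L, ¬ Miss2 r s K L) (hL : ∀ K ∈ L, Stable r s K)
    (N : Equiv.Perm (Fin n)) (hN : Stable r s N) : N ∈ L := by
  classical
  -- the lists in which the pairs of `N` are promoted
  let π : Fin n → List (Fin n) := fun w => N.symm w :: (List.finRange n).erase (N.symm w)
  have hπ : ∀ w, π w ∈ ordF n := fun w =>
    mem_ordF.2 (List.perm_cons_erase (List.mem_finRange _)).symm
  have hπ1 : ∀ w, (π w).length ≤ n := fun w => (length_of_ordF (hπ w)).le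
  have hNs : Stable (KA r fun m => (N m : ℕ)) (KB s π) N := by
    rintro m j ⟨e1, e2⟩
    have e3 : r m (N j) < r m (N m) := ka_promoted e1
    have e4 : s (N j) m < s (N j) j := by
      rcases (kb_lt_iff (hπ1 _)).1 e2 with e | ⟨-, e⟩
      · exact e
      · exfalso
        unfold bef at e
        simp only [decide_eq_true_eq] at e
        have : (π (N j)).idxOf j = 0 := by
          simp only [π, Equiv.symm_apply_apply]
          exact List.idxOf_cons_self
        omega
    exact hN m j ⟨e3, e4⟩
  obtain ⟨K, hK1, hK2, hK3, -⟩ := exists_gs (KA_inj r fun m => (N m : ℕ)) (KB_inj s hπ)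
  have hKL : K ∈ L := by
    by_contra hc
    refine h1 ⟨N, π, hπ, fun M hM hg => hc ?_⟩
    rw [Gd.unique (KA_inj r _) (KB_inj s hπ) ⟨hK1, hK2⟩ hg]
    exact hM
  have hup : Up r s K N := by
    constructor
    · intro m
      by_contra hc
      have e1 : ka r (N m) m (K m) < ka r (N m) m (N m) := ka_lt (not_le.1 hc)
      have e2 := hNs m (N.symm (K m))
      rw [Equiv.apply_symm_apply] at e2
      have e3 := hK3 N hNs (K m)
      rw [Equiv.symm_apply_apply] at e3
      have e4 : KB s π (K m) m = KB s π (K m) (N.symm (K m)) :=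
        le_antisymm e3 (not_lt.1 fun e => e2 ⟨e1, e⟩)
      have e5 := KB_inj s hπ (K m) e4
      have e6 : N m = K m := by
        have := congrArg N e5
        rwa [Equiv.apply_symm_apply] at this
      rw [e6] at hc
      exact hc le_rfl
    · intro w
      have e1 := hK3 N hNs w
      by_contra hc
      exact absurd e1 (not_le.2 (kb_lt (hπ1 _) (not_le.1 hc)))
  -- walk up
  have key : ∀ p, ∀ K ∈ L, Up r s K N → pot r K N ≤ p → N ∈ L := by
    intro p
    induction p using Nat.strong_induction_on with
    | _ p ih =>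
      intro K hK hup hp
      by_cases he : K = N
      · exact he ▸ hK
      · obtain ⟨K', e1, e2, e3⟩ := exists_move (hL K hK) hN hup he
        have e4 : K' ∈ L := by
          by_contra hc
          exact h2 K hK ⟨K', e1, hc⟩
        exact ih (pot r K' N) (by omega) K' e4 e2 le_rfl
  exact key _ K hKL hup le_rfl

end Pool.Agent.H688.WSM
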