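import Pool.Agent.H688.WSM.Clo
import Pool.Agent.H688.WSM.B

/-!
# The determinant identity for the signed measure
-/

set_option autoImplicit false
set_option linter.unusedSectionVars false

namespace Pool.Agent.H688.WSM

open Finset Function Matrix

variable {n : ℕ}

/-- `c w` says whether the woman `w` prefers the man `m` to her husband -/
def OkB (a : Fin n → ℕ) (M : Equiv.Perm (Fin n)) (m : Fin n) (c : Fin n → Bool) : Prop :=
  ∀ w, ¬ (a w < a (M m) ∧ c w = true)

/-- the next man in the rotation -/
def NxB (a : Fin n → ℕ) (M : Equiv.Perm (Fin n)) (m : Fin n) (c : Fin n → Bool) (j : Fin n) :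
    Prop :=
  a (M m) < a (M j) ∧ c (M j) = true ∧ ∀ w, ¬ (a (M m) < a w ∧ a w < a (M j) ∧ c w = true)

open Classical in
/-- a row of the matrix -/
noncomputable def rowB (a : Fin n → ℕ) (M : Equiv.Perm (Fin n)) (m : Fin n) (c : Fin n → Bool)
    (j : Fin n) : ℤ :=
  if OkB a M m c then (if j = m then 1 else 0) - (if NxB a M m c j then 1 else 0) else 0

/-- stable and without rotations, in terms of the bits -/
def GoodB (a : Fin n → Fin n → ℕ) (M : Equiv.Perm (Fin n)) (C : Fin n → Fin n → Bool) : Prop :=
  (∀ m, OkB (a m) M m (C m)) ∧ ¬ HasCl (fun m j => NxB (a m) M m (C m) j)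

theorem nxB_unique {a : Fin n → ℕ} (ha : Injective a) {M : Equiv.Perm (Fin n)} {m : Fin n}
    {c : Fin n → Bool} {j j' : Fin n} (h : NxB a M m c j) (h' : NxB a M m c j') : j = j' := by
  have h1 := h.2.2 (M j')
  have h2 := h'.2.2 (M j)
  have h3 := h.1
  have h4 := h'.1
  have h5 := h.2.1
  have h6 := h'.2.1
  have h7 : ¬ a (M j') < a (M j) := fun h8 => h1 ⟨h4, h8, h6⟩
  have h8 : ¬ a (M j) < a (M j') := fun h8 => h2 ⟨h3, h8, h5⟩
  exact M.injective (ha (by omega))

open Classical in
theorem det_rowB {a : Fin n → Fin n → ℕ} (ha : ∀ m, Injective (a m)) (M : Equiv.Perm (Fin n))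
    (C : Fin n → Fin n → Bool) :
    (of fun m j => rowB (a m) M m (C m) j).det = if GoodB a M C then 1 else 0 := by
  by_cases hS : ∀ m, OkB (a m) M m (C m)
  · have h1 : (of fun m j => rowB (a m) M m (C m) j) = fm (fun m j => NxB (a m) M m (C m) j) := by
      ext m j
      simp [rowB, fm, hS m]
    rw [h1]
    by_cases hB : HasCl (fun m j => NxB (a m) M m (C m) j)
    · rw [det_fm_zero (F := fun m j => NxB (a m) M m (C m) j) (fun m j j' => nxB_unique (ha m)) hB]
      simp [GoodB, hB]
    · rw [det_fm_one (F := fun m j => NxB (a m) M m (C m) j) hB]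
      simp [GoodB, hS, hB]
  · have hS' := hS
    push Not at hS'
    obtain ⟨m, hm⟩ := hS'
    rw [Matrix.det_eq_zero_of_row_eq_zero m]
    · simp [GoodB, hS]
    · intro j
      simp [rowB, hm]

section

variable {F : Type*} [Field F]

/-- weight of a vector of bits -/
def wt (q : Fin n → F) (c : Fin n → Bool) : F := ∏ w, if c w = true then q w else 1 - q w

theorem sum_bits (f : Fin n → Bool → F) :
    ∑ c : Fin n → Bool, ∏ w, f w (c w) = ∏ w, (f w true + f w false) := by
  have h := Finset.prod_univ_sum (fun _ : Fin n => (univ : Finset Bool)) f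
  rw [Fintype.piFinset_univ] at h
  rw [← h]
  refine prod_congr rfl fun w _ => ?_
  rw [Fintype.sum_bool]

/-- the mean of an entry -/
def mean (a : Fin n → ℕ) (q : Fin n → F) (M : Equiv.Perm (Fin n)) (m j : Fin n) : F :=
  (if j = m then ∏ w, (if a w < a (M m) then 1 - q w else 1) else 0) -
    (if a (M m) < a (M j) then q (M j) * ∏ w, (if a w < a (M j) then 1 - q w else 1) else 0)

theorem sum_rowB {a : Fin n → ℕ} (ha : Injective a) {q : Fin n → F} {M : Equiv.Perm (Fin n)}
    {m : Fin n} (hq : q (M m) = 0) (j : Fin n) :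
    ∑ c : Fin n → Bool, wt q c * (rowB a M m c j : F) = mean a q M m j := by
  classical
  have h1 : ∀ c : Fin n → Bool, wt q c * (rowB a M m c j : F) =
      (if j = m then ∏ w, ((if c w = true then q w else 1 - q w) *
        (if a w < a (M m) ∧ c w = true then 0 else 1)) else 0) -
      (if a (M m) < a (M j) then ∏ w, ((if c w = true then q w else 1 - q w) *
        (if w = M j then (if c w = true then 1 else 0) else
          if (a w < a (M j) ∧ w ≠ M m) ∧ c w = true then 0 else 1)) else 0) := by
    intro c
    have e1 : (∏ w, (if a w < a (M m) ∧ c w = true then (0 : F) else 1)) =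
        if OkB a M m c then 1 else 0 := by
      by_cases h : OkB a M m c
      · rw [if_pos h]
        refine prod_eq_one fun w _ => if_neg (h w)
      · rw [if_neg h]
        unfold OkB at h
        push Not at h
        obtain ⟨w, hw⟩ := h
        exact prod_eq_zero (mem_univ w) (if_pos hw)
    have e2 : a (M m) < a (M j) → (∏ w, (if w = M j then (if c w = true then (1 : F) else 0) else
          if (a w < a (M j) ∧ w ≠ M m) ∧ c w = true then 0 else 1)) =
        if OkB a M m c ∧ NxB a M m c j then 1 else 0 := by
      intro hlt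
      by_cases h : OkB a M m c ∧ NxB a M m c j
      · rw [if_pos h]
        obtain ⟨h1, h2, h3, h4⟩ := h
        refine prod_eq_one fun w _ => ?_
        by_cases hw : w = M j
        · rw [if_pos hw, hw, if_pos h3]
        · rw [if_neg hw, if_neg]
          rintro ⟨⟨h5, h6⟩, h7⟩
          rcases lt_trichotomy (a w) (a (M m)) with h8 | h8 | h8
          · exact h1 w ⟨h8, h7⟩
          · exact h6 (ha h8)
          · exact h4 w ⟨h8, h5, h7⟩
      · rw [if_neg h]
        by_cases h3 : c (M j) = true
        · have h5 : ∃ w, (a w < a (M j) ∧ w ≠ M m) ∧ c w = true := by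
            by_contra hc
            push Not at hc
            refine h ⟨fun w hw => ?_, hlt, h3, fun w hw => ?_⟩
            · exact hc w ⟨hw.1.trans hlt, fun e => absurd hw.1 (by rw [e]; exact lt_irrefl _)⟩ hw.2
            · exact hc w ⟨hw.2.1, fun e => absurd hw.1 (by rw [e]; exact lt_irrefl _)⟩ hw.2.2
          obtain ⟨w, hw⟩ := h5
          refine prod_eq_zero (mem_univ w) ?_
          rw [if_neg, if_pos hw]
          intro e
          rw [e] at hw
          exact lt_irrefl _ hw.1.1
        · refine prod_eq_zero (mem_univ (M j)) ?_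
          rw [if_pos rfl, if_neg h3]
    simp only [prod_mul_distrib]
    rw [e1]
    unfold wt
    by_cases hlt : a (M m) < a (M j)
    · rw [e2 hlt]
      simp only [if_pos hlt]
      unfold rowB
      split_ifs <;> first | (exfalso; tauto) | (push_cast; ring)
    · have h2 : ¬ NxB a M m c j := fun h => hlt h.1
      unfold rowB
      simp only [if_neg h2, if_neg hlt]
      split_ifs <;> (push_cast; ring)
  rw [sum_congr rfl fun c _ => h1 c, sum_sub_distrib]
  unfold mean
  congr 1
  · by_cases h : j = m
    · simp only [if_pos h]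
      rw [sum_bits (fun w b => (if b = true then q w else 1 - q w) *
        (if a w < a (M m) ∧ b = true then 0 else 1))]
      refine prod_congr rfl fun w _ => ?_
      by_cases h2 : a w < a (M m) <;> simp [h2]
    · simp [h]
  · by_cases h : a (M m) < a (M j)
    · simp only [if_pos h]
      rw [sum_bits (fun w b => (if b = true then q w else 1 - q w) *
        (if w = M j then (if b = true then 1 else 0) else
          if (a w < a (M j) ∧ w ≠ M m) ∧ b = true then 0 else 1))]
      rw [← mul_prod_erase univ _ (mem_univ (M j)), ← mul_prod_erase univ (fun w =>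
        if a w < a (M j) then 1 - q w else 1) (mem_univ (M j))]
      rw [if_neg (lt_irrefl _), one_mul]
      congr 1
      · simp
      · refine prod_congr rfl fun w hw => ?_
        have hw' : w ≠ M j := ne_of_mem_erase hw
        by_cases h2 : a w < a (M j)
        · by_cases h3 : w = M m
          · subst h3
            simp [hw', hq]
          · simp [hw', h2, h3]
        · simp [hw', h2]
    · simp [h]

/-- the probability that a woman with the ranks `s` and the husband `j` prefers `m` -/
def qq (x : Fin n → F) (s : Fin n → ℕ) (j m : Fin n) : F :=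
  if s m < s j then 1 else if s m = s j ∧ m ≠ j then pr x m j else 0

theorem qq_self (x : Fin n → F) (s : Fin n → ℕ) (j : Fin n) : qq x s j j = 0 := by
  unfold qq
  simp

/-- does the woman with the order `σ` prefer `m` to her husband `j`? -/
def bit (s : Fin n → ℕ) (σ : List (Fin n)) (j m : Fin n) : Bool :=
  decide (s m < s j) || (decide (s m = s j) && bef σ m j)

theorem law_bits {x : Fin n → F} (hx : Injective x) (s : Fin n → ℕ) (j : Fin n)
    (B : Fin n → Bool) :
    ∑ σ ∈ ordF n, mu x σ * ∏ m, (if bit s σ j m = B m then (1 : F) else 0) =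
      ∏ m, if B m = true then qq x s j m else 1 - qq x s j m := by
  have h := sum_law_fin hx j (fun m b => if (decide (s m < s j) || (decide (s m = s j) && b)) = B m
    then (1 : F) else 0)
  unfold bit
  rw [h]
  refine prod_congr rfl fun m _ => ?_
  unfold qq
  by_cases hm : m = j
  · subst hm
    cases h : B m <;> simp
  · rw [if_neg hm]
    have h1 := pr_add (x := x) (a := m) (b := j) (hx.ne hm)
    rcases lt_trichotomy (s m) (s j) with h2 | h2 | h2
    · cases h : B m <;> simp [h2, h1]
    · cases h : B m
      · simp [h2, hm]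
        linear_combination h1
      · simp [h2, hm]
    · have h3 : ¬ s m < s j := by omega
      have h4 : ¬ s m = s j := by omega
      cases h : B m <;> simp [h3, h4, h1]

/-- the matrix of the matching `M` -/
def RX (r s : Fin n → Fin n → ℕ) (x : Fin n → Fin n → F) (M : Equiv.Perm (Fin n))
    (m j : Fin n) : F :=
  ∑ v : Fin n, mean (ka r v m) (fun w => qq (x w) (s w) (M.symm w) m) M m j

open Classical in
theorem det_RX_bits (r s : Fin n → Fin n → ℕ) (x : Fin n → Fin n → F) (M : Equiv.Perm (Fin n)) :
    (of (RX r s x M)).det = ∑ ν : Fin n → Fin n, ∑ C : Fin n → Fin n → Bool,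
      (∏ m, wt (fun w => qq (x w) (s w) (M.symm w) m) (C m)) *
        (if GoodB (fun m => ka r (ν m) m) M C then 1 else 0) := by
  let q : Fin n → Fin n → F := fun m w => qq (x w) (s w) (M.symm w) m
  have h1 : (RX r s x M : Fin n → Fin n → F) = fun m => ∑ y : Fin n × (Fin n → Bool),
      (wt (q m) y.2) • (fun j => (rowB (ka r y.1 m) M m y.2 j : F)) := by
    funext m j
    rw [Finset.sum_apply, Fintype.sum_prod_type]
    unfold RX
    refine sum_congr rfl fun v _ => ?_
    rw [← sum_rowB (ka_inj r v m) (q := q m) (M := M) (m := m)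
      (by simp only [q, Equiv.symm_apply_apply]; exact qq_self _ _ _) j]
    rfl
  have h2 : (of (RX r s x M)).det = (Matrix.detRowAlternating (n := Fin n) (R := F)).toMultilinearMap
      (fun m => ∑ y : Fin n × (Fin n → Bool),
      (wt (q m) y.2) • (fun j => (rowB (ka r y.1 m) M m y.2 j : F))) := by
    rw [← h1]
    rfl
  rw [h2, MultilinearMap.map_sum]
  have h3 : ∀ y : Fin n → Fin n × (Fin n → Bool),
      (Matrix.detRowAlternating (n := Fin n) (R := F)).toMultilinearMap
        (fun m => (wt (q m) (y m).2) • (fun j => (rowB (ka r (y m).1 m) M m (y m).2 j : F))) =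
      (∏ m, wt (q m) (y m).2) *
        (if GoodB (fun m => ka r (y m).1 m) M (fun m => (y m).2) then 1 else 0) := by
    intro y
    rw [MultilinearMap.map_smul_univ, smul_eq_mul]
    congr 1
    have h4 := det_rowB (a := fun m => ka r (y m).1 m) (fun m => ka_inj r _ m) M
      (fun m => (y m).2)
    have h5 : (Matrix.detRowAlternating (n := Fin n) (R := F)).toMultilinearMap
        (fun m j => (rowB (ka r (y m).1 m) M m (y m).2 j : F)) =
        (((of fun m j => rowB (ka r (y m).1 m) M m (y m).2 j).det : ℤ) : F) := by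
      have h6 := (Int.castRingHom F).map_det (of fun m j => rowB (ka r (y m).1 m) M m (y m).2 j)
      rw [eq_intCast] at h6
      rw [h6]
      rfl
    rw [h5, h4]
    split_ifs <;> simp
  rw [sum_congr rfl fun y _ => h3 y]
  rw [← (Equiv.arrowProdEquivProdArrow (Fin n) (fun _ => Fin n) (fun _ => Fin n → Bool)).symm.sum_comp]
  rw [Fintype.sum_prod_type]
  rfl

/-- sums over the orders of all women and sums over the bits -/
theorem sum_push {x : Fin n → Fin n → F} (hx : ∀ w, Injective (x w)) (s : Fin n → Fin n → ℕ)
    (M : Equiv.Perm (Fin n)) (G : (Fin n → Fin n → Bool) → F) :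
    ∑ C : Fin n → Fin n → Bool,
      (∏ m, wt (fun w => qq (x w) (s w) (M.symm w) m) (C m)) * G C =
    ∑ π ∈ Fintype.piFinset (fun _ : Fin n => ordF n), (∏ w, mu (x w) (π w)) *
      G (fun m w => bit (s w) (π w) (M.symm w) m) := by
  classical
  have h1 : ∀ π : Fin n → List (Fin n), G (fun m w => bit (s w) (π w) (M.symm w) m) =
      ∑ C : Fin n → Fin n → Bool, (∏ w, ∏ m, (if bit (s w) (π w) (M.symm w) m = C m w then
        (1 : F) else 0)) * G C := by
    intro π
    rw [sum_eq_single (fun m w => bit (s w) (π w) (M.symm w) m)]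
    · simp
    · intro C _ hC
      have : ∃ m w, ¬ bit (s w) (π w) (M.symm w) m = C m w := by
        by_contra hc
        push Not at hc
        exact hC (by funext m w; exact (hc m w).symm)
      obtain ⟨m, w, hmw⟩ := this
      rw [prod_eq_zero (mem_univ w) (prod_eq_zero (mem_univ m) (if_neg hmw)), zero_mul]
    · intro h
      exact absurd (mem_univ _) h
  have hR : ∑ π ∈ Fintype.piFinset (fun _ : Fin n => ordF n), (∏ w, mu (x w) (π w)) *
      G (fun m w => bit (s w) (π w) (M.symm w) m) =
      ∑ π ∈ Fintype.piFinset (fun _ : Fin n => ordF n), ∑ C : Fin n → Fin n → Bool,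
        (∏ w, mu (x w) (π w)) * ((∏ w, ∏ m, (if bit (s w) (π w) (M.symm w) m = C m w then
        (1 : F) else 0)) * G C) := by
    refine sum_congr rfl fun π _ => ?_
    rw [h1 π, mul_sum]
  rw [hR, sum_comm]
  refine sum_congr rfl fun C _ => ?_
  have h2 : ∀ π : Fin n → List (Fin n), (∏ w, mu (x w) (π w)) *
      ((∏ w, ∏ m, (if bit (s w) (π w) (M.symm w) m = C m w then (1 : F) else 0)) * G C) =
      (∏ w, (mu (x w) (π w) * ∏ m, (if bit (s w) (π w) (M.symm w) m = C m w then (1 : F) else 0))) *
        G C := by
    intro π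
    rw [prod_mul_distrib, mul_assoc]
  rw [sum_congr rfl fun π _ => h2 π, ← sum_mul]
  congr 1
  have h3 := Finset.prod_univ_sum (fun _ : Fin n => ordF n) (fun w σ =>
    mu (x w) σ * ∏ m, (if bit (s w) σ (M.symm w) m = C m w then (1 : F) else 0))
  rw [← h3]
  unfold wt
  rw [prod_comm]
  refine prod_congr rfl fun w _ => ?_
  exact (law_bits (hx w) (s w) (M.symm w) (fun m => C m w)).symm

open Classical in
/-- the determinant of a matching is its weight -/
theorem det_RX {x : Fin n → Fin n → F} (hx : ∀ w, Injective (x w)) (r s : Fin n → Fin n → ℕ)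
    (M : Equiv.Perm (Fin n)) :
    (of (RX r s x M)).det = ∑ ν : Fin n → Fin n,
      ∑ π ∈ Fintype.piFinset (fun _ : Fin n => ordF n), (∏ w, mu (x w) (π w)) *
        (if Gd (KA r fun m => (ν m : ℕ)) (KB s π) M then 1 else 0) := by
  rw [det_RX_bits]
  refine sum_congr rfl fun ν _ => ?_
  rw [sum_push hx s M (fun C => if GoodB (fun m => ka r (ν m) m) M C then 1 else 0)]
  refine sum_congr rfl fun π hπ => ?_
  rw [Fintype.mem_piFinset] at hπ
  congr 1
  have hb : ∀ m w, bit (s w) (π w) (M.symm w) m = true ↔
      KB s π w m < KB s π w (M.symm w) := by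
    intro m w
    unfold KB bit
    rw [kb_lt_iff (length_of_ordF (hπ w)).le]
    simp
  have h1 : GoodB (fun m => ka r (ν m) m) M (fun m w => bit (s w) (π w) (M.symm w) m) ↔
      Gd (KA r fun m => (ν m : ℕ)) (KB s π) M := by
    unfold GoodB Gd
    refine and_congr ?_ (not_congr ?_)
    · unfold OkB Stable
      simp only [hb]
      constructor
      · intro h m j hh
        refine h m (M j) ⟨hh.1, ?_⟩
        rw [Equiv.symm_apply_apply]
        exact hh.2
      · intro h m w hh
        refine h m (M.symm w) ?_
        rw [Equiv.apply_symm_apply]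
        exact hh
    · unfold HasCl Bad
      have h2 : ∀ m j, NxB (ka r (ν m) m) M m (fun w => bit (s w) (π w) (M.symm w) m) j ↔
          Nx (KA r fun m => (ν m : ℕ)) (KB s π) M m j := by
        intro m j
        unfold NxB Nx
        simp only [hb]
        refine and_congr Iff.rfl (and_congr (by rw [Equiv.symm_apply_apply]) ?_)
        constructor
        · intro h k hk
          refine h (M k) ⟨hk.1, hk.2.1, ?_⟩
          rw [Equiv.symm_apply_apply]
          exact hk.2.2
        · intro h w hw
          refine h (M.symm w) ?_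
          rw [Equiv.apply_symm_apply]
          exact hw
      simp only [h2]
  simp only [h1]

open Classical in
/-- the sum over a list of matchings -/
theorem sum_det_RX {x : Fin n → Fin n → F} (hx : ∀ w, Injective (x w)) (r s : Fin n → Fin n → ℕ)
    {L : List (Equiv.Perm (Fin n))} (hL : L.Nodup) :
    (L.map fun M => (of (RX r s x M)).det).sum = (n : F) ^ n - ∑ ν : Fin n → Fin n,
      ∑ π ∈ Fintype.piFinset (fun _ : Fin n => ordF n), (∏ w, mu (x w) (π w)) *
        (if ∀ M ∈ L, ¬ Gd (KA r fun m => (ν m : ℕ)) (KB s π) M then 1 else 0) := by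
  have h1 : (L.map fun M => (of (RX r s x M)).det).sum = ∑ ν : Fin n → Fin n,
      ∑ π ∈ Fintype.piFinset (fun _ : Fin n => ordF n), (∏ w, mu (x w) (π w)) *
        ∑ M ∈ L.toFinset, (if Gd (KA r fun m => (ν m : ℕ)) (KB s π) M then 1 else 0) := by
    rw [← List.sum_toFinset _ hL, sum_congr rfl fun M _ => det_RX hx r s M, sum_comm]
    refine sum_congr rfl fun ν _ => ?_
    rw [sum_comm]
    refine sum_congr rfl fun π _ => ?_
    rw [mul_sum]
  have h2 : ∀ (ν : Fin n → Fin n), ∀ π ∈ Fintype.piFinset (fun _ : Fin n => ordF n),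
      ∑ M ∈ L.toFinset, (if Gd (KA r fun m => (ν m : ℕ)) (KB s π) M then (1 : F) else 0) =
      1 - (if ∀ M ∈ L, ¬ Gd (KA r fun m => (ν m : ℕ)) (KB s π) M then 1 else 0) := by
    intro ν π hπ
    rw [Fintype.mem_piFinset] at hπ
    obtain ⟨M, hM⟩ := Gd.exists (KA_inj r fun m => (ν m : ℕ)) (KB_inj s hπ)
    by_cases hML : M ∈ L
    · rw [if_neg, sub_zero, sum_eq_single M, if_pos hM]
      · intro N _ hN
        rw [if_neg]
        intro hg
        exact hN (Gd.unique (KA_inj r _) (KB_inj s hπ) hg hM)
      · intro h
        exact absurd (List.mem_toFinset.2 hML) h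
      · intro h
        exact h M hML hM
    · have h3 : ∀ N ∈ L, ¬ Gd (KA r fun m => (ν m : ℕ)) (KB s π) N := by
        intro N hN hg
        rw [Gd.unique (KA_inj r _) (KB_inj s hπ) hM hg] at hML
        exact hML hN
      rw [if_pos h3, sub_self]
      refine sum_eq_zero fun N hN => if_neg (h3 N (List.mem_toFinset.1 hN))
  have h4 : ∑ ν : Fin n → Fin n, ∑ π ∈ Fintype.piFinset (fun _ : Fin n => ordF n),
      (∏ w, mu (x w) (π w)) = (n : F) ^ n := by
    have h5 : ∑ π ∈ Fintype.piFinset (fun _ : Fin n => ordF n), (∏ w, mu (x w) (π w)) = 1 := by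
      rw [← Finset.prod_univ_sum (fun _ : Fin n => ordF n) (fun w σ => mu (x w) σ)]
      refine prod_eq_one fun w _ => ?_
      have h6 := sum_law_fin (hx w) w (fun _ _ => (1 : F))
      simp only [prod_const_one, mul_one, one_mul] at h6
      rw [h6]
      refine prod_eq_one fun m _ => ?_
      by_cases hm : m = w
      · rw [if_pos hm]
      · rw [if_neg hm]
        exact pr_add ((hx w).ne hm)
    rw [sum_congr rfl fun ν _ => h5]
    simp
  rw [h1, ← h4, ← sum_sub_distrib]
  refine sum_congr rfl fun ν _ => ?_
  rw [← sum_sub_distrib]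
  refine sum_congr rfl fun π hπ => ?_
  rw [h2 ν π hπ]
  ring

end

end Pool.Agent.H688.WSM
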