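import Pool.Graph.R_seed8.NPC.Num

/-!
# Loops whose number of rounds is not bounded in advance
-/

set_option autoImplicit false
set_option linter.unusedSectionVars false

namespace Pool.Agent.NPC.H688

open Pool.Agent.NPC Turing Function

variable {α σ β : Type} [TEnc α] [TEnc σ] [TEnc β]

/-- the body of the loop: `c` computes the flag and the new state -/
def body (c : Cmd ℕ) : Cmd ℕ :=
  Cmd.seq (Cmd.pop 1) (Cmd.seq c (Cmd.seq (Cmd.pop 0)
    (Cmd.cases 0 Cmd.skip (Cmd.pop 0)
      (Cmd.seq (Cmd.pop 0) (Cmd.seq (Cmd.pop 0) (Cmd.seq (Cmd.pop 0) (Cmd.push 1 true)))))))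

/-- the loop -/
def whole (c0 c c1 : Cmd ℕ) : Cmd ℕ :=
  Cmd.seq c0 (Cmd.seq (Cmd.push 1 true) (Cmd.seq (Cmd.loop 1 (body c)) c1))

/-- a state on stack `0` and the mark on stack `1` -/
def marked (x : List Bool) : ℕ → List Bool := update (inp x) 1 [true]

theorem pop_marked (x : List Bool) : update (marked x) 1 (marked x 1).tail = inp x := by
  unfold marked
  rw [update_self, update_idem]
  funext i
  by_cases h : i = 1
  · subst h; simp [inp]
  · rw [update_of_ne h]

theorem pop_inp (b : Bool) (x : List Bool) :
    update (inp (b :: x) : ℕ → List Bool) 0 ((inp (b :: x) : ℕ → List Bool) 0).tail = inp x := by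
  unfold inp
  simp

theorem body_false {c : Cmd ℕ} {x y : List Bool} {t : ℕ}
    (h : Runs c (inp x) (inp (true :: false :: y)) t) :
    Runs (body c) (marked x) (inp y) (t + 5) := by
  have h1 := Runs.pop (marked x) 1
  rw [pop_marked] at h1
  have h2 := Runs.pop (inp (true :: false :: y)) 0
  rw [pop_inp] at h2
  have h3 := Runs.pop (inp (false :: y)) 0
  rw [pop_inp] at h3
  have h4 := Runs.casesFalse (k := 0) (c₀ := Cmd.skip) (ct := (Cmd.seq (Cmd.pop 0)
    (Cmd.seq (Cmd.pop 0) (Cmd.seq (Cmd.pop 0) (Cmd.push 1 true))))) (l := y) (by simp [inp]) h3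
  exact (h1.seq (h.seq (h2.seq h4))).mono (by omega)

theorem body_true {c : Cmd ℕ} {x y : List Bool} {t : ℕ}
    (h : Runs c (inp x) (inp (true :: true :: false :: false :: y)) t) :
    Runs (body c) (marked x) (marked y) (t + 8) := by
  have h1 := Runs.pop (marked x) 1
  rw [pop_marked] at h1
  have h2 := Runs.pop (inp (true :: true :: false :: false :: y)) 0
  rw [pop_inp] at h2
  have h3 := Runs.pop (inp (true :: false :: false :: y)) 0
  rw [pop_inp] at h3
  have h4 := Runs.pop (inp (false :: false :: y)) 0
  rw [pop_inp] at h4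
  have h5 := Runs.pop (inp (false :: y)) 0
  rw [pop_inp] at h5
  have h6 := Runs.push (inp y) 1 true
  have h7 : update (inp y) 1 (true :: (inp y : ℕ → List Bool) 1) = marked y := by
    unfold marked
    simp [inp]
  rw [h7] at h6
  have h8 := Runs.casesTrue (k := 0) (c₀ := Cmd.skip) (cf := Cmd.pop 0)
    (l := false :: false :: y) (by simp [inp]) (h3.seq (h4.seq (h5.seq h6)))
  exact (h1.seq (h.seq (h2.seq h8))).mono (by omega)

/-- the loop runs in time polynomial in the sizes of the states and linear in the number of
rounds -/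
theorem loop_runs {F : σ → Bool × σ} {init : α → σ} {g : σ → β} (hF : Poly F) (hi : Poly init)
    (hg : Poly g) : ∃ (c : Cmd ℕ) (p : Polynomial ℕ), ∀ (a : α) (T B : ℕ),
      (∀ i < T, (F ((fun s => (F s).2)^[i] (init a))).1 = true) →
      (F ((fun s => (F s).2)^[T] (init a))).1 = false →
      sz a ≤ B → (∀ i ≤ T + 1, sz ((fun s => (F s).2)^[i] (init a)) ≤ B) →
      Runs c (inp (bits a)) (inp (bits (g ((fun s => (F s).2)^[T + 1] (init a)))))
        ((T + 1) * p.eval B) := by
  obtain ⟨c, p, hc⟩ := hF
  obtain ⟨c0, p0, hc0⟩ := hi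
  obtain ⟨c1, p1, hc1⟩ := hg
  refine ⟨whole c0 c c1, p + p0 + p1 + Polynomial.C 20, ?_⟩
  intro a T B h1 h2 h3 h4
  -- the loop itself
  have key : ∀ (d i : ℕ), i + d = T →
      Runs (Cmd.loop 1 (body c)) (marked (bits ((fun s => (F s).2)^[i] (init a))))
        (inp (bits ((fun s => (F s).2)^[T + 1] (init a)))) ((d + 1) * (p.eval B + 9) + 1) := by
    intro d
    induction d with
    | zero =>
        intro i hi
        have hi' : i = T := by omega
        subst hi'
        set s := (fun s => (F s).2)^[i] (init a) with hs
        have e1 := hc s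
        have e2 : bits (F s) = true :: false :: bits (F s).2 := by
          have : F s = (false, (F s).2) := by rw [← h2]
          rw [this]
          rfl
        rw [e2] at e1
        have e3 := body_false e1
        have e4 : (fun s => (F s).2)^[i + 1] (init a) = (F s).2 := by
          rw [iterate_succ_apply']
        rw [e4]
        have e5 : marked (bits s) 1 ≠ [] := by simp [marked]
        have e6 := Runs.loopNil (k := 1) (c := body c) (s := inp (bits (F s).2)) (by simp [inp])
        have e7 : p.eval (bits s).length ≤ p.eval B := eval_mono p (h4 i (by omega))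
        exact (Runs.loopCons e5 e3 e6).mono (by omega)
    | succ d ih =>
        intro i hi
        set s := (fun s => (F s).2)^[i] (init a) with hs
        have e1 := hc s
        have e2 : bits (F s) = true :: true :: false :: false :: bits (F s).2 := by
          have : F s = (true, (F s).2) := by rw [← h1 i (by omega)]
          rw [this]
          rfl
        rw [e2] at e1
        have e3 := body_true e1
        have e4 : (fun s => (F s).2)^[i + 1] (init a) = (F s).2 := by
          rw [iterate_succ_apply']
        have e5 : marked (bits s) 1 ≠ [] := by simp [marked]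
        have e6 := ih (i + 1) (by omega)
        rw [e4] at e6
        have e7 : p.eval (bits s).length ≤ p.eval B := eval_mono p (h4 i (by omega))
        refine (Runs.loopCons e5 e3 e6).mono ?_
        have e8 : (d + 1 + 1) * (p.eval B + 9) = (d + 1) * (p.eval B + 9) + (p.eval B + 9) := by
          ring
        omega
  have k0 := hc0 a
  have k1 := Runs.push (inp (bits (init a))) 1 true
  have k2 : update (inp (bits (init a))) 1 (true :: (inp (bits (init a)) : ℕ → List Bool) 1) =
      marked (bits (init a)) := by
    unfold marked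
    simp [inp]
  rw [k2] at k1
  have k3 := key T 0 (by omega)
  have k4 := hc1 ((fun s => (F s).2)^[T + 1] (init a))
  have k5 : p0.eval (bits a).length ≤ p0.eval B := eval_mono p0 h3
  have k6 : p1.eval (bits ((fun s => (F s).2)^[T + 1] (init a))).length ≤ p1.eval B :=
    eval_mono p1 (h4 (T + 1) le_rfl)
  refine (k0.seq (k1.seq (k3.seq k4))).mono ?_
  simp only [Polynomial.eval_add, Polynomial.eval_C]
  have k7 : (T + 1) * (p.eval B + 9) + (T + 1) * (p0.eval B + p1.eval B + 11) =
      (T + 1) * (p.eval B + p0.eval B + p1.eval B + 20) := by ring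
  have k8 : p0.eval B + p1.eval B + 11 ≤ (T + 1) * (p0.eval B + p1.eval B + 11) :=
    Nat.le_mul_of_pos_left _ (by omega)
  omega

/-- from a program to a Turing machine of Mathlib -/
theorem machine (c : Cmd ℕ) : ∃ M : TM2ComputableAux Bool Bool, ∀ (x y : List Bool) (t : ℕ),
    Runs c (inp x) (inp y) t → Nonempty (TM2OutputsInTime M.tm (x.map M.inputAlphabet.invFun)
      (some (y.map M.outputAlphabet.invFun)) (t + 1)) := by
  refine ⟨{ tm := (c.map (Fin.ofNat (c.bd + 1))).toTM
            inputAlphabet := Equiv.refl Bool
            outputAlphabet := Equiv.refl Bool }, ?_⟩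
  rintro x y t ⟨t', ht', hr⟩
  have h1 := hr.restrict (n := c.bd) (by omega)
  have h2 : Nonempty (TM2OutputsInTime (c.map (Fin.ofNat (c.bd + 1))).toTM x (some y) (t' + 1)) := by
    refine toTM_outputs ?_
    convert! h1 using 1
    · funext i
      by_cases hi : i = 0
      · subst hi; simp [inp]
      · have : (i : ℕ) ≠ 0 := fun h => hi (Fin.ext h)
        simp [inp, hi, this]
    · funext i
      by_cases hi : i = 0
      · subst hi; simp [inp]
      · have : (i : ℕ) ≠ 0 := fun h => hi (Fin.ext h)
        simp [inp, hi, this]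
  obtain ⟨h3⟩ := h2
  exact ⟨outputs_conv (List.map_id _).symm (List.map_id _).symm (by omega) h3⟩

end Pool.Agent.NPC.H688
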