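import Pool.Agent.H688.WSM.Bridge
import Pool.Agent.H688.WSM.AlgPoly
import Pool.Agent.H688.WSM.Loop

/-!
# The complete listing algorithm
-/

set_option autoImplicit false
set_option linter.unusedSectionVars false

namespace Pool.Agent.H688.WSM

open Finset Function Pool.Agent.NPC Pool.Agent.NPC.H688

/-- the next matching -/
def nx (s : Inp × List (List ℕ)) : List (List ℕ) :=
  (nextG (nI s.1) (gsL s.1) (T1R s.1 s.2) (T2R s.1 s.2) s.2).toList

/-- one round: is there a new matching, and the new state -/
def rnd (s : Inp × List (List ℕ)) : Bool × (Inp × List (List ℕ)) :=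
  (!(nx s).isEmpty, (s.1, s.2 ++ nx s))

/-- the state before the first round -/
def ini (I : Inp) : Inp × List (List ℕ) := (I, [])

theorem rnd_iter (I : Inp) (i : ℕ) : (fun s => (rnd s).2)^[i] (ini I) =
    (I, (ext (nI I) (gsL I) (T1R I) (T2R I))^[i] []) := by
  induction i with
  | zero => rfl
  | succ i ih =>
      rw [iterate_succ_apply', ih, iterate_succ_apply']
      rfl

/-- the list of all matchings found -/
def out (I : Inp) : List (List ℕ) :=
  (ext (nI I) (gsL I) (T1R I) (T2R I))^[(nI I).factorial] []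

theorem out_eq (I : Inp) : out I = alg (I, List.replicate (nI I).factorial ()) := by
  unfold out alg
  simp

variable {n : ℕ}

/-- the number of weakly stable matchings -/
noncomputable def num (r s : Fin n → Fin n → ℕ) : ℕ :=
  Nat.card {M : Equiv.Perm (Fin n) // Stable r s M}

theorem num_eq (r s : Fin n → Fin n → ℕ) [DecidablePred fun M : Equiv.Perm (Fin n) => Stable r s M] :
    num r s = ((univ : Finset (Equiv.Perm (Fin n))).filter fun M => Stable r s M).card := by
  unfold num
  rw [Nat.card_eq_fintype_card, Fintype.card_subtype]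

theorem Lst.length_le_num {r s : Fin n → Fin n → ℕ} {L : List (Equiv.Perm (Fin n))}
    (h : Lst r s L) : L.length ≤ num r s := by
  classical
  rw [num_eq, ← List.toFinset_card_of_nodup h.1]
  refine card_le_card fun M hM => ?_
  rw [mem_filter]
  exact ⟨mem_univ _, h.2 M (List.mem_toFinset.1 hM)⟩

theorem Lst.length_eq_num {r s : Fin n → Fin n → ℕ} {L : List (Equiv.Perm (Fin n))}
    (h : Lst r s L) (hc : Cpl r s L) : L.length = num r s := by
  classical
  refine le_antisymm h.length_le_num ?_
  rw [num_eq, ← List.toFinset_card_of_nodup h.1]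
  refine card_le_card fun M hM => ?_
  rw [mem_filter] at hM
  exact List.mem_toFinset.2 (hc M hM.2)

theorem num_le (r s : Fin n → Fin n → ℕ) : num r s ≤ n.factorial := by
  classical
  rw [num_eq]
  refine (card_le_univ _).trans ?_
  rw [Fintype.card_perm, Fintype.card_fin]

section

variable (r s X : Fin n → Fin n → ℕ)

theorem state_spec (i : ℕ) : ∃ L, (ext (nI (inp r s X)) (gsL (inp r s X)) (T1R (inp r s X))
    (T2R (inp r s X)))^[i] [] = L.map pl ∧ Lst r s L ∧ L.length ≤ i := by
  rw [nI_inp]
  exact run_sound (gsL_inp r s X) (fun L hL K _ C h => T2R_sound r s X hL.1 K C h) i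

/-- the number of rounds -/
theorem exists_stop : ∃ T ≤ num r s,
    (∀ i < T, (rnd ((fun s => (rnd s).2)^[i] (ini (inp r s X)))).1 = true) ∧
    (rnd ((fun s => (rnd s).2)^[T] (ini (inp r s X)))).1 = false := by
  -- as long as the flag is true the list grows
  have hgrow : ∀ t, (∀ i < t, (rnd ((fun s => (rnd s).2)^[i] (ini (inp r s X)))).1 = true) →
      t ≤ ((ext (nI (inp r s X)) (gsL (inp r s X)) (T1R (inp r s X))
        (T2R (inp r s X)))^[t] []).length := by
    intro t
    induction t with
    | zero => intro _; simp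
    | succ t ih =>
        intro h
        have h1 := ih fun i hi => h i (by omega)
        have h2 := h t (by omega)
        rw [rnd_iter] at h2
        rw [iterate_succ_apply']
        set L := (ext (nI (inp r s X)) (gsL (inp r s X)) (T1R (inp r s X))
          (T2R (inp r s X)))^[t] [] with hL
        have h3 : ext (nI (inp r s X)) (gsL (inp r s X)) (T1R (inp r s X)) (T2R (inp r s X)) L =
          L ++ nx (inp r s X, L) := rfl
        have h4 : nx (inp r s X, L) ≠ [] := by
          intro h5
          unfold rnd at h2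
          rw [h5] at h2
          simp at h2
        rw [h3, List.length_append]
        have h5 := List.length_pos_iff.2 h4
        omega
  by_cases hex : ∃ T, (rnd ((fun s => (rnd s).2)^[T] (ini (inp r s X)))).1 = false
  · classical
    let T := Nat.find hex
    have hT : (rnd ((fun s => (rnd s).2)^[T] (ini (inp r s X)))).1 = false := Nat.find_spec hex
    have hlt : ∀ i < T, (rnd ((fun s => (rnd s).2)^[i] (ini (inp r s X)))).1 = true := by
      intro i hi
      have := Nat.find_min hex hi
      simpa using this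
    refine ⟨T, ?_, hlt, hT⟩
    have h1 := hgrow T hlt
    obtain ⟨L, h2, h3, -⟩ := state_spec r s X T
    rw [h2, List.length_map] at h1
    exact h1.trans h3.length_le_num
  · exfalso
    push Not at hex
    have h1 := hgrow (num r s + 1) fun i _ => by
      have := hex i
      simpa using this
    obtain ⟨L, h2, h3, -⟩ := state_spec r s X (num r s + 1)
    rw [h2, List.length_map] at h1
    have := h3.length_le_num
    omega

theorem out_stop {T : ℕ} (hT : T ≤ num r s)
    (h : (rnd ((fun s => (rnd s).2)^[T] (ini (inp r s X)))).1 = false) :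
    ((fun s => (rnd s).2)^[T + 1] (ini (inp r s X))).2 = out (inp r s X) := by
  have h1 : ∀ j, (ext (nI (inp r s X)) (gsL (inp r s X)) (T1R (inp r s X))
      (T2R (inp r s X)))^[T + j] [] = (ext (nI (inp r s X)) (gsL (inp r s X)) (T1R (inp r s X))
      (T2R (inp r s X)))^[T] [] := by
    intro j
    induction j with
    | zero => rfl
    | succ j ih =>
        rw [← add_assoc, iterate_succ_apply', ih]
        rw [rnd_iter] at h
        unfold rnd at h
        simp only [Bool.not_eq_false', List.isEmpty_iff] at h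
        have h3 : ∀ L, ext (nI (inp r s X)) (gsL (inp r s X)) (T1R (inp r s X))
          (T2R (inp r s X)) L = L ++ nx (inp r s X, L) := fun L => rfl
        rw [h3, h, List.append_nil]
  rw [rnd_iter]
  unfold out
  have h2 : T ≤ (nI (inp r s X)).factorial := by
    rw [nI_inp]
    exact hT.trans (num_le r s)
  obtain ⟨j, hj⟩ := Nat.exists_eq_add_of_le h2
  rw [hj, h1, h1]

theorem out_sound : ∃ L, out (inp r s X) = L.map pl ∧ Lst r s L := by
  rw [out_eq]
  obtain ⟨L, h1, h2, -⟩ := alg_sound r s X (nI (inp r s X)).factorial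
  exact ⟨L, h1, h2⟩

theorem out_good
    (hgood : ∀ j < n.factorial, GoodX r s (seqI r s (gsL (inp r s X)) j) (xz X)) :
    (out (inp r s X)).length = num r s := by
  rw [out_eq, alg_ideal r s X hgood, List.length_map, nI_inp]
  obtain ⟨h1, h2⟩ := seqI_spec (gsL_inp r s X) n.factorial
  rcases h2 with h2 | h2
  · exact h1.length_eq_num h2
  · have h3 := h1.length_le_num
    have h4 := num_le r s
    omega

end

open Classical in
/-- the tables which are not good for the instance -/
noncomputable def badT (r s : Fin n → Fin n → ℕ) (N : ℕ) : Finset (Fin n → Fin n → Fin N) :=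
  univ.filter fun X => ∃ j < n.factorial, ¬ GoodX r s
    (seqI r s (gsL (inp r s fun _ _ => 0)) j) (tz X)

theorem badT_card (r s : Fin n → Fin n → ℕ) {N t : ℕ} (hN : 2 ^ ((n + 1) ^ 3 + 3 + t) ≤ N) :
    2 ^ t * (badT r s N).card ≤ N ^ (n * n) := bad_total r s (gsL_inp r s fun _ _ => 0) hN

theorem out_of_not_bad {r s : Fin n → Fin n → ℕ} {N : ℕ} {X : Fin n → Fin n → Fin N}
    (h : X ∉ badT r s N) : (out (inp r s fun i j => (X i j : ℕ))).length = num r s := by
  classical
  refine out_good r s _ fun j hj => ?_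
  rw [gsL_indep r s _ fun _ _ => 0]
  by_contra hc
  apply h
  unfold badT
  rw [mem_filter]
  exact ⟨mem_univ _, j, hj, hc⟩

/-- the listing fails with small probability -/
theorem out_random (r s : Fin n → Fin n → ℕ) {N t : ℕ} (hN : 2 ^ ((n + 1) ^ 3 + 3 + t) ≤ N) :
    2 ^ t * Nat.card {X : Fin n → Fin n → Fin N //
      (out (inp r s fun i j => (X i j : ℕ))).length ≠ num r s} ≤ N ^ (n * n) := by
  classical
  refine le_trans (Nat.mul_le_mul_left _ ?_) (badT_card r s hN)
  rw [Nat.card_eq_fintype_card, Fintype.card_subtype]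
  refine card_le_card fun X hX => ?_
  rw [mem_filter] at hX
  by_contra hc
  exact hX.2 (out_of_not_bad hc)

/-- one table for all instances -/
theorem out_advice (n : ℕ) : ∃ X : Fin n → Fin n → Fin (2 ^ (3 * (n + 1) ^ 3 + 4)),
    ∀ r s : Fin n → Fin n → Fin n,
      (out (inp (fun i j => (r i j : ℕ)) (fun i j => (s i j : ℕ)) fun i j => (X i j : ℕ))).length =
        num (fun i j => (r i j : ℕ)) (fun i j => (s i j : ℕ)) := by
  classical
  set N := 2 ^ (3 * (n + 1) ^ 3 + 4) with hN
  set t := 2 * (n * (n * n)) + 1 with ht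
  have hNt : 2 ^ ((n + 1) ^ 3 + 3 + t) ≤ N := by
    rw [hN, ht]
    refine Nat.pow_le_pow_right (by norm_num) ?_
    have : n * (n * n) ≤ (n + 1) ^ 3 := by
      have : (n + 1) ^ 3 = n * (n * n) + 3 * n * n + 3 * n + 1 := by ring
      omega
    omega
  let κ : Type := (Fin n → Fin n → Fin n) × (Fin n → Fin n → Fin n)
  let S : Finset (Fin n → Fin n → Fin N) := (univ : Finset κ).biUnion fun k =>
    badT (fun i j => (k.1 i j : ℕ)) (fun i j => (k.2 i j : ℕ)) N
  have hκ : Fintype.card κ ≤ 2 ^ (2 * (n * (n * n))) := by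
    have h1 : Fintype.card κ = (n ^ (n * n)) * (n ^ (n * n)) := by
      simp only [κ, Fintype.card_prod, Fintype.card_fun, Fintype.card_fin]
      rw [← pow_mul]
    rw [h1]
    have h2 : n ^ (n * n) ≤ 2 ^ (n * (n * n)) := by
      calc n ^ (n * n) ≤ (2 ^ n) ^ (n * n) := Nat.pow_le_pow_left (Nat.lt_two_pow_self.le) _
        _ = _ := by rw [← pow_mul]
    calc _ ≤ 2 ^ (n * (n * n)) * 2 ^ (n * (n * n)) := Nat.mul_le_mul h2 h2
      _ = _ := by rw [← pow_add]; congr 1; ring
  have hS : S.card < Fintype.card (Fin n → Fin n → Fin N) := by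
    have h1 : 2 ^ t * S.card ≤ Fintype.card κ * N ^ (n * n) := by
      calc 2 ^ t * S.card ≤ 2 ^ t * ∑ k : κ,
          (badT (fun i j => (k.1 i j : ℕ)) (fun i j => (k.2 i j : ℕ)) N).card :=
            Nat.mul_le_mul_left _ card_biUnion_le
        _ = ∑ k : κ, 2 ^ t *
          (badT (fun i j => (k.1 i j : ℕ)) (fun i j => (k.2 i j : ℕ)) N).card := by
            rw [mul_sum]
        _ ≤ ∑ _k : κ, N ^ (n * n) := sum_le_sum fun k _ => badT_card _ _ hNt
        _ = _ := by rw [sum_const, card_univ, smul_eq_mul]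
    have h2 : Fintype.card (Fin n → Fin n → Fin N) = N ^ (n * n) := by
      simp only [Fintype.card_fun, Fintype.card_fin]
      rw [← pow_mul]
    rw [h2]
    have hN0 : 0 < N ^ (n * n) := by positivity
    have h3 : 2 ^ t = 2 * 2 ^ (2 * (n * (n * n))) := by rw [ht, pow_succ]; ring
    by_contra hc
    have h4 : 2 ^ t * N ^ (n * n) ≤ 2 ^ (2 * (n * (n * n))) * N ^ (n * n) := by
      calc 2 ^ t * N ^ (n * n) ≤ 2 ^ t * S.card := Nat.mul_le_mul_left _ (not_lt.1 hc)
        _ ≤ _ := h1
        _ ≤ _ := Nat.mul_le_mul_right _ hκ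
    have h5 := Nat.le_of_mul_le_mul_right h4 hN0
    have h6 : 0 < 2 ^ (2 * (n * (n * n))) := by positivity
    omega
  obtain ⟨X, hX⟩ : ∃ X, X ∉ S := by
    by_contra hc
    push Not at hc
    have : S = univ := eq_univ_iff_forall.2 hc
    rw [this, card_univ] at hS
    exact lt_irrefl _ hS
  refine ⟨X, fun r s => out_of_not_bad fun h => hX ?_⟩
  exact mem_biUnion.2 ⟨(r, s), mem_univ _, h⟩

/-! ### the running time -/

theorem poly_nx : Poly nx := by
  have hI : Poly (fun s : Inp × List (List ℕ) => s.1) := Poly.fst Poly.id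
  have hL : Poly (fun s : Inp × List (List ℕ) => s.2) := Poly.snd Poly.id
  exact toList (p_next hI hL)

theorem poly_rnd : Poly rnd := by
  have hI : Poly (fun s : Inp × List (List ℕ) => s.1) := Poly.fst Poly.id
  have hL : Poly (fun s : Inp × List (List ℕ) => s.2) := Poly.snd Poly.id
  have hn : Poly (fun s : Inp × List (List ℕ) => nx s) := poly_nx
  exact Poly.pair (Poly.not (Poly.isEmpty hn)) (Poly.pair hI (Poly.append hL hn))

theorem poly_ini : Poly ini := Poly.pair Poly.id (Pool.Agent.NPC.Poly.const [])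

/-- a Turing machine which lists the matchings in time polynomial in the size of the input and
the number of weakly stable matchings -/
theorem exists_machine : ∃ (M : Turing.TM2ComputableAux Bool Bool) (q : Polynomial ℕ),
    ∀ (n : ℕ) (r s X : Fin n → Fin n → ℕ),
      Nonempty (Turing.TM2OutputsInTime M.tm ((bits (inp r s X)).map M.inputAlphabet.invFun)
        (some ((bits (out (inp r s X))).map M.outputAlphabet.invFun))
        (q.eval ((bits (inp r s X)).length + num r s))) := by
  have hg : Poly (fun s : Inp × List (List ℕ) => s.2) := Poly.snd Poly.id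
  obtain ⟨c, p, hc⟩ := loop_runs poly_rnd poly_ini hg
  obtain ⟨M, hM⟩ := machine c
  have hI : Poly (fun I : Inp => I) := Poly.id
  obtain ⟨q1, hq1⟩ := (p_nI hI).sz_le
  obtain ⟨q2, hq2⟩ := Poly.sz_le (u_nI hI)
  let Bp : Polynomial ℕ := Polynomial.X + (Polynomial.X * (q2 * (Polynomial.C 2 * q1 +
    Polynomial.C 1) + Polynomial.C 2) + Polynomial.C 1) + Polynomial.C 1
  refine ⟨M, (Polynomial.X + Polynomial.C 1) * p.comp Bp + Polynomial.C 1, ?_⟩
  intro n r s X
  obtain ⟨T, hT, h1, h2⟩ := exists_stop r s X
  set I := inp r s X with hIdef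
  set x := (bits I).length + num r s with hx
  have hszI : sz I ≤ x := by
    rw [hx, bits_length]; omega
  have hBx : Bp.eval x = x + (x * (q2.eval x * (2 * q1.eval x + 1) + 2) + 1) + 1 := by
    simp [Bp]
  have hsz : ∀ i ≤ T + 1, sz ((fun s => (rnd s).2)^[i] (ini I)) ≤ Bp.eval x := by
    intro i _
    rw [rnd_iter, sz_pair, hBx]
    obtain ⟨L, e1, e2, -⟩ := state_spec r s X i
    obtain ⟨-, e3⟩ := run_short I i
    have e4 := e2.length_le_num
    rw [← hIdef] at e1
    have e5 : ((ext (nI I) (gsL I) (T1R I) (T2R I))^[i] []).length ≤ x := by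
      rw [e1, List.length_map]; omega
    have e6 : sz (nI I) ≤ q1.eval x := (hq1 I).trans (eval_mono q1 hszI)
    have e7 : sz (List.replicate (nI I) ()) ≤ q2.eval x := (hq2 I).trans (eval_mono q2 hszI)
    have e8 : nI I < sz (List.replicate (nI I) ()) := by
      have := length_lt_sz (List.replicate (nI I) ())
      rwa [List.length_replicate] at this
    have e9 := sz_le_length_mul ((ext (nI I) (gsL I) (T1R I) (T2R I))^[i] [])
      (q2.eval x * (2 * q1.eval x + 1) + 1) (fun M hM => by
        obtain ⟨f1, f2⟩ := e3 M hM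
        have f3 := sz_short f1 f2
        have f4 : nI I * (2 * sz (nI I) + 1) ≤ q2.eval x * (2 * q1.eval x + 1) :=
          Nat.mul_le_mul (by omega) (by omega)
        omega)
    have e10 : ((ext (nI I) (gsL I) (T1R I) (T2R I))^[i] []).length *
        (q2.eval x * (2 * q1.eval x + 1) + 1 + 1) ≤
        x * (q2.eval x * (2 * q1.eval x + 1) + 2) := Nat.mul_le_mul e5 (by omega)
    omega
  have hrun := hc I T (Bp.eval x) h1 h2 (by rw [hBx]; omega) hsz
  obtain ⟨h3⟩ := hM _ _ _ hrun
  have h4 : ((fun s => (rnd s).2)^[T + 1] (ini I)).2 = out I := out_stop r s X hT h2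
  rw [h4] at h3
  refine ⟨⟨h3.1, h3.2.trans ?_⟩⟩
  simp only [Polynomial.eval_add, Polynomial.eval_mul, Polynomial.eval_X, Polynomial.eval_C,
    Polynomial.eval_comp]
  have h5 : (T + 1) * p.eval (Bp.eval x) ≤ (x + 1) * p.eval (Bp.eval x) :=
    Nat.mul_le_mul_right _ (by omega)
  omega

end Pool.Agent.H688.WSM
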