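import Pool.Agent.H688.WSM.States

/-!
# The search for a new matching, with oracles for the two tests
-/

set_option autoImplicit false
set_option linter.unusedSectionVars false

namespace Pool.Agent.H688.WSM

open Finset Function

variable {n : ℕ}

/-- a matching as the list of the wives -/
def pl (M : Equiv.Perm (Fin n)) : List ℕ := List.ofFn fun m => (M m : ℕ)

theorem pl_inj : Injective (pl : Equiv.Perm (Fin n) → List ℕ) := by
  intro M N h
  have h1 := List.ofFn_injective h
  refine Equiv.ext fun m => Fin.ext ?_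
  exact congrFun h1 m

theorem length_pl (M : Equiv.Perm (Fin n)) : (pl M).length = n := by simp [pl]

theorem pl_getElem? (M : Equiv.Perm (Fin n)) (m : Fin n) : (pl M)[(m : ℕ)]? = some (M m : ℕ) := by
  unfold pl
  rw [List.getElem?_ofFn]
  simp

/-- a list of numbers below `n`, not longer than `D` -/
def Val (n D : ℕ) (S : List ℕ) : Bool := decide (S.length ≤ D) && S.all fun c => decide (c < n)

theorem val_iff {D : ℕ} {S : List ℕ} : Val n D S = true ↔ S.length ≤ D ∧ ∀ c ∈ S, c < n := by
  unfold Val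
  simp

/-- the possible next numbers -/
def cand (n : ℕ) (S : List ℕ) : List ℕ :=
  (List.range n).filter fun c => decide (S.length < n) || !(decide (c ∈ cur n S))

/-- one step of the search -/
def dstep (cd : List ℕ → List ℕ) (test : List ℕ → Bool) (o : Option (List ℕ)) :
    Option (List ℕ) :=
  match o with
  | none => none
  | some S => (((cd S).map fun c => S ++ [c]).filter test).head?

theorem dstep_some {cd : List ℕ → List ℕ} {test : List ℕ → Bool} {S S' : List ℕ}
    (h : dstep cd test (some S) = some S') : ∃ c ∈ cd S, S' = S ++ [c] ∧ test S' = true := by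
  unfold dstep at h
  have h1 := List.mem_of_mem_head? h
  rw [List.mem_filter, List.mem_map] at h1
  obtain ⟨⟨c, h2, h3⟩, h4⟩ := h1
  exact ⟨c, h2, h3.symm, h4⟩

theorem dstep_ne_none {cd : List ℕ → List ℕ} {test : List ℕ → Bool} {S : List ℕ} {c : ℕ}
    (h1 : c ∈ cd S) (h2 : test (S ++ [c]) = true) : ∃ S', dstep cd test (some S) = some S' := by
  have h3 : S ++ [c] ∈ ((cd S).map fun c => S ++ [c]).filter test :=
    List.mem_filter.2 ⟨List.mem_map.2 ⟨c, h1, rfl⟩, h2⟩
  obtain ⟨x, l, hl⟩ := List.exists_cons_of_ne_nil (List.ne_nil_of_mem h3)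
  refine ⟨x, ?_⟩
  change (((cd S).map fun c => S ++ [c]).filter test).head? = some x
  rw [hl]
  rfl

theorem desc_spec {cd : List ℕ → List ℕ} {test : List ℕ → Bool} {Q : List ℕ → Prop}
    (h0 : Q []) (hQ : ∀ S c, Q S → c ∈ cd S → test (S ++ [c]) = true → Q (S ++ [c])) (k : ℕ)
    {S : List ℕ} (h : (dstep cd test)^[k] (some []) = some S) : Q S ∧ S.length = k := by
  induction k generalizing S with
  | zero =>
      simp only [iterate_zero, id_eq, Option.some.injEq] at h
      subst h
      exact ⟨h0, rfl⟩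
  | succ k ih =>
      rw [iterate_succ_apply'] at h
      cases h1 : (dstep cd test)^[k] (some []) with
      | none => rw [h1] at h; simp [dstep] at h
      | some T =>
          rw [h1] at h
          obtain ⟨c, h2, rfl, h4⟩ := dstep_some h
          obtain ⟨h5, h6⟩ := ih h1
          exact ⟨hQ T c h5 h2 h4, by simp [h6]⟩

theorem desc_ne_none {cd : List ℕ → List ℕ} {test : List ℕ → Bool} {Q : List ℕ → Prop} {D : ℕ}
    (h0 : Q []) (hQ : ∀ S c, Q S → c ∈ cd S → test (S ++ [c]) = true → Q (S ++ [c]))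
    (hex : ∀ S, S.length < D → Q S → ∃ c ∈ cd S, test (S ++ [c]) = true) (k : ℕ) (hk : k ≤ D) :
    ∃ S, (dstep cd test)^[k] (some []) = some S := by
  induction k with
  | zero => exact ⟨[], rfl⟩
  | succ k ih =>
      obtain ⟨S, hS⟩ := ih (by omega)
      obtain ⟨h1, h2⟩ := desc_spec h0 hQ k hS
      obtain ⟨c, h3, h4⟩ := hex S (by omega) h1
      rw [iterate_succ_apply', hS]
      exact dstep_ne_none h3 h4

/-- the search for a new matching -/
def nextG (n : ℕ) (gsf : List ℕ → List ℕ) (T1 : List ℕ → Bool) (T2 : List ℕ → List ℕ → Bool)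
    (L : List (List ℕ)) : Option (List ℕ) :=
  ((((dstep (cand n) T1)^[n * (n + 1)] (if T1 [] = true then some [] else none)).toList.map
    gsf).filter (fun M => !(decide (M ∈ L))) ++
  L.flatMap (fun K => ((dstep (fun _ => List.range n) (T2 K))^[n]
    (if T2 K [] = true then some [] else none)).toList)).head?

/-- `(b, w)` is allowed by `K` and by the beginning `C` -/
def al (r s : Fin n → Fin n → ℕ) (K : Equiv.Perm (Fin n)) (C : List ℕ) (b w : Fin n) : Prop :=
  Alw r s K b w ∧ ∀ v, C[(b : ℕ)]? = some v → v = w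

open Classical in
/-- the exact first test -/
noncomputable def T1I (r s : Fin n → Fin n → ℕ) (L : List (Equiv.Perm (Fin n))) (S : List ℕ) :
    Bool := decide (Val n (n * (n + 1)) S = true ∧ Miss1 r s L S)

open Classical in
/-- the exact second test -/
noncomputable def T2I (r s : Fin n → Fin n → ℕ) (L : List (Equiv.Perm (Fin n)))
    (K : Equiv.Perm (Fin n)) (C : List ℕ) : Bool :=
  decide (Val n (n * (n + 1)) C = true ∧
    ∃ N : Equiv.Perm (Fin n), (∀ b, al r s K C b (N b)) ∧ N ∉ L)

theorem iter_none (cd : List ℕ → List ℕ) (test : List ℕ → Bool) (k : ℕ) :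
    (dstep cd test)^[k] none = none := by
  induction k with
  | zero => rfl
  | succ k ih => rw [iterate_succ_apply', ih]; rfl

/-- the second search ends in an allowed move -/
theorem desc2_spec {r s : Fin n → Fin n → ℕ} {L : List (Equiv.Perm (Fin n))}
    {K : Equiv.Perm (Fin n)} {T : List ℕ → Bool} (hT : ∀ C, T C = true → T2I r s L K C = true)
    {C : List ℕ} (h : (dstep (fun _ => List.range n) T)^[n]
      (if T [] = true then some [] else none) = some C) :
    ∃ N : Equiv.Perm (Fin n), C = pl N ∧ (∀ b, Alw r s K b (N b)) ∧ N ∉ L := by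
  by_cases h0 : T [] = true
  · rw [if_pos h0] at h
    obtain ⟨h1, h2⟩ := desc_spec (Q := fun C => ∃ N : Equiv.Perm (Fin n),
      (∀ b, al r s K C b (N b)) ∧ N ∉ L) (by
        have := hT [] h0
        simp only [T2I, decide_eq_true_eq] at this
        exact this.2) (fun S c _ _ h4 => by
        have := hT _ h4
        simp only [T2I, decide_eq_true_eq] at this
        exact this.2) n h
    obtain ⟨N, h3, h4⟩ := h1
    refine ⟨N, ?_, fun b => (h3 b).1, h4⟩
    refine List.ext_getElem? fun i => ?_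
    by_cases h5 : i < n
    · have h6 := (h3 ⟨i, h5⟩).2 (C[i]'(by omega)) (List.getElem?_eq_getElem _)
      have h7 := pl_getElem? N ⟨i, h5⟩
      rw [← h6] at h7
      rw [List.getElem?_eq_getElem (by omega)]
      exact h7.symm
    · rw [List.getElem?_eq_none (by omega), List.getElem?_eq_none (by rw [length_pl]; omega)]
  · rw [if_neg h0, iter_none] at h
    exact absurd h (by simp)

theorem sound {r s : Fin n → Fin n → ℕ} {L : List (Equiv.Perm (Fin n))}
    (hL : ∀ K ∈ L, Stable r s K) {gsf : List ℕ → List ℕ}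
    (hg : ∀ S, ∃ M : Equiv.Perm (Fin n), gsf S = pl M ∧ Gd (a0 r S) (b0 s S) M)
    {T1 : List ℕ → Bool} {T2 : List ℕ → List ℕ → Bool}
    (hT : ∀ K ∈ L, ∀ C, T2 (pl K) C = true → T2I r s L K C = true) {M : List ℕ}
    (h : nextG n gsf T1 T2 (L.map pl) = some M) :
    ∃ N : Equiv.Perm (Fin n), M = pl N ∧ Stable r s N ∧ N ∉ L := by
  have h1 := List.mem_of_mem_head? h
  rw [List.mem_append, List.mem_filter, List.mem_map, List.mem_flatMap] at h1
  rcases h1 with ⟨⟨S, -, h2⟩, h3⟩ | ⟨K, h2, h3⟩
  · obtain ⟨N, h4, h5⟩ := hg S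
    refine ⟨N, by rw [← h2, h4], stable_of_fixed h5.1, fun h6 => ?_⟩
    simp only [Bool.not_eq_true', decide_eq_false_iff_not] at h3
    apply h3
    rw [← h2, h4]
    exact List.mem_map_of_mem h6
  · rw [List.mem_map] at h2
    obtain ⟨K', hK', rfl⟩ := h2
    obtain ⟨N, h4, h5, h6⟩ := desc2_spec (hT K' hK') (Option.mem_toList.1 h3)
    exact ⟨N, h4, Alw.stable (hL K' hK') h5, h6⟩

theorem miss1_nil {r s : Fin n → Fin n → ℕ} {L : List (Equiv.Perm (Fin n))} (h : Miss r s L) :
    Miss1 r s L [] := by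
  obtain ⟨ν, π, hπ, hm⟩ := h
  refine ⟨ν, π, hπ, fun M hM hg => hm M hM ?_⟩
  refine (Gd.congr (fun m w w' => ?_) (fun w m m' => ?_) M).1 hg
  · have h3 : ∀ w, rS r [] m w = r m w := fun w => by simp [rS]
    unfold KA ka
    rw [h3, h3]
  · have hl := (length_of_ordF (hπ w)).le
    unfold KB
    rw [kb_lt_iff hl, kb_lt_iff hl, sS_lt_iff, sS_eq_iff]
    simp [blk]

/-- the structure of the states of the first search -/
def Str (n : ℕ) (S : List ℕ) : Prop := (∀ c ∈ S, c < n) ∧ ∀ i, 1 ≤ i → (blk n S i).Nodup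

theorem str_nil : Str n [] := ⟨by simp, fun i _ => by simp [blk]⟩

theorem Str.append {S : List ℕ} {c : ℕ} (h : Str n S) (hc : c ∈ cand n S) : Str n (S ++ [c]) := by
  unfold cand at hc
  rw [List.mem_filter, List.mem_range] at hc
  obtain ⟨h1, h2⟩ := hc
  have hn : 0 < n := by omega
  refine ⟨fun x hx => ?_, fun i hi => ?_⟩
  · rcases List.mem_append.1 hx with hx | hx
    · exact h.1 x hx
    · rw [List.mem_singleton.1 hx]; exact h1
  · rcases lt_trichotomy i (S.length / n) with h3 | h3 | h3
    · rw [blk_append_lt S c i h3]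
      exact h.2 i hi
    · have h4 : n ≤ S.length := (Nat.one_le_div_iff hn).1 (h3 ▸ hi)
      have h5 : c ∉ cur n S := by
        simp only [Bool.or_eq_true, decide_eq_true_eq, Bool.not_eq_true',
          decide_eq_false_iff_not] at h2
        rcases h2 with h2 | h2
        · omega
        · exact h2
      rw [h3, (blk_append_cur hn S c).2]
      rw [List.nodup_append]
      refine ⟨?_, by simp, fun a ha b hb hab => ?_⟩
      · rw [← (blk_append_cur hn S c).1, ← h3]
        exact h.2 i hi
      · rw [List.mem_singleton.1 hb] at hab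
        exact h5 (hab ▸ ha)
    · rw [(blk_append_gt hn S c i h3).1]
      exact List.nodup_nil

theorem complete_step {r s : Fin n → Fin n → ℕ} {L : List (Equiv.Perm (Fin n))}
    (hL : ∀ K ∈ L, Stable r s K) {gsf : List ℕ → List ℕ}
    (hg : ∀ S, ∃ M : Equiv.Perm (Fin n), gsf S = pl M ∧ Gd (a0 r S) (b0 s S) M)
    {T1 : List ℕ → Bool} {T2 : List ℕ → List ℕ → Bool}
    (hT1 : ∀ S, T1 S = T1I r s L S)
    (hT2 : ∀ K ∈ L, ∀ C, T2 (pl K) C = T2I r s L K C)
    (hinc : ∃ N : Equiv.Perm (Fin n), Stable r s N ∧ N ∉ L) :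
    ∃ M, nextG n gsf T1 T2 (L.map pl) = some M := by
  have hne : ∀ M : List ℕ, M ∈ ((((dstep (cand n) T1)^[n * (n + 1)]
      (if T1 [] = true then some [] else none)).toList.map
      gsf).filter (fun M => !(decide (M ∈ (L.map pl)))) ++
      (L.map pl).flatMap (fun K => ((dstep (fun _ => List.range n) (T2 K))^[n]
      (if T2 K [] = true then some [] else none)).toList)) →
      ∃ M, nextG n gsf T1 T2 (L.map pl) = some M := by
    intro M hM
    obtain ⟨x, l, hl⟩ := List.exists_cons_of_ne_nil (List.ne_nil_of_mem hM)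
    exact ⟨x, by unfold nextG; rw [hl]; rfl⟩
  by_cases hm : Miss r s L
  · -- the first search
    have hP : ∀ S, T1 S = true ↔ (Val n (n * (n + 1)) S = true ∧ Miss1 r s L S) := by
      intro S
      rw [hT1]
      unfold T1I
      simp
    have h0 : T1 [] = true := (hP []).2 ⟨by rw [val_iff]; simp, miss1_nil hm⟩
    have hq0 : Str n [] ∧ Miss1 r s L [] := ⟨str_nil, miss1_nil hm⟩
    have hQ : ∀ S c, (Str n S ∧ Miss1 r s L S) → c ∈ cand n S → T1 (S ++ [c]) = true →
        (Str n (S ++ [c]) ∧ Miss1 r s L (S ++ [c])) :=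
      fun S c h1 h2 h3 => ⟨h1.1.append h2, ((hP _).1 h3).2⟩
    have hex : ∀ S : List ℕ, S.length < n * (n + 1) → (Str n S ∧ Miss1 r s L S) →
        ∃ c ∈ cand n S, T1 (S ++ [c]) = true := by
      intro S hS h1
      have hval : ∀ c < n, Val n (n * (n + 1)) (S ++ [c]) = true := by
        intro c hc
        rw [val_iff]
        refine ⟨by simp; omega, fun x hx => ?_⟩
        rcases List.mem_append.1 hx with hx | hx
        · exact h1.1.1 x hx
        · rw [List.mem_singleton.1 hx]; exact hc
      by_cases h2 : S.length < n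
      · obtain ⟨c, h3, h4⟩ := h1.2.men h2
        refine ⟨c, ?_, (hP _).2 ⟨hval c h3, h4⟩⟩
        unfold cand
        rw [List.mem_filter, List.mem_range]
        exact ⟨h3, by simp [h2]⟩
      · obtain ⟨c, h3, h5, h4⟩ := h1.2.women (by omega) hS
        refine ⟨c, ?_, (hP _).2 ⟨hval c h3, h4⟩⟩
        unfold cand
        rw [List.mem_filter, List.mem_range]
        exact ⟨h3, by simp [h5]⟩
    obtain ⟨S, hS⟩ := desc_ne_none (Q := fun S => Str n S ∧ Miss1 r s L S) hq0 hQ hex
      (n * (n + 1)) le_rfl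
    obtain ⟨h1, h2⟩ := desc_spec (Q := fun S => Str n S ∧ Miss1 r s L S) hq0 hQ
      (n * (n + 1)) hS
    obtain ⟨M, h3, h4⟩ := hg S
    have hfull : Full n S := ⟨h2, h1.1.1, h1.1.2⟩
    have h5 : M ∉ L := hfull.not_mem h1.2 h4
    refine hne (pl M) ?_
    rw [List.mem_append]
    left
    rw [List.mem_filter, List.mem_map]
    refine ⟨⟨S, ?_, h3⟩, ?_⟩
    · rw [if_pos h0, hS]; simp
    · simp only [Bool.not_eq_true', decide_eq_false_iff_not]
      intro h6
      obtain ⟨N, h7, h8⟩ := List.mem_map.1 h6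
      rw [pl_inj h8] at h7
      exact h5 h7
  · -- the second search
    have hex : ∃ K ∈ L, Miss2 r s K L := by
      by_contra hc
      push Not at hc
      obtain ⟨N, h1, h2⟩ := hinc
      exact h2 (complete hm hc hL N h1)
    obtain ⟨K, hK, N₀, hN1, hN2⟩ := hex
    have hP : ∀ C, T2 (pl K) C = true ↔ (Val n (n * (n + 1)) C = true ∧
        ∃ N : Equiv.Perm (Fin n), (∀ b, al r s K C b (N b)) ∧ N ∉ L) := by
      intro C
      rw [hT2 K hK]
      unfold T2I
      simp
    have hq : ∃ N : Equiv.Perm (Fin n), (∀ b, al r s K [] b (N b)) ∧ N ∉ L :=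
      ⟨N₀, fun b => ⟨hN1 b, by simp⟩, hN2⟩
    have h0 : T2 (pl K) [] = true := (hP []).2 ⟨by rw [val_iff]; simp, hq⟩
    let Q : List ℕ → Prop := fun C => (∀ c ∈ C, c < n) ∧
      ∃ N : Equiv.Perm (Fin n), (∀ b, al r s K C b (N b)) ∧ N ∉ L
    have hQ : ∀ S c, Q S → c ∈ List.range n → T2 (pl K) (S ++ [c]) = true → Q (S ++ [c]) := by
      intro S c _ _ h3
      obtain ⟨h4, h5⟩ := (hP _).1 h3
      exact ⟨(val_iff.1 h4).2, h5⟩
    have hex : ∀ S : List ℕ, S.length < n → Q S → ∃ c ∈ List.range n,
        T2 (pl K) (S ++ [c]) = true := by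
      rintro S hS ⟨h1, N, h2, h3⟩
      refine ⟨N ⟨S.length, hS⟩, by simp, (hP _).2 ⟨?_, N, fun b => ⟨(h2 b).1, fun v hv => ?_⟩, h3⟩⟩
      · rw [val_iff]
        refine ⟨by simp; nlinarith, fun x hx => ?_⟩
        rcases List.mem_append.1 hx with hx | hx
        · exact h1 x hx
        · rw [List.mem_singleton.1 hx]; exact (N _).2
      · rcases lt_trichotomy (b : ℕ) S.length with h4 | h4 | h4
        · rw [List.getElem?_append_left h4] at hv
          exact (h2 b).2 v hv
        · have hb : b = ⟨S.length, hS⟩ := Fin.ext h4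
          rw [h4] at hv
          simp only [List.getElem?_concat_length, Option.some.injEq] at hv
          rw [← hv, hb]
        · rw [List.getElem?_eq_none (by simp; omega)] at hv
          simp at hv
    obtain ⟨C, hC⟩ := desc_ne_none (Q := Q) ⟨by simp, hq⟩ hQ hex n le_rfl
    refine hne C ?_
    rw [List.mem_append]
    right
    rw [List.mem_flatMap]
    refine ⟨pl K, List.mem_map_of_mem hK, ?_⟩
    rw [if_pos h0, hC]
    simp

end Pool.Agent.H688.WSM
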