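import Pool.Agent.H688.WSM.Pz

/-!
# The test polynomial does not vanish if something is missing
-/

set_option autoImplicit false
set_option linter.unusedSectionVars false

namespace Pool.Agent.H688.WSM

open Finset Function Matrix Filter Topology

variable {n : ℕ}

theorem tendsto_pr {i j : ℕ} (h : i ≠ j) :
    Tendsto (fun Z : ℝ => Z ^ i / (Z ^ i - Z ^ j)) (𝓝[>] 0) (𝓝 (if i < j then 1 else 0)) := by
  rcases lt_or_gt_of_ne h with h1 | h1
  · rw [if_pos h1]
    obtain ⟨d, rfl⟩ := Nat.exists_eq_add_of_lt h1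
    have h2 : Tendsto (fun Z : ℝ => 1 / (1 - Z ^ (d + 1))) (𝓝[>] 0) (𝓝 1) := by
      have h3 : ContinuousAt (fun Z : ℝ => 1 / (1 - Z ^ (d + 1))) 0 := by
        refine ContinuousAt.div continuousAt_const ?_ (by simp)
        exact (continuousAt_const.sub (continuousAt_id.pow _))
      have h4 := h3.tendsto
      simp only [ne_eq, Nat.add_eq_zero_iff, one_ne_zero, and_false, not_false_eq_true, zero_pow,
        sub_zero, div_one] at h4
      exact h4.mono_left nhdsWithin_le_nhds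
    refine h2.congr' ?_
    filter_upwards [self_mem_nhdsWithin] with Z hZ
    have hZ' : (0 : ℝ) < Z := hZ
    have h5 : Z ^ i - Z ^ (i + d + 1) = Z ^ i * (1 - Z ^ (d + 1)) := by ring
    rw [h5, ← div_div, div_self (pow_ne_zero _ hZ'.ne')]
  · rw [if_neg (by omega)]
    obtain ⟨d, rfl⟩ := Nat.exists_eq_add_of_lt h1
    have h2 : Tendsto (fun Z : ℝ => Z ^ (d + 1) / (Z ^ (d + 1) - 1)) (𝓝[>] 0) (𝓝 0) := by
      have h3 : ContinuousAt (fun Z : ℝ => Z ^ (d + 1) / (Z ^ (d + 1) - 1)) 0 := by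
        refine ContinuousAt.div (continuousAt_id.pow _) ?_ (by simp)
        exact ((continuousAt_id.pow _).sub continuousAt_const)
      have h4 := h3.tendsto
      simp only [ne_eq, Nat.add_eq_zero_iff, one_ne_zero, and_false, not_false_eq_true, zero_pow,
        zero_div] at h4
      exact h4.mono_left nhdsWithin_le_nhds
    refine h2.congr' ?_
    filter_upwards [self_mem_nhdsWithin] with Z hZ
    have hZ' : (0 : ℝ) < Z := hZ
    have h5 : Z ^ (j + d + 1) - Z ^ j = Z ^ j * (Z ^ (d + 1) - 1) := by ring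
    have h6 : Z ^ (j + d + 1) = Z ^ j * Z ^ (d + 1) := by ring
    rw [h5, h6, mul_div_mul_left _ _ (pow_ne_zero _ hZ'.ne')]

open Classical in
theorem tendsto_mu {e : Fin n → ℕ} (he : Injective e) (σ : List (Fin n)) (hσ : σ.Nodup) :
    Tendsto (fun Z : ℝ => mu (fun b => Z ^ e b) σ) (𝓝[>] 0)
      (𝓝 (if σ.IsChain (fun a b => e a < e b) then 1 else 0)) := by
  induction σ with
  | nil => simp
  | cons a σ ih =>
      cases σ with
      | nil => simp
      | cons b σ =>
          have hab : a ≠ b := by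
            intro h
            rw [h] at hσ
            simp at hσ
          have h1 := ih (List.nodup_cons.1 hσ).2
          have h2 := (tendsto_pr (he.ne hab)).mul h1
          have h3 : ((if e a < e b then (1 : ℝ) else 0) *
              (if (b :: σ).IsChain (fun a b => e a < e b) then 1 else 0)) =
              if (a :: b :: σ).IsChain (fun a b => e a < e b) then 1 else 0 := by
            have h6 : (a :: b :: σ).IsChain (fun a b => e a < e b) ↔
                e a < e b ∧ (b :: σ).IsChain (fun a b => e a < e b) := List.isChain_cons_cons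
            by_cases h4 : e a < e b <;> by_cases h5 : (b :: σ).IsChain (fun a b => e a < e b) <;>
              simp [h4, h5]
          rw [h3] at h2
          exact h2

theorem chain_iff {σ π : List (Fin n)} (hσ : σ ∈ ordF n) (hπ : π ∈ ordF n) :
    σ.IsChain (fun a b => π.idxOf a < π.idxOf b) ↔ σ = π := by
  have hpp : π.Pairwise (fun a b => π.idxOf a < π.idxOf b) := by
    rw [List.pairwise_iff_getElem]
    intro i j hi hj hij
    rw [(nodup_of_ordF hπ).idxOf_getElem, (nodup_of_ordF hπ).idxOf_getElem]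
    exact hij
  have : IsTrans (Fin n) (fun a b => π.idxOf a < π.idxOf b) := ⟨fun a b c h1 h2 => h1.trans h2⟩
  rw [List.isChain_iff_pairwise]
  constructor
  · intro h
    have hp : σ.Perm π := (mem_ordF.1 hσ).trans (mem_ordF.1 hπ).symm
    exact hp.eq_of_pairwise (fun a b _ _ h1 h2 => absurd h1 (not_lt.2 h2.le)) h hpp
  · rintro rfl
    exact hpp

/-- some real point shows that the test polynomial is not zero -/
theorem exists_real {r s : Fin n → Fin n → ℕ} {L : List (Equiv.Perm (Fin n))} (hL : L.Nodup)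
    (h : Miss r s L) : ∃ x : Fin n → Fin n → ℝ, (∀ w, Injective (x w)) ∧ FZ r s L x ≠ 0 := by
  classical
  obtain ⟨ν₀, π₀, hπ₀, hmiss⟩ := h
  let e : Fin n → Fin n → ℕ := fun w b => (π₀ w).idxOf b
  have he : ∀ w, Injective (e w) := fun w b b' hbb =>
    (List.idxOf_inj (mem_of_ordF (hπ₀ w) b)).1 hbb
  let x : ℝ → Fin n → Fin n → ℝ := fun Z w b => Z ^ e w b
  let T : ℝ → ℝ := fun Z => ∑ ν : Fin n → Fin n,
      ∑ π ∈ Fintype.piFinset (fun _ : Fin n => ordF n), (∏ w, mu (x Z w) (π w)) *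
        (if ∀ M ∈ L, ¬ Gd (KA r fun m => (ν m : ℕ)) (KB s π) M then 1 else 0)
  let c : ℝ := ∑ ν : Fin n → Fin n,
      ∑ π ∈ Fintype.piFinset (fun _ : Fin n => ordF n), (∏ w, if π w = π₀ w then 1 else 0) *
        (if ∀ M ∈ L, ¬ Gd (KA r fun m => (ν m : ℕ)) (KB s π) M then 1 else 0)
  have hT : Tendsto T (𝓝[>] 0) (𝓝 c) := by
    refine tendsto_finsetSum _ fun ν _ => tendsto_finsetSum _ fun π hπ => ?_
    rw [Fintype.mem_piFinset] at hπ
    refine Tendsto.mul_const _ (tendsto_finsetProd _ fun w _ => ?_)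
    have h1 := tendsto_mu (he w) (π w) (nodup_of_ordF (hπ w))
    have h2 : (if π w = π₀ w then (1 : ℝ) else 0) =
        if (π w).IsChain (fun a b => e w a < e w b) then 1 else 0 := by
      have := chain_iff (hπ w) (hπ₀ w)
      by_cases h3 : π w = π₀ w
      · rw [if_pos h3, if_pos (this.2 h3)]
      · rw [if_neg h3, if_neg (fun h4 => h3 (this.1 h4))]
    rw [h2]
    exact h1
  have hc : 0 < c := by
    have hnn : ∀ (ν : Fin n → Fin n) (π : Fin n → List (Fin n)), (0 : ℝ) ≤
        (∏ w, if π w = π₀ w then 1 else 0) *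
        (if ∀ M ∈ L, ¬ Gd (KA r fun m => (ν m : ℕ)) (KB s π) M then 1 else 0) := by
      intro ν π
      refine mul_nonneg (prod_nonneg fun w _ => ?_) ?_ <;> split_ifs <;> norm_num
    refine sum_pos' (fun ν _ => sum_nonneg fun π _ => hnn ν π) ⟨ν₀, mem_univ _, ?_⟩
    refine sum_pos' (fun π _ => hnn ν₀ π) ⟨π₀, ?_, ?_⟩
    · rw [Fintype.mem_piFinset]; exact hπ₀
    · rw [if_pos hmiss]
      simp
  have hev : ∀ᶠ Z in 𝓝[>] (0 : ℝ), 0 < T Z := hT.eventually (lt_mem_nhds hc)
  have hev2 : ∀ᶠ Z in 𝓝[>] (0 : ℝ), Z < 1 :=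
    nhdsWithin_le_nhds (Iio_mem_nhds (by norm_num))
  obtain ⟨Z, hZ1, hZ2, hZ3⟩ := (hev.and (hev2.and self_mem_nhdsWithin)).exists
  have hZ0 : (0 : ℝ) < Z := hZ3
  have hx : ∀ w, Injective (x Z w) := by
    intro w b b' hbb
    apply he w
    have := pow_right_injective₀ hZ0 hZ2.ne hbb
    exact this
  refine ⟨x Z, hx, ?_⟩
  rw [FZ_eq hx r s hL]
  exact neg_ne_zero.2 (mul_ne_zero hZ1.ne' (DZ_ne_zero hx))

/-- the test polynomial -/
noncomputable def PZ (r s : Fin n → Fin n → ℕ) (L : List (Equiv.Perm (Fin n))) :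
    MvPolynomial (Fin n × Fin n) ℤ := FZ r s L (fun w b => MvPolynomial.X (w, b))

/-- the polynomial of the common denominator -/
noncomputable def QZ (n : ℕ) : MvPolynomial (Fin n × Fin n) ℤ :=
  DZ (fun w b => MvPolynomial.X (w, b))

theorem eval_PZ (r s : Fin n → Fin n → ℕ) (L : List (Equiv.Perm (Fin n)))
    (X : Fin n → Fin n → ℤ) :
    MvPolynomial.eval (fun p : Fin n × Fin n => X p.1 p.2) (PZ r s L) = FZ r s L X := by
  unfold PZ
  rw [map_FZ]
  simp

theorem eval_QZ (X : Fin n → Fin n → ℤ) :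
    MvPolynomial.eval (fun p : Fin n × Fin n => X p.1 p.2) (QZ n) = DZ X := by
  unfold QZ
  rw [map_DZ]
  simp

theorem PZ_ne_zero {r s : Fin n → Fin n → ℕ} {L : List (Equiv.Perm (Fin n))} (hL : L.Nodup)
    (h : Miss r s L) : PZ r s L ≠ 0 := by
  obtain ⟨x, -, hx⟩ := exists_real hL h
  intro h0
  apply hx
  have h1 := map_FZ (MvPolynomial.eval₂Hom (Int.castRingHom ℝ)
    (fun p : Fin n × Fin n => x p.1 p.2)) r s L (fun w b => MvPolynomial.X (w, b))
  have h2 : FZ r s L (fun w b => (MvPolynomial.X (w, b) : MvPolynomial (Fin n × Fin n) ℤ)) = 0 :=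
    h0
  rw [h2, map_zero] at h1
  rw [h1]
  simp

theorem QZ_ne_zero (n : ℕ) : QZ n ≠ 0 := by
  intro h0
  have h1 := eval_QZ (n := n) (fun _ b => (b : ℤ))
  rw [h0, map_zero] at h1
  have h2 := map_DZ (Int.castRingHom ℚ) (fun _ b : Fin n => ((b : ℕ) : ℤ))
  have h3 : DZ (fun _ b : Fin n => (((b : ℕ) : ℤ) : ℚ)) ≠ 0 := by
    refine DZ_ne_zero fun w b b' hbb => ?_
    refine Fin.ext ?_
    have : (((b : ℕ) : ℤ) : ℚ) = (((b' : ℕ) : ℤ) : ℚ) := hbb
    exact_mod_cast this
  apply h3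
  have h4 : Int.castRingHom ℚ (DZ (fun _ b : Fin n => ((b : ℕ) : ℤ))) =
      DZ (fun _ b : Fin n => (((b : ℕ) : ℤ) : ℚ)) := h2
  rw [← h4, ← h1, map_zero]

theorem totalDegree_PZ (r s : Fin n → Fin n → ℕ) (L : List (Equiv.Perm (Fin n))) :
    (PZ r s L).totalDegree ≤ n * (n * n) :=
  totalDegree_FZ (fun w b => by rw [MvPolynomial.totalDegree_X]) r s L

theorem totalDegree_QZ (n : ℕ) : (QZ n).totalDegree ≤ n * (n * n) :=
  totalDegree_DZ (fun w b => by rw [MvPolynomial.totalDegree_X])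

end Pool.Agent.H688.WSM
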