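import Pool.Agent.H688.WSM.DetId

/-!
# The test polynomial
-/

set_option autoImplicit false
set_option linter.unusedSectionVars false

namespace Pool.Agent.H688.WSM

open Finset Function Matrix

variable {n : ℕ}

section Ring

variable {R : Type*} [CommRing R]

/-- product of the differences `x m - x b` -/
def dd (x : Fin n → R) (m : Fin n) : R := ∏ b, if b = m then 1 else x m - x b

/-- the same without `j` -/
def ff (x : Fin n → R) (m j : Fin n) : R := ∏ b, if b = m ∨ b = j then 1 else x m - x b

/-- numerator of the probability that a woman with the ranks `s` and the husband `j` prefers `m` -/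
def qn (x : Fin n → R) (s : Fin n → ℕ) (j m : Fin n) : R :=
  if s m < s j then dd x m else if s m = s j ∧ m ≠ j then x m * ff x m j else 0

/-- an entry for one list `a` of the man `m` -/
def entA (a : Fin n → ℕ) (s : Fin n → Fin n → ℕ) (x : Fin n → Fin n → R)
    (M : Equiv.Perm (Fin n)) (m j : Fin n) : R :=
  (if j = m then ∏ w, (if a w < a (M m) then dd (x w) m - qn (x w) (s w) (M.symm w) m
      else dd (x w) m) else 0) -
    (if a (M m) < a (M j) then ∏ w, (if a w < a (M j) then
      dd (x w) m - qn (x w) (s w) (M.symm w) m else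
        if w = M j then qn (x w) (s w) (M.symm w) m else dd (x w) m) else 0)

/-- the entries of the matrix of `M`, without denominators -/
def entZ (r s : Fin n → Fin n → ℕ) (x : Fin n → Fin n → R) (M : Equiv.Perm (Fin n))
    (m j : Fin n) : R := ∑ v : Fin n, entA (ka r v m) s x M m j

/-- the common denominator -/
def DZ (x : Fin n → Fin n → R) : R := ∏ m, ∏ w, dd (x w) m

/-- the value of the test -/
def FZ (r s : Fin n → Fin n → ℕ) (L : List (Equiv.Perm (Fin n))) (x : Fin n → Fin n → R) : R :=
  (L.map fun M => (of (entZ r s x M)).det).sum - (n : R) ^ n * DZ x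

section

variable {S : Type*} [CommRing S] (φ : R →+* S)

theorem map_dd (x : Fin n → R) (m : Fin n) : φ (dd x m) = dd (fun b => φ (x b)) m := by
  unfold dd
  rw [map_prod]
  refine prod_congr rfl fun b _ => ?_
  split_ifs <;> simp

theorem map_ff (x : Fin n → R) (m j : Fin n) : φ (ff x m j) = ff (fun b => φ (x b)) m j := by
  unfold ff
  rw [map_prod]
  refine prod_congr rfl fun b _ => ?_
  split_ifs <;> simp

theorem map_qn (x : Fin n → R) (s : Fin n → ℕ) (j m : Fin n) :
    φ (qn x s j m) = qn (fun b => φ (x b)) s j m := by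
  unfold qn
  split_ifs
  · exact map_dd φ x m
  · rw [map_mul, map_ff]
  · simp

theorem map_entZ (r s : Fin n → Fin n → ℕ) (x : Fin n → Fin n → R) (M : Equiv.Perm (Fin n))
    (m j : Fin n) : φ (entZ r s x M m j) = entZ r s (fun w b => φ (x w b)) M m j := by
  unfold entZ
  rw [map_sum]
  refine sum_congr rfl fun v _ => ?_
  unfold entA
  rw [map_sub]
  congr 1
  · split_ifs
    · rw [map_prod]
      refine prod_congr rfl fun w _ => ?_
      split_ifs
      · rw [map_sub, map_dd, map_qn]
      · rw [map_dd]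
    · simp
  · split_ifs
    · rw [map_prod]
      refine prod_congr rfl fun w _ => ?_
      split_ifs
      · rw [map_sub, map_dd, map_qn]
      · rw [map_qn]
      · rw [map_dd]
    · simp

theorem map_DZ (x : Fin n → Fin n → R) : φ (DZ x) = DZ (fun w b => φ (x w b)) := by
  unfold DZ
  simp only [map_prod, map_dd]

theorem map_FZ (r s : Fin n → Fin n → ℕ) (L : List (Equiv.Perm (Fin n)))
    (x : Fin n → Fin n → R) : φ (FZ r s L x) = FZ r s L (fun w b => φ (x w b)) := by
  unfold FZ
  rw [map_sub, map_list_sum, List.map_map, map_mul, map_pow, map_natCast, map_DZ]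
  congr 2
  refine List.map_congr_left fun M _ => ?_
  simp only [Function.comp_apply]
  rw [RingHom.map_det]
  congr 1
  ext m j
  simp only [RingHom.mapMatrix_apply, map_apply, of_apply]
  exact map_entZ φ r s x M m j

end

end Ring

section Field

variable {F : Type*} [Field F]

theorem dd_ne_zero {x : Fin n → F} (hx : Injective x) (m : Fin n) : dd x m ≠ 0 := by
  unfold dd
  rw [prod_ne_zero_iff]
  intro b _
  by_cases h : b = m
  · rw [if_pos h]; exact one_ne_zero
  · rw [if_neg h, sub_ne_zero]
    exact hx.ne (Ne.symm h)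

theorem dd_eq (x : Fin n → F) {m j : Fin n} (h : m ≠ j) : dd x m = (x m - x j) * ff x m j := by
  unfold dd ff
  rw [← mul_prod_erase univ _ (mem_univ j), ← mul_prod_erase univ
    (fun b => if b = m ∨ b = j then (1 : F) else x m - x b) (mem_univ j)]
  rw [if_neg (Ne.symm h), if_pos (Or.inr rfl), one_mul]
  congr 1
  refine prod_congr rfl fun b hb => ?_
  have : b ≠ j := ne_of_mem_erase hb
  simp [this]

theorem qn_eq {x : Fin n → F} (hx : Injective x) (s : Fin n → ℕ) (j m : Fin n) :
    qn x s j m = qq x s j m * dd x m := by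
  unfold qn qq
  split_ifs with h1 h2
  · rw [one_mul]
  · rw [dd_eq x h2.2]
    unfold pr
    have h3 : x m - x j ≠ 0 := sub_ne_zero.2 (hx.ne h2.2)
    field_simp
  · rw [zero_mul]

theorem entA_eq {x : Fin n → Fin n → F} (hx : ∀ w, Injective (x w)) (a : Fin n → ℕ)
    (s : Fin n → Fin n → ℕ) (M : Equiv.Perm (Fin n)) (m j : Fin n) :
    entA a s x M m j = mean a (fun w => qq (x w) (s w) (M.symm w) m) M m j * ∏ w, dd (x w) m := by
  unfold entA mean
  rw [sub_mul]
  congr 1
  · split_ifs
    · rw [← prod_mul_distrib]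
      refine prod_congr rfl fun w _ => ?_
      rw [qn_eq (hx w)]
      split_ifs <;> ring
    · simp
  · split_ifs
    · rw [mul_assoc, ← prod_mul_distrib]
      rw [← mul_prod_erase univ _ (mem_univ (M j)), ← mul_prod_erase univ
        (fun w => (if a w < a (M j) then 1 - qq (x w) (s w) (M.symm w) m else 1) * dd (x w) m)
        (mem_univ (M j))]
      rw [if_neg (lt_irrefl _), if_pos rfl, if_neg (lt_irrefl _), one_mul, ← mul_assoc,
        qn_eq (hx _)]
      congr 1
      refine prod_congr rfl fun w hw => ?_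
      have : w ≠ M j := ne_of_mem_erase hw
      rw [qn_eq (hx w), if_neg this]
      split_ifs <;> ring
    · simp

theorem entZ_eq {x : Fin n → Fin n → F} (hx : ∀ w, Injective (x w)) (r s : Fin n → Fin n → ℕ)
    (M : Equiv.Perm (Fin n)) (m j : Fin n) :
    entZ r s x M m j = RX r s x M m j * ∏ w, dd (x w) m := by
  unfold entZ RX
  rw [sum_mul]
  exact sum_congr rfl fun v _ => entA_eq hx _ s M m j

theorem DZ_ne_zero {x : Fin n → Fin n → F} (hx : ∀ w, Injective (x w)) : DZ x ≠ 0 := by
  unfold DZ
  rw [prod_ne_zero_iff]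
  intro m _
  rw [prod_ne_zero_iff]
  exact fun w _ => dd_ne_zero (hx w) m

theorem det_entZ {x : Fin n → Fin n → F} (hx : ∀ w, Injective (x w)) (r s : Fin n → Fin n → ℕ)
    (M : Equiv.Perm (Fin n)) :
    (of (entZ r s x M)).det = (of (RX r s x M)).det * DZ x := by
  have h1 : (of (entZ r s x M)) = of fun m j => (∏ w, dd (x w) m) * (of (RX r s x M)) m j := by
    ext m j
    simp only [of_apply]
    rw [entZ_eq hx, mul_comm]
  rw [h1, Matrix.det_mul_column, mul_comm]
  rfl

open Classical in
theorem FZ_eq {x : Fin n → Fin n → F} (hx : ∀ w, Injective (x w)) (r s : Fin n → Fin n → ℕ)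
    {L : List (Equiv.Perm (Fin n))} (hL : L.Nodup) :
    FZ r s L x = - ((∑ ν : Fin n → Fin n,
      ∑ π ∈ Fintype.piFinset (fun _ : Fin n => ordF n), (∏ w, mu (x w) (π w)) *
        (if ∀ M ∈ L, ¬ Gd (KA r fun m => (ν m : ℕ)) (KB s π) M then 1 else 0)) * DZ x) := by
  unfold FZ
  have h1 : (L.map fun M => (of (entZ r s x M)).det).sum =
      (L.map fun M => (of (RX r s x M)).det).sum * DZ x := by
    rw [← List.sum_map_mul_right]
    congr 1
    exact List.map_congr_left fun M _ => det_entZ hx r s M
  rw [h1, sum_det_RX hx r s hL]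
  ring

/-- if nothing is missing then the test value is zero -/
theorem FZ_eq_zero {x : Fin n → Fin n → F} (hx : ∀ w, Injective (x w))
    {r s : Fin n → Fin n → ℕ} {L : List (Equiv.Perm (Fin n))} (hL : L.Nodup)
    (h : ¬ Miss r s L) : FZ r s L x = 0 := by
  classical
  rw [FZ_eq hx r s hL]
  have h1 : (∑ ν : Fin n → Fin n,
      ∑ π ∈ Fintype.piFinset (fun _ : Fin n => ordF n), (∏ w, mu (x w) (π w)) *
        (if ∀ M ∈ L, ¬ Gd (KA r fun m => (ν m : ℕ)) (KB s π) M then (1 : F) else 0)) = 0 := by
    refine sum_eq_zero fun ν _ => sum_eq_zero fun π hπ => ?_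
    rw [Fintype.mem_piFinset] at hπ
    rw [if_neg, mul_zero]
    intro hc
    exact h ⟨ν, π, hπ, hc⟩
  rw [h1]
  simp

end Field

/-- the same for integers -/
theorem FZ_eq_zero_int {x : Fin n → Fin n → ℤ} (hx : DZ x ≠ 0)
    {r s : Fin n → Fin n → ℕ} {L : List (Equiv.Perm (Fin n))} (hL : L.Nodup)
    (h : ¬ Miss r s L) : FZ r s L x = 0 := by
  have hx' : ∀ w, Injective (fun b => (x w b : ℚ)) := by
    intro w b m hbm
    by_contra hne
    apply hx
    unfold DZ
    refine prod_eq_zero (mem_univ m) (prod_eq_zero (mem_univ w) ?_)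
    unfold dd
    refine prod_eq_zero (mem_univ b) ?_
    rw [if_neg hne]
    have h1 : (x w b : ℚ) = x w m := hbm
    have h2 : x w b = x w m := by exact_mod_cast h1
    rw [h2, sub_self]
  have h1 := FZ_eq_zero (x := fun w b => (x w b : ℚ)) hx' hL h
  have h2 := map_FZ (Int.castRingHom ℚ) r s L x
  have h3 : ((FZ r s L x : ℤ) : ℚ) = 0 := by
    rw [← h1]
    exact h2
  exact_mod_cast h3

/-! ### degrees -/

section Degree

open MvPolynomial

variable {ι : Type*}

theorem totalDegree_prod_le {κ : Type*} (S : Finset κ) (f : κ → MvPolynomial ι ℤ) (d : ℕ)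
    (h : ∀ k ∈ S, (f k).totalDegree ≤ d) : (∏ k ∈ S, f k).totalDegree ≤ S.card * d := by
  refine (totalDegree_finsetProd S f).trans ?_
  refine (sum_le_card_nsmul S _ d h).trans ?_
  rw [smul_eq_mul]

theorem totalDegree_sub_le' {p q : MvPolynomial ι ℤ} {d : ℕ} (hp : p.totalDegree ≤ d)
    (hq : q.totalDegree ≤ d) : (p - q).totalDegree ≤ d :=
  (totalDegree_sub p q).trans (max_le hp hq)

theorem totalDegree_det_le {k : ℕ} (A : Matrix (Fin k) (Fin k) (MvPolynomial ι ℤ)) (d : ℕ)
    (h : ∀ i j, (A i j).totalDegree ≤ d) : A.det.totalDegree ≤ k * d := by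
  rw [det_apply]
  refine totalDegree_finsetSum_le fun σ _ => ?_
  have h1 : (∏ i, A (σ i) i).totalDegree ≤ k * d := by
    refine (totalDegree_prod_le univ _ d fun i _ => h _ _).trans ?_
    simp
  rcases Int.units_eq_one_or (Equiv.Perm.sign σ) with h2 | h2
  · rw [h2, one_smul]; exact h1
  · rw [h2, Units.neg_smul, one_smul, totalDegree_neg]; exact h1

variable {x : Fin n → Fin n → MvPolynomial ι ℤ} (hx : ∀ w b, (x w b).totalDegree ≤ 1)

include hx

theorem totalDegree_dd (w m : Fin n) : (dd (x w) m).totalDegree ≤ n := by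
  unfold dd
  refine (totalDegree_prod_le univ _ 1 fun b _ => ?_).trans (by simp)
  split_ifs
  · simp
  · exact totalDegree_sub_le' (hx _ _) (hx _ _)

theorem totalDegree_ff (w m j : Fin n) (h : m ≠ j) : (x w m * ff (x w) m j).totalDegree ≤ n := by
  unfold ff
  rw [← mul_prod_erase univ _ (mem_univ m), if_pos (Or.inl rfl), one_mul]
  refine (totalDegree_mul _ _).trans ?_
  have h1 : (∏ b ∈ univ.erase m, (if b = m ∨ b = j then 1 else x w m - x w b)).totalDegree ≤
      (univ.erase m).card * 1 := by
    refine totalDegree_prod_le _ _ 1 fun b _ => ?_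
    split_ifs
    · simp
    · exact totalDegree_sub_le' (hx _ _) (hx _ _)
  rw [card_erase_of_mem (mem_univ _), card_univ, Fintype.card_fin] at h1
  have h2 := hx w m
  have := m.2
  omega

theorem totalDegree_qn (s : Fin n → ℕ) (w j m : Fin n) : (qn (x w) s j m).totalDegree ≤ n := by
  unfold qn
  split_ifs with h1 h2
  · exact totalDegree_dd hx w m
  · exact totalDegree_ff hx w m j h2.2
  · simp

theorem totalDegree_entZ (r s : Fin n → Fin n → ℕ) (M : Equiv.Perm (Fin n)) (m j : Fin n) :
    (entZ r s x M m j).totalDegree ≤ n * n := by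
  unfold entZ
  refine totalDegree_finsetSum_le fun v _ => ?_
  unfold entA
  refine totalDegree_sub_le' ?_ ?_
  · split_ifs
    · refine (totalDegree_prod_le univ _ n fun w _ => ?_).trans (by simp)
      split_ifs
      · exact totalDegree_sub_le' (totalDegree_dd hx _ _) (totalDegree_qn hx _ _ _ _)
      · exact totalDegree_dd hx _ _
    · simp
  · split_ifs
    · refine (totalDegree_prod_le univ _ n fun w _ => ?_).trans (by simp)
      split_ifs
      · exact totalDegree_sub_le' (totalDegree_dd hx _ _) (totalDegree_qn hx _ _ _ _)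
      · exact totalDegree_qn hx _ _ _ _
      · exact totalDegree_dd hx _ _
    · simp

theorem totalDegree_DZ : (DZ x).totalDegree ≤ n * (n * n) := by
  unfold DZ
  refine (totalDegree_prod_le univ _ (n * n) fun m _ => ?_).trans (by simp)
  exact (totalDegree_prod_le univ _ n fun w _ => totalDegree_dd hx w m).trans (by simp)

theorem totalDegree_FZ (r s : Fin n → Fin n → ℕ) (L : List (Equiv.Perm (Fin n))) :
    (FZ r s L x).totalDegree ≤ n * (n * n) := by
  unfold FZ
  refine totalDegree_sub_le' ?_ ?_
  · induction L with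
    | nil => simp
    | cons M L ih =>
        rw [List.map_cons, List.sum_cons]
        refine (totalDegree_add _ _).trans (max_le ?_ ih)
        exact totalDegree_det_le _ _ fun i j => totalDegree_entZ hx r s M i j
  · refine (totalDegree_mul _ _).trans ?_
    have h1 : ((n : MvPolynomial ι ℤ) ^ n).totalDegree = 0 := by
      have : ((n : MvPolynomial ι ℤ) ^ n) = C ((n : ℤ) ^ n) := by simp
      rw [this, totalDegree_C]
    rw [h1, zero_add]
    exact totalDegree_DZ hx

end Degree

end Pool.Agent.H688.WSM
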