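import Pool.Agent.H688.WSM.SZ
import Pool.Agent.H688.WSM.Gen

/-!
# Good tables of random numbers
-/

set_option autoImplicit false
set_option linter.unusedSectionVars false

namespace Pool.Agent.H688.WSM

open Finset Function

variable {n : ℕ}

/-- lists coded by functions -/
def lst (n D : ℕ) (g : Fin D → Fin (n + 1)) : List ℕ :=
  (List.ofFn fun i => (g i : ℕ)).takeWhile fun c => decide (c < n)

theorem exists_lst {D : ℕ} {S : List ℕ} (h : Val n D S = true) : ∃ g, lst n D g = S := by
  obtain ⟨h1, h2⟩ := val_iff.1 h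
  refine ⟨fun i => if hi : (i : ℕ) < S.length then ⟨S[(i : ℕ)], by
    have := h2 _ (List.getElem_mem hi); omega⟩ else ⟨n, by omega⟩, ?_⟩
  have h3 : (List.ofFn fun i : Fin D => (((if hi : (i : ℕ) < S.length then
      (⟨S[(i : ℕ)], by have := h2 _ (List.getElem_mem hi); omega⟩ : Fin (n + 1)) else
        ⟨n, by omega⟩) : Fin (n + 1)) : ℕ)) = S ++ List.replicate (D - S.length) n := by
    refine List.ext_getElem (by simp; omega) fun i hi hi' => ?_
    rw [List.getElem_ofFn]
    by_cases h4 : i < S.length
    · rw [List.getElem_append_left h4]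
      simp [h4]
    · rw [List.getElem_append_right (by omega)]
      simp [h4]
  unfold lst
  rw [h3, List.takeWhile_append_of_pos (fun x hx => by simpa using h2 x hx)]
  have h5 : (List.replicate (D - S.length) n).takeWhile (fun c => decide (c < n)) = [] := by
    cases D - S.length with
    | zero => rfl
    | succ k => simp [List.replicate_succ]
  rw [h5, List.append_nil]

/-- the table `X` gives the right answers for the list `L` -/
structure GoodX (r s : Fin n → Fin n → ℕ) (L : List (Equiv.Perm (Fin n)))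
    (X : Fin n → Fin n → ℤ) : Prop where
  hD : DZ X ≠ 0
  h1 : ∀ S, Val n (n * (n + 1)) S = true → Miss1 r s L S → FZ (rS r S) (sS s S) L X ≠ 0
  h2 : ∀ K ∈ L, ∀ C, Val n (n * (n + 1)) C = true → ∀ [∀ b w, Decidable (al r s K C b w)],
    (∃ N : Equiv.Perm (Fin n), (∀ b, al r s K C b (N b)) ∧ N ∉ L) → F2 (al r s K C) L X ≠ 0

/-- a table as integers -/
def tz {N : ℕ} (X : Fin n → Fin n → Fin N) (i j : Fin n) : ℤ := ((X i j : ℕ) : ℤ)

open Classical in
theorem bad_card (r s : Fin n → Fin n → ℕ) {L : List (Equiv.Perm (Fin n))} (hL : L.Nodup)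
    (N : ℕ) :
    ((univ : Finset (Fin n → Fin n → Fin N)).filter fun X => ¬ GoodX r s L (tz X)).card * N ≤
      (1 + (n + 1) ^ (n * (n + 1)) + L.length * (n + 1) ^ (n * (n + 1))) *
        ((n * (n * n) + n) * N ^ (n * n)) := by
  let G : Type := Fin (n * (n + 1)) → Fin (n + 1)
  let l : G → List ℕ := lst n (n * (n + 1))
  let P : Unit ⊕ (G ⊕ (Fin L.length × G)) → MvPolynomial (Fin n × Fin n) ℤ := fun k =>
    match k with
    | Sum.inl _ => QZ n
    | Sum.inr (Sum.inl g) => if Miss1 r s L (l g) then PZ (rS r (l g)) (sS s (l g)) L else 1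
    | Sum.inr (Sum.inr (i, g)) =>
        if ∃ N : Equiv.Perm (Fin n), (∀ b, al r s (L.get i) (l g) b (N b)) ∧ N ∉ L then
          P2 (al r s (L.get i) (l g)) L else 1
  have hP3 : ∀ i g, (∃ N : Equiv.Perm (Fin n),
      (∀ b, al r s (L.get i) (l g) b (N b)) ∧ N ∉ L) →
      P (Sum.inr (Sum.inr (i, g))) = P2 (al r s (L.get i) (l g)) L := fun i g h => if_pos h
  have hP : ∀ k, P k ≠ 0 := by
    rintro (_ | (g | ⟨i, g⟩))
    · exact QZ_ne_zero n
    · change (if Miss1 r s L (l g) then PZ (rS r (l g)) (sS s (l g)) L else 1) ≠ 0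
      split_ifs with h
      · exact PZ_ne_zero hL h
      · exact one_ne_zero
    · change (if ∃ N : Equiv.Perm (Fin n), (∀ b, al r s (L.get i) (l g) b (N b)) ∧ N ∉ L then
          P2 (al r s (L.get i) (l g)) L else 1) ≠ 0
      split_ifs with h
      · exact P2_ne_zero hL h
      · exact one_ne_zero
  have hd : ∀ k, (P k).totalDegree ≤ n * (n * n) + n := by
    rintro (_ | (g | ⟨i, g⟩))
    · exact (totalDegree_QZ n).trans (by omega)
    · change (if Miss1 r s L (l g) then PZ (rS r (l g)) (sS s (l g)) L else 1).totalDegree ≤ _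
      split_ifs with h
      · exact (totalDegree_PZ _ _ _).trans (by omega)
      · simp
    · change (if ∃ N : Equiv.Perm (Fin n), (∀ b, al r s (L.get i) (l g) b (N b)) ∧ N ∉ L then
          P2 (al r s (L.get i) (l g)) L else 1).totalDegree ≤ _
      split_ifs with h
      · exact (totalDegree_P2 _ _).trans (by omega)
      · simp
  have h1 := union_card_le (N := N) P hP hd
  have h2 : Fintype.card (Unit ⊕ (G ⊕ (Fin L.length × G))) =
      1 + (n + 1) ^ (n * (n + 1)) + L.length * (n + 1) ^ (n * (n + 1)) := by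
    simp only [Fintype.card_sum, Fintype.card_unit, Fintype.card_prod, Fintype.card_fin]
    have h3 : Fintype.card G = (n + 1) ^ (n * (n + 1)) := by
      simp [G]
    rw [h3]
    ring
  rw [h2] at h1
  refine le_trans (Nat.mul_le_mul_right N (card_le_card fun X hX => ?_)) h1
  rw [mem_filter] at hX ⊢
  refine ⟨mem_univ _, ?_⟩
  by_contra hc
  push Not at hc
  have e : ∀ p : MvPolynomial (Fin n × Fin n) ℤ,
      MvPolynomial.eval (fun q : Fin n × Fin n => ((X q.1 q.2 : ℕ) : ℤ)) p =
      MvPolynomial.eval (fun q : Fin n × Fin n => tz X q.1 q.2) p := fun p => rfl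
  refine hX.2 ⟨?_, fun S hS hm => ?_, fun K hK C hC _ hm => ?_⟩
  · have := hc (Sum.inl ())
    rw [e] at this
    change MvPolynomial.eval _ (QZ n) ≠ 0 at this
    rwa [eval_QZ] at this
  · obtain ⟨g, rfl⟩ := exists_lst hS
    have := hc (Sum.inr (Sum.inl g))
    rw [e] at this
    change MvPolynomial.eval _ (if Miss1 r s L (l g) then PZ (rS r (l g)) (sS s (l g)) L
      else 1) ≠ 0 at this
    rw [if_pos hm, eval_PZ] at this
    exact this
  · obtain ⟨g, rfl⟩ := exists_lst hC
    obtain ⟨i, rfl⟩ := List.get_of_mem hK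
    have h3 := hc (Sum.inr (Sum.inr (i, g)))
    rw [hP3 i g hm, e, eval_P2] at h3
    intro h5
    apply h3
    rw [← h5]
    unfold F2 A2
    congr!

/-! ### the ideal run -/

open Classical in
/-- the exact second test, for lists -/
noncomputable def T2L (r s : Fin n → Fin n → ℕ) (L : List (Equiv.Perm (Fin n)))
    (K C : List ℕ) : Bool := decide (∃ K' : Equiv.Perm (Fin n), pl K' = K ∧ T2I r s L K' C = true)

theorem T2L_pl (r s : Fin n → Fin n → ℕ) (L : List (Equiv.Perm (Fin n)))
    (K : Equiv.Perm (Fin n)) (C : List ℕ) : T2L r s L (pl K) C = T2I r s L K C := by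
  unfold T2L
  cases h : T2I r s L K C
  · rw [decide_eq_false_iff_not]
    rintro ⟨K', h1, h2⟩
    rw [pl_inj h1, h] at h2
    exact absurd h2 (by simp)
  · rw [decide_eq_true_eq]
    exact ⟨K, rfl, h⟩

open Classical in
/-- the next matching of the ideal run -/
noncomputable def nextI (r s : Fin n → Fin n → ℕ) (gsf : List ℕ → List ℕ)
    (L : List (Equiv.Perm (Fin n))) : Option (Equiv.Perm (Fin n)) :=
  if h : ∃ M : Equiv.Perm (Fin n),
    nextG n gsf (T1I r s L) (T2L r s L) (L.map pl) = some (pl M) then some h.choose else none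

/-- the ideal run -/
noncomputable def seqI (r s : Fin n → Fin n → ℕ) (gsf : List ℕ → List ℕ) :
    ℕ → List (Equiv.Perm (Fin n))
  | 0 => []
  | i + 1 => seqI r s gsf i ++ (nextI r s gsf (seqI r s gsf i)).toList

/-- one step of the run -/
def ext (n : ℕ) (gsf : List ℕ → List ℕ) (T1 : List (List ℕ) → List ℕ → Bool)
    (T2 : List (List ℕ) → List ℕ → List ℕ → Bool) (L : List (List ℕ)) : List (List ℕ) :=
  L ++ (nextG n gsf (T1 L) (T2 L) L).toList

/-- a list of different weakly stable matchings -/
def Lst (r s : Fin n → Fin n → ℕ) (L : List (Equiv.Perm (Fin n))) : Prop :=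
  L.Nodup ∧ ∀ K ∈ L, Stable r s K

/-- nothing is missing -/
def Cpl (r s : Fin n → Fin n → ℕ) (L : List (Equiv.Perm (Fin n))) : Prop :=
  ∀ N, Stable r s N → N ∈ L

theorem Lst.append {r s : Fin n → Fin n → ℕ} {L : List (Equiv.Perm (Fin n))} (h : Lst r s L)
    {N : Equiv.Perm (Fin n)} (h1 : Stable r s N) (h2 : N ∉ L) : Lst r s (L ++ [N]) := by
  refine ⟨?_, fun K hK => ?_⟩
  · rw [List.nodup_append]
    exact ⟨h.1, by simp, fun a ha b hb hab => h2 (by
      rw [List.mem_singleton.1 hb] at hab
      exact hab ▸ ha)⟩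
  · rcases List.mem_append.1 hK with hK | hK
    · exact h.2 K hK
    · rw [List.mem_singleton.1 hK]; exact h1

theorem Lst.length_le {r s : Fin n → Fin n → ℕ} {L : List (Equiv.Perm (Fin n))} (h : Lst r s L) :
    L.length ≤ n.factorial := by
  have h1 := h.1.length_le_card
  rwa [Fintype.card_perm, Fintype.card_fin] at h1

section run

variable {r s : Fin n → Fin n → ℕ} {gsf : List ℕ → List ℕ}
  (hg : ∀ S, ∃ M : Equiv.Perm (Fin n), gsf S = pl M ∧ Gd (a0 r S) (b0 s S) M)

include hg

theorem nextI_some {L : List (Equiv.Perm (Fin n))} (hL : Lst r s L) {M : Equiv.Perm (Fin n)}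
    (h : nextI r s gsf L = some M) : Stable r s M ∧ M ∉ L ∧
      nextG n gsf (T1I r s L) (T2L r s L) (L.map pl) = some (pl M) := by
  unfold nextI at h
  split_ifs at h with h1
  have h2 := h1.choose_spec
  simp only [Option.some.injEq] at h
  rw [h] at h2
  obtain ⟨N, h3, h4, h5⟩ := sound hL.2 hg (fun K _ C hC => by rwa [T2L_pl] at hC) h2
  rw [pl_inj h3]
  exact ⟨h4, h5, by rw [← h3]; exact h2⟩

theorem nextI_none {L : List (Equiv.Perm (Fin n))} (hL : Lst r s L)
    (h : nextI r s gsf L = none) : Cpl r s L ∧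
      nextG n gsf (T1I r s L) (T2L r s L) (L.map pl) = none := by
  unfold nextI at h
  split_ifs at h with h1
  have h2 : nextG n gsf (T1I r s L) (T2L r s L) (L.map pl) = none := by
    cases h3 : nextG n gsf (T1I r s L) (T2L r s L) (L.map pl) with
    | none => rfl
    | some M =>
        obtain ⟨N, h4, -, -⟩ := sound hL.2 hg (fun K _ C hC => by rwa [T2L_pl] at hC) h3
        exact absurd ⟨N, by rw [h3, h4]⟩ h1
  refine ⟨?_, h2⟩
  by_contra hc
  unfold Cpl at hc
  push Not at hc
  obtain ⟨M, hM⟩ := complete_step hL.2 hg (T1 := T1I r s L) (T2 := T2L r s L) (fun S => rfl)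
    (fun K _ C => T2L_pl r s L K C) hc
  rw [h2] at hM
  exact absurd hM (by simp)

theorem seqI_spec (i : ℕ) : Lst r s (seqI r s gsf i) ∧
    (Cpl r s (seqI r s gsf i) ∨ (seqI r s gsf i).length = i) := by
  induction i with
  | zero => exact ⟨⟨List.nodup_nil, by simp [seqI]⟩, Or.inr rfl⟩
  | succ i ih =>
      obtain ⟨h1, h2⟩ := ih
      unfold seqI
      cases h : nextI r s gsf (seqI r s gsf i) with
      | none =>
          simp only [Option.toList_none, List.append_nil]
          exact ⟨h1, Or.inl (nextI_none hg h1 h).1⟩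
      | some M =>
          simp only [Option.toList_some]
          obtain ⟨h3, h4, -⟩ := nextI_some hg h1 h
          refine ⟨h1.append h3 h4, Or.inr ?_⟩
          rcases h2 with h2 | h2
          · exact absurd (h2 M h3) h4
          · simp [h2]

variable {T1 : List (List ℕ) → List ℕ → Bool} {T2 : List (List ℕ) → List ℕ → List ℕ → Bool}
  (hs : ∀ L, Lst r s L → ∀ K ∈ L, ∀ C, T2 (L.map pl) (pl K) C = true → T2I r s L K C = true)

include hs

/-- the results are always correct -/
theorem run_sound (i : ℕ) : ∃ L, (ext n gsf T1 T2)^[i] [] = L.map pl ∧ Lst r s L ∧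
    L.length ≤ i := by
  induction i with
  | zero => exact ⟨[], rfl, ⟨List.nodup_nil, by simp⟩, by simp⟩
  | succ i ih =>
      obtain ⟨L, h1, h2, h3⟩ := ih
      rw [iterate_succ_apply', h1]
      unfold ext
      cases h : nextG n gsf (T1 (L.map pl)) (T2 (L.map pl)) (L.map pl) with
      | none => exact ⟨L, by simp, h2, by omega⟩
      | some M =>
          obtain ⟨N, h4, h5, h6⟩ := sound h2.2 hg (hs L h2) h
          exact ⟨L ++ [N], by simp [h4], h2.append h5 h6, by simp; omega⟩

/-- if the tests are exact on the lists of the ideal run then the run is the ideal run -/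
theorem run_ideal (hgood : ∀ j < n.factorial,
      (∀ S, T1 ((seqI r s gsf j).map pl) S = T1I r s (seqI r s gsf j) S) ∧
      ∀ K ∈ seqI r s gsf j, ∀ C, T2 ((seqI r s gsf j).map pl) (pl K) C =
        T2I r s (seqI r s gsf j) K C) (i : ℕ) :
    (ext n gsf T1 T2)^[i] [] = (seqI r s gsf i).map pl := by
  induction i with
  | zero => rfl
  | succ i ih =>
      obtain ⟨h1, h2⟩ := seqI_spec hg i
      rw [iterate_succ_apply', ih]
      have hseq : seqI r s gsf (i + 1) = seqI r s gsf i ++
        (nextI r s gsf (seqI r s gsf i)).toList := rfl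
      rw [hseq]
      unfold ext
      rw [List.map_append]
      congr 1
      set L := seqI r s gsf i with hLdef
      by_cases hc : Cpl r s L
      · -- nothing is missing
        have h3 : nextG n gsf (T1 (L.map pl)) (T2 (L.map pl)) (L.map pl) = none := by
          cases h : nextG n gsf (T1 (L.map pl)) (T2 (L.map pl)) (L.map pl) with
          | none => rfl
          | some M =>
              obtain ⟨N, -, h5, h6⟩ := sound h1.2 hg (hs L h1) h
              exact absurd (hc N h5) h6
        have h4 : nextI r s gsf L = none := by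
          cases h : nextI r s gsf L with
          | none => rfl
          | some M =>
              obtain ⟨h5, h6, -⟩ := nextI_some hg h1 h
              exact absurd (hc M h5) h6
        rw [h3, h4]
        rfl
      · -- something is missing
        have hlen : L.length = i := by
          rcases h2 with h2 | h2
          · exact absurd h2 hc
          · exact h2
        have hlt : i < n.factorial := by
          unfold Cpl at hc
          push Not at hc
          obtain ⟨N, h3, h4⟩ := hc
          have h5 := (h1.append h3 h4).length_le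
          simp only [List.length_append, List.length_singleton] at h5
          omega
        obtain ⟨g1, g2⟩ := hgood i hlt
        have g1' : T1 (L.map pl) = T1I r s L := funext g1
        have g3 : nextG n gsf (T1 (L.map pl)) (T2 (L.map pl)) (L.map pl) =
            nextG n gsf (T1I r s L) (T2L r s L) (L.map pl) := by
          rw [g1']
          unfold nextG
          congr 2
          rw [List.flatMap_map, List.flatMap_map]
          refine List.flatMap_congr fun K hK => ?_
          have g4 : T2 (L.map pl) (pl K) = T2L r s L (pl K) := by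
            funext C
            rw [g2 K hK, T2L_pl]
          rw [g4]
        rw [g3]
        cases h : nextI r s gsf L with
        | none =>
            rw [(nextI_none hg h1 h).2]
            rfl
        | some M =>
            rw [(nextI_some hg h1 h).2.2]
            rfl

end run

/-! ### the probability -/

theorem numeric (n : ℕ) : n.factorial * ((1 + (n + 1) ^ (n * (n + 1)) +
    n.factorial * (n + 1) ^ (n * (n + 1))) * (n * (n * n) + n)) ≤ 2 ^ ((n + 1) ^ 3 + 3) := by
  have h1 : n.factorial ≤ 2 ^ (n * n) := by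
    calc n.factorial ≤ n ^ n := Nat.factorial_le_pow n
      _ ≤ (2 ^ n) ^ n := Nat.pow_le_pow_left (Nat.lt_two_pow_self.le) n
      _ = 2 ^ (n * n) := by rw [← pow_mul]
  have h2 : (n + 1) ^ (n * (n + 1)) ≤ 2 ^ (n * (n * (n + 1))) := by
    calc (n + 1) ^ (n * (n + 1)) ≤ (2 ^ n) ^ (n * (n + 1)) :=
          Nat.pow_le_pow_left (Nat.lt_two_pow_self) _
      _ = 2 ^ (n * (n * (n + 1))) := by rw [← pow_mul]
  have h3 : n * (n * n) + n ≤ 2 ^ (3 * n + 1) := by
    have h4 : n ≤ 2 ^ n := Nat.lt_two_pow_self.le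
    have h5 : n * (n * n) ≤ 2 ^ n * (2 ^ n * 2 ^ n) :=
      Nat.mul_le_mul h4 (Nat.mul_le_mul h4 h4)
    have h6 : 2 ^ n * (2 ^ n * 2 ^ n) = 2 ^ (3 * n) := by rw [← pow_add, ← pow_add]; congr 1; ring
    have h7 : 2 ^ n ≤ 2 ^ (3 * n) := Nat.pow_le_pow_right (by norm_num) (by omega)
    rw [pow_succ]
    omega
  have h4 : 1 + (n + 1) ^ (n * (n + 1)) + n.factorial * (n + 1) ^ (n * (n + 1)) ≤
      2 ^ (n * n + n * (n * (n + 1)) + 2) := by
    have e1 : 1 ≤ 2 ^ (n * n + n * (n * (n + 1))) := Nat.one_le_two_pow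
    have e2 : (n + 1) ^ (n * (n + 1)) ≤ 2 ^ (n * n + n * (n * (n + 1))) :=
      h2.trans (Nat.pow_le_pow_right (by norm_num) (by omega))
    have e3 : n.factorial * (n + 1) ^ (n * (n + 1)) ≤ 2 ^ (n * n + n * (n * (n + 1))) := by
      rw [pow_add]
      exact Nat.mul_le_mul h1 h2
    have e4 : 2 ^ (n * n + n * (n * (n + 1)) + 2) = 4 * 2 ^ (n * n + n * (n * (n + 1))) := by
      rw [pow_add]; ring
    rw [e4]
    omega
  calc _ ≤ 2 ^ (n * n) * (2 ^ (n * n + n * (n * (n + 1)) + 2) * 2 ^ (3 * n + 1)) :=
        Nat.mul_le_mul h1 (Nat.mul_le_mul h4 h3)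
    _ = 2 ^ (n * n + (n * n + n * (n * (n + 1)) + 2 + (3 * n + 1))) := by
        rw [← pow_add, ← pow_add]
    _ ≤ _ := by
        refine Nat.pow_le_pow_right (by norm_num) ?_
        nlinarith

open Classical in
/-- the tables which are not good for some list of the ideal run are rare -/
theorem bad_total (r s : Fin n → Fin n → ℕ) {gsf : List ℕ → List ℕ}
    (hg : ∀ S, ∃ M : Equiv.Perm (Fin n), gsf S = pl M ∧ Gd (a0 r S) (b0 s S) M)
    {N t : ℕ} (hN : 2 ^ ((n + 1) ^ 3 + 3 + t) ≤ N) :
    2 ^ t * ((univ : Finset (Fin n → Fin n → Fin N)).filter fun X =>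
      ∃ j < n.factorial, ¬ GoodX r s (seqI r s gsf j) (tz X)).card ≤ N ^ (n * n) := by
  set A := (n + 1) ^ (n * (n + 1)) with hA
  set d := n * (n * n) + n with hd
  have h1 : ((univ : Finset (Fin n → Fin n → Fin N)).filter fun X =>
      ∃ j < n.factorial, ¬ GoodX r s (seqI r s gsf j) (tz X)) ⊆
      (Finset.range n.factorial).biUnion fun j =>
        (univ : Finset (Fin n → Fin n → Fin N)).filter fun X =>
          ¬ GoodX r s (seqI r s gsf j) (tz X) := by
    intro X hX
    rw [mem_filter] at hX
    obtain ⟨-, j, h1, h2⟩ := hX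
    rw [mem_biUnion]
    exact ⟨j, Finset.mem_range.2 h1, by rw [mem_filter]; exact ⟨mem_univ _, h2⟩⟩
  have h2 : ((univ : Finset (Fin n → Fin n → Fin N)).filter fun X =>
      ∃ j < n.factorial, ¬ GoodX r s (seqI r s gsf j) (tz X)).card * N ≤
      n.factorial * ((1 + A + n.factorial * A) * (d * N ^ (n * n))) := by
    calc _ ≤ (∑ j ∈ Finset.range n.factorial,
        ((univ : Finset (Fin n → Fin n → Fin N)).filter fun X =>
          ¬ GoodX r s (seqI r s gsf j) (tz X)).card) * N :=
          Nat.mul_le_mul_right N ((card_le_card h1).trans card_biUnion_le)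
      _ = ∑ j ∈ Finset.range n.factorial,
        ((univ : Finset (Fin n → Fin n → Fin N)).filter fun X =>
          ¬ GoodX r s (seqI r s gsf j) (tz X)).card * N := by rw [sum_mul]
      _ ≤ ∑ _j ∈ Finset.range n.factorial, (1 + A + n.factorial * A) * (d * N ^ (n * n)) := by
          refine sum_le_sum fun j _ => ?_
          have h3 := (seqI_spec hg j).1
          refine (bad_card r s h3.1 N).trans ?_
          refine Nat.mul_le_mul_right _ ?_
          have := Nat.mul_le_mul_right A h3.length_le
          rw [← hA]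
          omega
      _ = _ := by rw [sum_const, card_range, smul_eq_mul]
  have h3 := numeric n
  have hN0 : 0 < N := lt_of_lt_of_le (by positivity) hN
  set B := ((univ : Finset (Fin n → Fin n → Fin N)).filter fun X =>
      ∃ j < n.factorial, ¬ GoodX r s (seqI r s gsf j) (tz X)).card with hB
  have h4 : B * N ≤ 2 ^ ((n + 1) ^ 3 + 3) * N ^ (n * n) := by
    refine h2.trans ?_
    have : n.factorial * ((1 + A + n.factorial * A) * (d * N ^ (n * n))) =
        (n.factorial * ((1 + A + n.factorial * A) * d)) * N ^ (n * n) := by ring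
    rw [this]
    exact Nat.mul_le_mul_right _ h3
  have h5 : (2 ^ t * B) * 2 ^ ((n + 1) ^ 3 + 3) ≤ N ^ (n * n) * 2 ^ ((n + 1) ^ 3 + 3) := by
    calc (2 ^ t * B) * 2 ^ ((n + 1) ^ 3 + 3) = B * 2 ^ ((n + 1) ^ 3 + 3 + t) := by
          rw [pow_add]; ring
      _ ≤ B * N := Nat.mul_le_mul_left _ hN
      _ ≤ _ := by rw [mul_comm (N ^ (n * n))]; exact h4
  exact Nat.le_of_mul_le_mul_right h5 (by positivity)

end Pool.Agent.H688.WSM
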