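import Pool.Agent.H688.WSM.Clo

/-!
# Partially refined instances

A list `S` of numbers below `n` describes a refinement of the instance: its first `n` numbers are
promoted women of the men, and then come `n` blocks of `n` numbers: beginnings of the orders of
the women.
-/

set_option autoImplicit false
set_option linter.unusedSectionVars false

namespace Pool.Agent.H688.WSM

open Finset Function

variable {n : ℕ}

/-- block number `i` -/
def blk (n : ℕ) (S : List ℕ) (i : ℕ) : List ℕ := (S.drop (i * n)).take n

/-- the refined lists of the men -/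
def rS (r : Fin n → Fin n → ℕ) (S : List ℕ) (m w : Fin n) : ℕ :=
  match S[(m : ℕ)]? with
  | some v => ka r v m w
  | none => r m w

/-- the refined lists of the women -/
def sS (s : Fin n → Fin n → ℕ) (S : List ℕ) (w m : Fin n) : ℕ :=
  s w m * (n + 1) + (blk n S (w + 1)).idxOf (m : ℕ)

theorem length_blk (S : List ℕ) (i : ℕ) : (blk n S i).length ≤ n := by
  unfold blk
  rw [List.length_take]
  omega

theorem idxOf_blk_le (S : List ℕ) (i k : ℕ) : (blk n S i).idxOf k ≤ n :=
  (List.idxOf_le_length).trans (length_blk S i)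

theorem rS_lt {r : Fin n → Fin n → ℕ} (S : List ℕ) {m w w' : Fin n} (h : r m w < r m w') :
    rS r S m w < rS r S m w' := by
  unfold rS
  split
  · exact ka_lt h
  · exact h

theorem sS_lt {s : Fin n → Fin n → ℕ} (S : List ℕ) {w m m' : Fin n} (h : s w m < s w m') :
    sS s S w m < sS s S w m' := by
  unfold sS
  have h1 : s w m * (n + 1) + (n + 1) ≤ s w m' * (n + 1) := by nlinarith
  have h2 := idxOf_blk_le (n := n) S (w + 1) (m : ℕ)
  omega

theorem sS_lt_iff {s : Fin n → Fin n → ℕ} (S : List ℕ) {w m m' : Fin n} :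
    sS s S w m < sS s S w m' ↔ s w m < s w m' ∨
      (s w m = s w m' ∧ (blk n S (w + 1)).idxOf (m : ℕ) < (blk n S (w + 1)).idxOf (m' : ℕ)) := by
  constructor
  · intro h
    rcases lt_trichotomy (s w m) (s w m') with h1 | h1 | h1
    · exact Or.inl h1
    · right
      refine ⟨h1, ?_⟩
      unfold sS at h
      rw [h1] at h
      omega
    · exact absurd h (sS_lt S h1).not_gt
  · rintro (h | ⟨h1, h2⟩)
    · exact sS_lt S h
    · unfold sS
      rw [h1]
      omega

theorem sS_eq_iff {s : Fin n → Fin n → ℕ} (S : List ℕ) {w m m' : Fin n} :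
    sS s S w m = sS s S w m' ↔
      (s w m = s w m' ∧ (blk n S (w + 1)).idxOf (m : ℕ) = (blk n S (w + 1)).idxOf (m' : ℕ)) := by
  constructor
  · intro h
    rcases lt_trichotomy (s w m) (s w m') with h1 | h1 | h1
    · exact absurd h (sS_lt S h1).ne
    · refine ⟨h1, ?_⟩
      unfold sS at h
      rw [h1] at h
      omega
    · exact absurd h (sS_lt S h1).ne'
  · rintro ⟨h1, h2⟩
    unfold sS
    rw [h1, h2]

theorem stable_of_refined {r s : Fin n → Fin n → ℕ} {S : List ℕ} {M : Equiv.Perm (Fin n)}
    (h : Stable (rS r S) (sS s S) M) : Stable r s M := by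
  rintro m j ⟨h1, h2⟩
  exact h m j ⟨rS_lt S h1, sS_lt S h2⟩

/-- something is missing in the refined instance -/
def Miss1 (r s : Fin n → Fin n → ℕ) (L : List (Equiv.Perm (Fin n))) (S : List ℕ) : Prop :=
  Miss (rS r S) (sS s S) L

theorem ka_lt_iff_of_inj {r : Fin n → Fin n → ℕ} {v : ℕ} {m : Fin n} (h : Injective (r m))
    (w w' : Fin n) : ka r v m w < ka r v m w' ↔ r m w < r m w' := by
  constructor
  · intro h1
    rcases lt_trichotomy (r m w) (r m w') with h2 | h2 | h2
    · exact h2
    · rw [h h2] at h1
      exact absurd h1 (lt_irrefl _)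
    · exact absurd h1 (ka_lt h2).not_gt
  · exact ka_lt

theorem Miss1.men {r s : Fin n → Fin n → ℕ} {L : List (Equiv.Perm (Fin n))} {S : List ℕ}
    (hS : S.length < n) (h : Miss1 r s L S) : ∃ c < n, Miss1 r s L (S ++ [c]) := by
  obtain ⟨ν, π, hπ, hm⟩ := h
  refine ⟨ν ⟨S.length, hS⟩, (ν _).2, ν, π, hπ, fun M hM hg => hm M hM ?_⟩
  refine (Gd.congr (fun m w w' => ?_) (fun w m m' => ?_) M).1 hg
  · unfold KA
    rcases lt_trichotomy (m : ℕ) S.length with h1 | h1 | h1
    · have h2 : (S ++ [(ν ⟨S.length, hS⟩ : ℕ)])[(m : ℕ)]? = S[(m : ℕ)]? :=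
        List.getElem?_append_left h1
      have h3 : ∀ w, rS r (S ++ [(ν ⟨S.length, hS⟩ : ℕ)]) m w = rS r S m w := fun w => by
        unfold rS
        rw [h2]
      unfold ka
      rw [h3, h3]
    · have hm' : m = ⟨S.length, hS⟩ := Fin.ext h1
      have h2 : (S ++ [(ν ⟨S.length, hS⟩ : ℕ)])[(m : ℕ)]? = some (ν ⟨S.length, hS⟩ : ℕ) := by
        rw [h1]; simp
      have h3 : ∀ w, rS r (S ++ [(ν ⟨S.length, hS⟩ : ℕ)]) m w = ka r (ν m) m w := fun w => by
        unfold rS
        rw [h2, hm']
      have h4 : ∀ w, rS r S m w = r m w := fun w => by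
        unfold rS
        rw [h1]
        simp
      have h5 : Injective (rS r (S ++ [(ν ⟨S.length, hS⟩ : ℕ)]) m) := by
        intro w w' hww
        rw [h3, h3] at hww
        exact ka_inj r _ m hww
      rw [ka_lt_iff_of_inj h5, h3, h3]
      unfold ka
      rw [h4, h4]
    · have h2 : (S ++ [(ν ⟨S.length, hS⟩ : ℕ)])[(m : ℕ)]? = none :=
        List.getElem?_eq_none (by simp; omega)
      have h4 : S[(m : ℕ)]? = none := List.getElem?_eq_none (by omega)
      have h3 : ∀ w, rS r (S ++ [(ν ⟨S.length, hS⟩ : ℕ)]) m w = rS r S m w := fun w => by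
        unfold rS
        rw [h2, h4]
      unfold ka
      rw [h3, h3]
  · have h1 : ∀ m, sS s (S ++ [(ν ⟨S.length, hS⟩ : ℕ)]) w m = sS s S w m := by
      intro m
      unfold sS blk
      have h2 : n ≤ ((w : ℕ) + 1) * n := Nat.le_mul_of_pos_left n (by omega)
      rw [List.drop_eq_nil_of_le (by simp; omega), List.drop_eq_nil_of_le (by omega)]
    unfold KB kb
    rw [h1, h1]

/-- the block under construction -/
def cur (n : ℕ) (S : List ℕ) : List ℕ := S.drop (S.length / n * n)

theorem length_cur (S : List ℕ) : (cur n S).length = S.length % n := by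
  unfold cur
  rw [List.length_drop]
  have := Nat.div_add_mod S.length n
  have h2 : S.length / n * n = n * (S.length / n) := Nat.mul_comm _ _
  omega

theorem blk_append_cur (hn : 0 < n) (S : List ℕ) (c : ℕ) :
    blk n S (S.length / n) = cur n S ∧ blk n (S ++ [c]) (S.length / n) = cur n S ++ [c] := by
  have h1 := length_cur (n := n) S
  have h2 := Nat.mod_lt S.length hn
  constructor
  · unfold blk
    exact List.take_of_length_le (by unfold cur at h1; omega)
  · unfold blk
    have h3 : S.length / n * n ≤ S.length := Nat.div_mul_le_self _ _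
    rw [List.drop_append_of_le_length h3]
    exact List.take_of_length_le (by
      rw [List.length_append, List.length_singleton]
      unfold cur at h1
      omega)

theorem blk_append_lt (S : List ℕ) (c i : ℕ) (hi : i < S.length / n) :
    blk n (S ++ [c]) i = blk n S i := by
  have hn : 0 < n := by
    rcases Nat.eq_zero_or_pos n with h | h
    · subst h; simp at hi
    · exact h
  have h3 : (i + 1) * n ≤ S.length :=
    (Nat.mul_le_mul_right n hi).trans (Nat.div_mul_le_self _ _)
  have h4 : (i + 1) * n = i * n + n := by ring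
  unfold blk
  rw [List.drop_append_of_le_length (by omega), List.take_append_of_le_length]
  rw [List.length_drop]
  omega

theorem blk_append_gt (hn : 0 < n) (S : List ℕ) (c i : ℕ) (hi : S.length / n < i) :
    blk n (S ++ [c]) i = [] ∧ blk n S i = [] := by
  have h3 : S.length < i * n := (Nat.div_lt_iff_lt_mul hn).1 hi
  unfold blk
  rw [List.drop_eq_nil_of_le (by simp; omega), List.drop_eq_nil_of_le (by omega)]
  simp

theorem Miss1.women {r s : Fin n → Fin n → ℕ} {L : List (Equiv.Perm (Fin n))} {S : List ℕ}
    (hS1 : n ≤ S.length) (hS2 : S.length < n * (n + 1)) (h : Miss1 r s L S) :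
    ∃ c < n, c ∉ cur n S ∧ Miss1 r s L (S ++ [c]) := by
  classical
  have hn : 0 < n := by
    rcases Nat.eq_zero_or_pos n with h | h
    · subst h; simp at hS2
    · exact h
  obtain ⟨ν, π, hπ, hm⟩ := h
  have hi1 : 1 ≤ S.length / n := (Nat.one_le_div_iff hn).2 hS1
  have hi2 : S.length / n < n + 1 := (Nat.div_lt_iff_lt_mul hn).2 (by rwa [Nat.mul_comm])
  -- the woman under construction
  obtain ⟨w₀, hw₀⟩ : ∃ w₀ : Fin n, (w₀ : ℕ) + 1 = S.length / n :=
    ⟨⟨S.length / n - 1, by omega⟩, by simp only; omega⟩
  -- the first man who is not in the block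
  have hlt := Nat.mod_lt S.length hn
  have hlen := length_cur (n := n) S
  have hex : ∃ c : Fin n, (c : ℕ) ∉ cur n S := by
    by_contra hc
    push Not at hc
    have h1 : (univ : Finset (Fin n)).card ≤ (cur n S).toFinset.card :=
      card_le_card_of_injOn (fun c : Fin n => (c : ℕ)) (fun c _ => by simpa using hc c)
        (fun a _ b _ hab => Fin.ext hab)
    have h2 := List.toFinset_card_le (cur n S)
    rw [card_univ, Fintype.card_fin] at h1
    omega
  obtain ⟨c₀, hc₀⟩ := hex
  obtain ⟨c, hc1, hc2⟩ := ((univ : Finset (Fin n)).filter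
    fun c : Fin n => (c : ℕ) ∉ cur n S).exists_min_image (fun c => (π w₀).idxOf c) ⟨c₀, by simp [hc₀]⟩
  simp only [mem_filter, mem_univ, true_and] at hc1 hc2
  refine ⟨c, c.2, hc1, ν, π, hπ, fun M hM hg => hm M hM ?_⟩
  refine (Gd.congr (fun m w w' => ?_) (fun w m m' => ?_) M).1 hg
  · have h2 : (S ++ [(c : ℕ)])[(m : ℕ)]? = S[(m : ℕ)]? :=
      List.getElem?_append_left (by have := m.2; omega)
    have h3 : ∀ w, rS r (S ++ [(c : ℕ)]) m w = rS r S m w := fun w => by
      unfold rS
      rw [h2]
    unfold KA ka
    rw [h3, h3]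
  · by_cases hw : w = w₀
    · subst hw
      unfold KB
      have hl := (length_of_ordF (hπ w)).le
      rw [kb_lt_iff hl, kb_lt_iff hl, sS_lt_iff, sS_lt_iff, sS_eq_iff, sS_eq_iff, hw₀,
        (blk_append_cur hn S c).1, (blk_append_cur hn S c).2]
      have hI : ∀ x : Fin n, (cur n S ++ [(c : ℕ)]).idxOf (x : ℕ) =
          if (x : ℕ) ∈ cur n S then (cur n S).idxOf (x : ℕ) else
            if x = c then (cur n S).length else (cur n S).length + 1 := by
        intro x
        rw [List.idxOf_append]
        split_ifs with h1 h2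
        · rfl
        · subst h2; simp
        · have : (x : ℕ) ≠ c := fun h => h2 (Fin.ext h)
          rw [List.idxOf_cons_ne _ (Ne.symm this)]
          simp
          omega
      have hI2 : ∀ x : Fin n, (x : ℕ) ∉ cur n S → (cur n S).idxOf (x : ℕ) = (cur n S).length :=
        fun x hx => List.idxOf_eq_length hx
      have hI3 : ∀ x : Fin n, (x : ℕ) ∈ cur n S → (cur n S).idxOf (x : ℕ) < (cur n S).length :=
        fun x hx => List.idxOf_lt_length_of_mem hx
      have hbc : ∀ x : Fin n, (x : ℕ) ∉ cur n S → x ≠ c → bef (π w) c x = true := by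
        intro x hx hne
        unfold bef
        simp only [decide_eq_true_eq]
        have h1 := hc2 x hx
        have h2 : (π w).idxOf c ≠ (π w).idxOf x := fun e =>
          hne ((List.idxOf_inj (mem_of_ordF (hπ w) c)).1 e).symm
        omega
      have hcb : ∀ x : Fin n, (x : ℕ) ∉ cur n S → bef (π w) x c = false := by
        intro x hx
        unfold bef
        simp only [decide_eq_false_iff_not, not_lt]
        exact hc2 x hx
      rw [hI m, hI m']
      by_cases e1 : (m : ℕ) ∈ cur n S
      · have f1 := hI3 m e1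
        by_cases e2 : (m' : ℕ) ∈ cur n S
        · simp [e1, e2]
        · have f2 := hI2 m' e2
          rw [if_pos e1, if_neg e2, f2]
          split_ifs <;> omega
      · have f1 := hI2 m e1
        by_cases e2 : (m' : ℕ) ∈ cur n S
        · have f2 := hI3 m' e2
          rw [if_neg e1, if_pos e2, f1]
          split_ifs <;> omega
        · have f2 := hI2 m' e2
          rw [if_neg e1, if_neg e2, f1, f2]
          by_cases e3 : m = c
          · by_cases e4 : m' = c
            · simp [e3, e4]
            · have := hbc m' e2 e4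
              subst e3
              simp [e4, this]
          · by_cases e4 : m' = c
            · have := hcb m e1
              subst e4
              simp [e3, this]
            · simp [e3, e4]
    · have h1 : ∀ m, sS s (S ++ [(c : ℕ)]) w m = sS s S w m := by
        intro m
        unfold sS
        have hne : (w : ℕ) + 1 ≠ S.length / n := fun h => hw (Fin.ext (by omega))
        rcases lt_or_gt_of_ne hne with h2 | h2
        · rw [blk_append_lt S c _ h2]
        · obtain ⟨h3, h4⟩ := blk_append_gt hn S c _ h2
          rw [h3, h4]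
      unfold KB kb
      rw [h1, h1]

/-- a complete description -/
structure Full (n : ℕ) (S : List ℕ) : Prop where
  len : S.length = n * (n + 1)
  lt : ∀ c ∈ S, c < n
  nodup : ∀ i, 1 ≤ i → (blk n S i).Nodup

theorem Full.mem {S : List ℕ} (h : Full n S) (w m : Fin n) : (m : ℕ) ∈ blk n S (w + 1) := by
  classical
  have hlen : (blk n S (w + 1)).length = n := by
    unfold blk
    rw [List.length_take, List.length_drop, h.len]
    have h1 : ((w : ℕ) + 1) * n + n ≤ n * (n + 1) := by
      have := w.2
      nlinarith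
    omega
  have h1 : (blk n S (w + 1)).toFinset ⊆ Finset.range n := by
    intro x hx
    rw [List.mem_toFinset] at hx
    rw [Finset.mem_range]
    refine h.lt x ?_
    unfold blk at hx
    exact List.mem_of_mem_drop (List.mem_of_mem_take hx)
  have h2 : (blk n S (w + 1)).toFinset = Finset.range n := by
    refine eq_of_subset_of_card_le h1 ?_
    rw [List.toFinset_card_of_nodup (h.nodup _ (by omega)), hlen, card_range]
  have h3 : (m : ℕ) ∈ (blk n S (w + 1)).toFinset := by
    rw [h2, Finset.mem_range]
    exact m.2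
  exact List.mem_toFinset.1 h3

/-- the fixed keys of a refined instance -/
def a0 (r : Fin n → Fin n → ℕ) (S : List ℕ) : Fin n → Fin n → ℕ := KA (rS r S) fun _ => 0

/-- the fixed keys of a refined instance -/
def b0 (s : Fin n → Fin n → ℕ) (S : List ℕ) (w m : Fin n) : ℕ := sS s S w m * (n + 1) + m

theorem a0_inj (r : Fin n → Fin n → ℕ) (S : List ℕ) (m : Fin n) : Injective (a0 r S m) :=
  KA_inj _ _ m

theorem b0_lt {s : Fin n → Fin n → ℕ} {S : List ℕ} {w m m' : Fin n}
    (h : sS s S w m < sS s S w m') : b0 s S w m < b0 s S w m' := by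
  unfold b0
  have h1 : sS s S w m * (n + 1) + (n + 1) ≤ sS s S w m' * (n + 1) := by nlinarith
  have := m.2
  omega

theorem b0_inj (s : Fin n → Fin n → ℕ) (S : List ℕ) (w : Fin n) : Injective (b0 s S w) := by
  intro m m' h
  rcases lt_trichotomy (sS s S w m) (sS s S w m') with h1 | h1 | h1
  · exact absurd h (b0_lt h1).ne
  · unfold b0 at h
    rw [h1] at h
    exact Fin.ext (by omega)
  · exact absurd h (b0_lt h1).ne'

theorem stable_of_fixed {r s : Fin n → Fin n → ℕ} {S : List ℕ} {M : Equiv.Perm (Fin n)}
    (h : Stable (a0 r S) (b0 s S) M) : Stable r s M := by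
  refine stable_of_refined (S := S) ?_
  rintro m j ⟨h1, h2⟩
  exact h m j ⟨ka_lt h1, b0_lt h2⟩

/-- if something is missing in a completely refined instance then the matching of the fixed keys
is missing -/
theorem Full.not_mem {r s : Fin n → Fin n → ℕ} {L : List (Equiv.Perm (Fin n))} {S : List ℕ}
    (hS : Full n S) (h : Miss1 r s L S) {M : Equiv.Perm (Fin n)} (hM : Gd (a0 r S) (b0 s S) M) :
    M ∉ L := by
  intro hML
  obtain ⟨ν, π, hπ, hm⟩ := h
  refine hm M hML ?_
  refine (Gd.congr (fun m w w' => ?_) (fun w m m' => ?_) M).1 hM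
  · have h1 : Injective (rS r S m) := by
      intro w w' hww
      unfold rS at hww
      have h2 : (m : ℕ) < S.length := by
        rw [hS.len]
        have := m.2
        nlinarith
      rw [List.getElem?_eq_getElem h2] at hww
      exact ka_inj r _ m hww
    unfold a0 KA
    rw [ka_lt_iff_of_inj h1, ka_lt_iff_of_inj h1]
  · have h1 : ∀ m m', sS s S w m = sS s S w m' → m = m' := by
      intro m m' he
      have h2 := (sS_eq_iff S).1 he
      exact Fin.ext ((List.idxOf_inj (hS.mem w m)).1 h2.2)
    have hl := (length_of_ordF (hπ w)).le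
    unfold KB
    rw [kb_lt_iff hl]
    constructor
    · intro h2
      rcases lt_trichotomy (sS s S w m) (sS s S w m') with h3 | h3 | h3
      · exact Or.inl h3
      · rw [h1 _ _ h3] at h2
        exact absurd h2 (lt_irrefl _)
      · exact absurd h2 (b0_lt h3).not_gt
    · rintro (h2 | ⟨h2, h3⟩)
      · exact b0_lt h2
      · rw [h1 _ _ h2] at h3
        unfold bef at h3
        simp at h3

end Pool.Agent.H688.WSM
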