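import Pool.Agent.H688.WSM.Lim
import Pool.Agent.H688.WSM.States

/-!
# Random points
-/

set_option autoImplicit false
set_option linter.unusedSectionVars false

namespace Pool.Agent.H688.WSM

open Finset Function Matrix

variable {n : ℕ}

/-! ### the second test -/

section Ring

variable {R : Type*} [CommRing R]

/-- the matrix of the variables of the allowed pairs -/
def A2 (al : Fin n → Fin n → Prop) [∀ b w, Decidable (al b w)] (y : Fin n → Fin n → R) :
    Matrix (Fin n) (Fin n) R := of fun b w => if al b w then y b w else 0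

/-- the value of the second test -/
def F2 (al : Fin n → Fin n → Prop) [∀ b w, Decidable (al b w)] (L : List (Equiv.Perm (Fin n)))
    (y : Fin n → Fin n → R) : R :=
  (A2 al y).det - (L.map fun M => (A2 (fun b w => al b w ∧ M b = w) y).det).sum

theorem det_A2 (al : Fin n → Fin n → Prop) [∀ b w, Decidable (al b w)] (y : Fin n → Fin n → R) :
    (A2 al y).det = ∑ σ : Equiv.Perm (Fin n), Equiv.Perm.sign σ •
      (if ∀ b, al b (σ b) then ∏ b, y b (σ b) else 0) := by
  rw [← det_transpose, det_apply]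
  refine sum_congr rfl fun σ _ => ?_
  congr 1
  simp only [transpose_apply, A2, of_apply]
  by_cases h : ∀ b, al b (σ b)
  · rw [if_pos h]
    exact prod_congr rfl fun b _ => if_pos (h b)
  · rw [if_neg h]
    push Not at h
    obtain ⟨b, hb⟩ := h
    exact prod_eq_zero (mem_univ b) (if_neg hb)

theorem det_A2_single (al : Fin n → Fin n → Prop) [∀ b w, Decidable (al b w)]
    (y : Fin n → Fin n → R) (M : Equiv.Perm (Fin n)) :
    (A2 (fun b w => al b w ∧ M b = w) y).det = Equiv.Perm.sign M •
      (if ∀ b, al b (M b) then ∏ b, y b (M b) else 0) := by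
  rw [det_A2, sum_eq_single M]
  · congr 1
    by_cases h : ∀ b, al b (M b)
    · rw [if_pos h, if_pos fun b => ⟨h b, rfl⟩]
    · rw [if_neg h, if_neg fun h' => h fun b => (h' b).1]
  · intro σ _ hσ
    rw [if_neg, smul_zero]
    intro h
    exact hσ (Equiv.ext fun b => (h b).2.symm)
  · intro h
    exact absurd (mem_univ _) h

theorem F2_eq (al : Fin n → Fin n → Prop) [∀ b w, Decidable (al b w)]
    {L : List (Equiv.Perm (Fin n))} (hL : L.Nodup) (y : Fin n → Fin n → R) :
    F2 al L y = ∑ σ ∈ (univ : Finset (Equiv.Perm (Fin n))) \ L.toFinset, Equiv.Perm.sign σ •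
      (if ∀ b, al b (σ b) then ∏ b, y b (σ b) else 0) := by
  unfold F2
  rw [det_A2, ← List.sum_toFinset _ hL, sum_congr rfl fun M _ => det_A2_single al y M,
    ← sum_sdiff (subset_univ L.toFinset)]
  ring

theorem F2_eq_zero {al : Fin n → Fin n → Prop} [∀ b w, Decidable (al b w)]
    {L : List (Equiv.Perm (Fin n))} (hL : L.Nodup) (h : ¬ ∃ N : Equiv.Perm (Fin n),
      (∀ b, al b (N b)) ∧ N ∉ L) (y : Fin n → Fin n → R) : F2 al L y = 0 := by
  rw [F2_eq al hL]
  refine sum_eq_zero fun σ hσ => ?_
  rw [if_neg, smul_zero]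
  intro h1
  rw [mem_sdiff, List.mem_toFinset] at hσ
  exact h ⟨σ, h1, hσ.2⟩

theorem F2_point {al : Fin n → Fin n → Prop} [∀ b w, Decidable (al b w)]
    {L : List (Equiv.Perm (Fin n))} (hL : L.Nodup) {N : Equiv.Perm (Fin n)}
    (h1 : ∀ b, al b (N b)) (h2 : N ∉ L) :
    F2 al L (fun b w => if N b = w then (1 : ℤ) else 0) ≠ 0 := by
  rw [F2_eq al hL, sum_eq_single N]
  · rw [if_pos h1]
    simp only [if_true, prod_const_one]
    rcases Int.units_eq_one_or (Equiv.Perm.sign N) with h3 | h3
    · rw [h3, one_smul]; exact one_ne_zero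
    · rw [h3, Units.neg_smul, one_smul]; norm_num
  · intro σ _ hσ
    have : ∃ b, ¬ N b = σ b := by
      by_contra hc
      push Not at hc
      exact hσ (Equiv.ext fun b => (hc b).symm)
    obtain ⟨b, hb⟩ := this
    rw [prod_eq_zero (mem_univ b) (if_neg hb)]
    simp
  · intro h
    exact absurd (by simpa using h2) h

theorem map_F2 {S : Type*} [CommRing S] (φ : R →+* S) (al : Fin n → Fin n → Prop)
    [∀ b w, Decidable (al b w)] (L : List (Equiv.Perm (Fin n))) (y : Fin n → Fin n → R) :
    φ (F2 al L y) = F2 al L (fun b w => φ (y b w)) := by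
  have h1 : ∀ (al : Fin n → Fin n → Prop) [∀ b w, Decidable (al b w)],
      φ (A2 al y).det = (A2 al fun b w => φ (y b w)).det := by
    intro al _
    rw [RingHom.map_det]
    congr 1
    ext b w
    simp only [RingHom.mapMatrix_apply, map_apply, A2, of_apply]
    split_ifs <;> simp
  unfold F2
  rw [map_sub, map_list_sum, List.map_map, h1]
  congr 2
  refine List.map_congr_left fun M _ => ?_
  simp only [Function.comp_apply]
  exact h1 _

end Ring

/-- the polynomial of the second test -/
noncomputable def P2 (al : Fin n → Fin n → Prop) [∀ b w, Decidable (al b w)]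
    (L : List (Equiv.Perm (Fin n))) : MvPolynomial (Fin n × Fin n) ℤ :=
  F2 al L (fun b w => MvPolynomial.X (b, w))

theorem eval_P2 (al : Fin n → Fin n → Prop) [∀ b w, Decidable (al b w)]
    (L : List (Equiv.Perm (Fin n))) (X : Fin n → Fin n → ℤ) :
    MvPolynomial.eval (fun p : Fin n × Fin n => X p.1 p.2) (P2 al L) = F2 al L X := by
  unfold P2
  rw [map_F2]
  simp

theorem P2_ne_zero {al : Fin n → Fin n → Prop} [∀ b w, Decidable (al b w)]
    {L : List (Equiv.Perm (Fin n))} (hL : L.Nodup) (h : ∃ N : Equiv.Perm (Fin n),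
      (∀ b, al b (N b)) ∧ N ∉ L) : P2 al L ≠ 0 := by
  obtain ⟨N, h1, h2⟩ := h
  intro h0
  have h3 := eval_P2 al L (fun b w => if N b = w then (1 : ℤ) else 0)
  rw [h0, map_zero] at h3
  exact F2_point hL h1 h2 h3.symm

theorem totalDegree_P2 (al : Fin n → Fin n → Prop) [∀ b w, Decidable (al b w)]
    (L : List (Equiv.Perm (Fin n))) : (P2 al L).totalDegree ≤ n := by
  have h1 : ∀ (al : Fin n → Fin n → Prop) [∀ b w, Decidable (al b w)],
      ((A2 al fun b w => (MvPolynomial.X (b, w) : MvPolynomial (Fin n × Fin n) ℤ)).det).totalDegree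
        ≤ n := by
    intro al _
    refine (totalDegree_det_le _ 1 fun b w => ?_).trans (by simp)
    simp only [A2, of_apply]
    split_ifs
    · rw [MvPolynomial.totalDegree_X]
    · simp
  unfold P2 F2
  refine totalDegree_sub_le' (h1 _) ?_
  induction L with
  | nil => simp
  | cons M L ih =>
      rw [List.map_cons, List.sum_cons]
      exact (MvPolynomial.totalDegree_add _ _).trans (max_le (h1 _) ih)

/-! ### counting zeros -/

theorem zeros_card_le {k N d : ℕ} {p : MvPolynomial (Fin k) ℤ} (hp : p ≠ 0)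
    (hd : p.totalDegree ≤ d) :
    ((univ : Finset (Fin k → Fin N)).filter fun f =>
      MvPolynomial.eval (fun i => ((f i : ℕ) : ℤ)) p = 0).card * N ≤ d * N ^ k := by
  rcases Nat.eq_zero_or_pos N with h0 | hN
  · subst h0
    simp
  let e : Fin N ↪ ℤ := ⟨fun a => ((a : ℕ) : ℤ), fun a b h => by
    have : ((a : ℕ) : ℤ) = ((b : ℕ) : ℤ) := h
    exact Fin.ext (by exact_mod_cast this)⟩
  let S : Finset ℤ := (univ : Finset (Fin N)).map e
  have hS : S.card = N := by simp [S]
  have h1 := MvPolynomial.schwartz_zippel_totalDegree hp S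
  rw [hS] at h1
  have h2 : ((univ : Finset (Fin k → Fin N)).filter fun f =>
      MvPolynomial.eval (fun i => ((f i : ℕ) : ℤ)) p = 0).card ≤
      ((Fintype.piFinset fun _ : Fin k => S).filter fun f => MvPolynomial.eval f p = 0).card := by
    refine card_le_card_of_injOn (fun f i => ((f i : ℕ) : ℤ)) (fun f hf => ?_)
      (fun f _ g _ hfg => ?_)
    · rw [Finset.mem_coe, mem_filter] at hf ⊢
      refine ⟨?_, hf.2⟩
      rw [Fintype.mem_piFinset]
      intro i
      exact mem_map.2 ⟨f i, mem_univ _, rfl⟩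
    · funext i
      have := congrFun hfg i
      exact e.injective this
  have hNq : (0 : ℚ≥0) < N := by exact_mod_cast hN
  rw [div_le_div_iff₀ (by positivity) hNq] at h1
  have h3 : ((Fintype.piFinset fun _ : Fin k => S).filter
      fun f => MvPolynomial.eval f p = 0).card * N ≤ p.totalDegree * N ^ k := by
    exact_mod_cast h1
  calc _ ≤ _ := Nat.mul_le_mul_right N h2
    _ ≤ _ := h3
    _ ≤ _ := Nat.mul_le_mul_right _ hd

theorem zeros_card_le' {N d : ℕ} {p : MvPolynomial (Fin n × Fin n) ℤ} (hp : p ≠ 0)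
    (hd : p.totalDegree ≤ d) :
    ((univ : Finset (Fin n → Fin n → Fin N)).filter fun X =>
      MvPolynomial.eval (fun q : Fin n × Fin n => ((X q.1 q.2 : ℕ) : ℤ)) p = 0).card * N ≤
      d * N ^ (n * n) := by
  let e : Fin n × Fin n ≃ Fin (n * n) := finProdFinEquiv
  have h1 : MvPolynomial.rename e p ≠ 0 := by
    intro h
    apply hp
    apply MvPolynomial.rename_injective e e.injective
    rw [h, map_zero]
  have h2 := zeros_card_le (N := N) h1 ((MvPolynomial.totalDegree_rename_le e p).trans hd)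
  refine le_trans (Nat.mul_le_mul_right N ?_) h2
  refine card_le_card_of_injOn (fun X i => X (e.symm i).1 (e.symm i).2) (fun X hX => ?_)
    (fun X _ Y _ hXY => ?_)
  · rw [Finset.mem_coe, mem_filter] at hX ⊢
    refine ⟨mem_univ _, ?_⟩
    rw [MvPolynomial.eval_rename, ← hX.2]
    congr 2
    funext q
    simp
  · funext i j
    have := congrFun hXY (e (i, j))
    simpa using this

/-- the union bound -/
theorem union_card_le {N d : ℕ} {κ : Type*} [Fintype κ] (P : κ → MvPolynomial (Fin n × Fin n) ℤ)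
    (hP : ∀ k, P k ≠ 0) (hd : ∀ k, (P k).totalDegree ≤ d) :
    ((univ : Finset (Fin n → Fin n → Fin N)).filter fun X => ∃ k,
      MvPolynomial.eval (fun q : Fin n × Fin n => ((X q.1 q.2 : ℕ) : ℤ)) (P k) = 0).card * N ≤
      Fintype.card κ * (d * N ^ (n * n)) := by
  classical
  have h1 : ((univ : Finset (Fin n → Fin n → Fin N)).filter fun X => ∃ k,
      MvPolynomial.eval (fun q : Fin n × Fin n => ((X q.1 q.2 : ℕ) : ℤ)) (P k) = 0) ⊆
      (univ : Finset κ).biUnion fun k => (univ : Finset (Fin n → Fin n → Fin N)).filter fun X =>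
        MvPolynomial.eval (fun q : Fin n × Fin n => ((X q.1 q.2 : ℕ) : ℤ)) (P k) = 0 := by
    intro X hX
    rw [mem_filter] at hX
    obtain ⟨-, k, hk⟩ := hX
    rw [mem_biUnion]
    exact ⟨k, mem_univ _, by rw [mem_filter]; exact ⟨mem_univ _, hk⟩⟩
  calc _ ≤ _ := Nat.mul_le_mul_right N ((card_le_card h1).trans card_biUnion_le)
    _ = ∑ k : κ, ((univ : Finset (Fin n → Fin n → Fin N)).filter fun X =>
        MvPolynomial.eval (fun q : Fin n × Fin n => ((X q.1 q.2 : ℕ) : ℤ)) (P k) = 0).card * N := by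
      rw [sum_mul]
    _ ≤ ∑ _k : κ, d * N ^ (n * n) := sum_le_sum fun k _ => zeros_card_le' (hP k) (hd k)
    _ = _ := by rw [sum_const, card_univ, smul_eq_mul]

end Pool.Agent.H688.WSM
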